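import Mathlib

/-!
# Twist systems

An axiomatic description of the set of isotopy classes of essential simple closed curves on a
closed oriented surface, with its Dehn twists, geometric intersection numbers and the lengths of
the curves in a fixed hyperbolic metric (flat metric for the torus).
-/

namespace Pool.Agent.Lib.H73.Twist

/-- A *twist system* on `D`. The motivating example is the Dehn quandle: `D = D_g` is the set of
isotopy classes of essential simple closed curves on the closed orientable surface `S_g`, `T y` is
the Dehn twist about `y`, `i` is the geometric intersection number and `len x` is the length of the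
geodesic representative of `x` for a fixed hyperbolic metric (flat metric if `g = 1`). For this
example all the fields below are published theorems; the references `[FM]` are to Farb and Margalit,
*A primer on mapping class groups*. -/
structure TwistSystem (D : Type*) where
  /-- the Dehn twist about `y`, as a permutation of the set of curves -/
  T : D → Equiv.Perm D
  /-- geometric intersection number -/
  i : D → D → ℕ
  /-- length of the geodesic representative -/
  len : D → ℝ
  /-- `T_{T_y(x)} = T_y T_x T_y⁻¹` (`[FM]`, Fact 3.7) -/
  conj : ∀ x y, T (T y x) = T y * T x * (T y)⁻¹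
  /-- `i(x, y) = i(y, x)` -/
  symm : ∀ x y, i x y = i y x
  /-- `i(x, x) = 0` -/
  self : ∀ x, i x x = 0
  /-- homeomorphisms preserve intersection numbers -/
  inv : ∀ x y z, i (T z x) (T z y) = i x y
  /-- the twist about `y` fixes the curves disjoint from `y` -/
  disj : ∀ x y, i x y = 0 → T y x = x
  /-- `|i(T_y(x), z) - i(x, y) i(y, z)| ≤ i(x, z)` (Fathi, Laudenbach, Poenaru; `[FM]`,
  Proposition 3.4) -/
  flp : ∀ x y z, |(i (T y x) z : ℤ) - i x y * i y z| ≤ i x z
  /-- `i(x, y) = 1` implies `T_x T_y (x) = y` (`[FM]`, proof of Proposition 3.11) -/
  braid : ∀ x y, i x y = 1 → T x (T y x) = y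
  /-- If `i(x, y) = 1` then `max (i(T_y(x), z), i(T_x(y), z)) = i(x, z) + i(y, z)`: the tropical
  form of the trace identity `tr A tr B = tr AB + tr AB⁻¹`. -/
  one : ∀ x y z, i x y = 1 → max (i (T y x) z) (i (T x y) z) = i x z + i y z
  /-- Thurston's construction. Let `i(x, y) = n ≠ 0`. In the flat structure of Thurston's
  construction on the subsurface filled by `x ∪ y` (`n` unit squares, `x` horizontal and `y`
  vertical) the twist `T_x` is affine with derivative `(1 n; 0 1)` and `T_y` is affine with
  derivative `(1 0; -n 1)`. If `(a j, b j)` are the holonomy vectors of the segments of the flat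
  geodesic representative of the part of `z` in this subsurface, then the intersection numbers of
  `z` with `x`, `y`, `T_x(y)` and `T_y(x)` are as stated. -/
  flat : ∀ x y z, i x y ≠ 0 → ∃ (k : ℕ) (a b : Fin k → ℝ),
    (i x z : ℝ) = ∑ j, |b j| ∧ (i y z : ℝ) = ∑ j, |a j| ∧
    (i (T x y) z : ℝ) = ∑ j, |a j - i x y * b j| ∧
    (i (T y x) z : ℝ) = ∑ j, |b j + i x y * a j|
  /-- Strict convexity of the length of `x` along the twist flow about `y` (Kerckhoff, Wolpert). -/
  convex : ∀ x y, i x y ≠ 0 → 2 * len x < len (T y x) + len ((T y)⁻¹ x)
  /-- Strict convexity of the length of `x` in the twist parameters about two disjoint curves `y`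
  and `z` (Wolpert; Bestvina, Bromberg, Fujiwara, Souto). -/
  convex₂ : ∀ x y z, y ≠ z → i y z = 0 → i x y ≠ 0 → i x z ≠ 0 →
    2 * len x < len (T y ((T z)⁻¹ x)) + len (T z ((T y)⁻¹ x))

end Pool.Agent.Lib.H73.Twist
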