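import Mathlib
import Pool.Agent.Lib.H73.TwistSystemDef

/-!
# Idempotents of quandle rings of curve systems

Abstract version of the Dehn quandle: a set `D` with permutations `T y` (the Dehn twist about `y`),
a function `i : D → D → ℕ` (geometric intersection number) and a function `ℓ : D → ℝ` (length in a
hyperbolic metric).
-/

namespace Pool.Agent.Lib.H73.Twist

/-- The combinatorial heart: a finite set `S` of curves, two of which meet, contains a pair
`(x, y)` such that `T_y(x)` lies outside `S` and has a unique presentation `T_{y'}(x')` with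
`x', y' ∈ S`. -/
theorem exists_unique_twist {D : Type*} (T : D → Equiv.Perm D) (i : D → D → ℕ) (ℓ : D → ℝ)
    (conj : ∀ x y, T (T y x) = T y * T x * (T y)⁻¹)
    (symm : ∀ x y, i x y = i y x)
    (self : ∀ x, i x x = 0)
    (inv : ∀ x y z, i (T z x) (T z y) = i x y)
    (disj : ∀ x y, i x y = 0 → T y x = x)
    (flp : ∀ x y z, |(i (T y x) z : ℤ) - i x y * i y z| ≤ i x z)
    (braid : ∀ x y, i x y = 1 → T x (T y x) = y)
    (one : ∀ x y z, i x y = 1 → max (i (T y x) z) (i (T x y) z) = i x z + i y z)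
    (two : ∀ x y z, i x y = 2 → i x z ≠ 0 → i x z + i y z < i (T y x) z + i (T x y) z)
    (conv : ∀ x y, i x y ≠ 0 → 2 * ℓ x < ℓ (T y x) + ℓ ((T y)⁻¹ x))
    (conv₂ : ∀ x y z, y ≠ z → i y z = 0 → i x y ≠ 0 → i x z ≠ 0 →
      2 * ℓ x < ℓ (T y ((T z)⁻¹ x)) + ℓ (T z ((T y)⁻¹ x)))
    (S : Finset D) (hS : ∃ x ∈ S, ∃ y ∈ S, i x y ≠ 0) :
    ∃ x ∈ S, ∃ y ∈ S, T y x ∉ S ∧
      ∀ x' ∈ S, ∀ y' ∈ S, T y' x' = T y x → x' = x ∧ y' = y := by
  classical
  obtain ⟨x₀, hx₀, y₀, hy₀, h₀⟩ := hS
  obtain ⟨⟨x₁, y₁⟩, hxy₁, hmax₁⟩ := (S ×ˢ S).exists_max_image (fun q => i q.1 q.2)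
    ⟨(x₀, y₀), Finset.mem_product.2 ⟨hx₀, hy₀⟩⟩
  set m : ℕ := i x₁ y₁ with hm
  have hle : ∀ x ∈ S, ∀ y ∈ S, i x y ≤ m := fun x hx y hy =>
    hmax₁ (x, y) (Finset.mem_product.2 ⟨hx, hy⟩)
  have hmpos : 0 < m := lt_of_lt_of_le (Nat.pos_of_ne_zero h₀) (hle x₀ hx₀ y₀ hy₀)
  set M : Finset (D × D) := (S ×ˢ S).filter (fun q => i q.1 q.2 = m) with hM
  obtain ⟨⟨x, y⟩, hxy, hmax⟩ := M.exists_max_image (fun q => ℓ (T q.2 q.1))
    ⟨(x₁, y₁), by rw [hM, Finset.mem_filter]; exact ⟨hxy₁, hm.symm⟩⟩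
  rw [hM, Finset.mem_filter, Finset.mem_product] at hxy
  obtain ⟨⟨hx, hy⟩, hxym⟩ := hxy
  simp only at hx hy hxym
  have hmax' : ∀ x' ∈ S, ∀ y' ∈ S, i x' y' = m → ℓ (T y' x') ≤ ℓ (T y x) := by
    intro x' hx' y' hy' h
    refine hmax (x', y') ?_
    rw [hM, Finset.mem_filter, Finset.mem_product]
    exact ⟨⟨hx', hy'⟩, h⟩
  set d : D := T y x with hd
  -- basic numbers
  have hTself : ∀ z, T z z = z := fun z => disj z z (self z)
  have tw : ∀ a b, i (T b a) b = i a b := by
    intro a b
    have := inv a b b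
    rwa [hTself b] at this
  have tw' : ∀ a b, i (T b a) a = i a b * i a b := by
    intro a b
    have h := flp a b a
    rw [self a] at h
    have h' := abs_nonpos_iff.1 (h.trans (le_of_eq Nat.cast_zero))
    have h2 : (i (T b a) a : ℤ) = i a b * i b a := by linarith
    rw [symm b a] at h2
    exact_mod_cast h2
  have hdy : i d y = m := by rw [hd, tw, hxym]
  have hdx : i d x = m * m := by rw [hd, tw', hxym]
  -- `d` is not in `S`
  have hdS : d ∉ S := by
    intro hdS
    have h1 := hle d hdS x hx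
    rw [hdx] at h1
    have hm1 : m = 1 := by nlinarith
    have hdx1 : i d x = 1 := by rw [hdx, hm1]
    have hdy1 : i d y = 1 := by rw [hdy, hm1]
    have hxy1 : i x y = 1 := by rw [hxym, hm1]
    -- (a)
    have a1 : ℓ (T y d) ≤ ℓ d := hmax' d hdS y hy hdy
    have a2 := conv d y (by omega)
    have a3 : (T y)⁻¹ d = x := by rw [hd]; simp
    rw [a3] at a2
    -- (b)
    have b1 : ℓ (T d x) ≤ ℓ d := hmax' x hx d hdS (by rw [symm, hdx1, hm1])
    have b2 := conv x d (by rw [symm]; omega)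
    have b4 : T y (T x y) = x := braid y x (by rw [symm]; exact hxy1)
    have b3 : (T d)⁻¹ x = y := by
      rw [Equiv.Perm.inv_eq_iff_eq, hd, conj]
      simp only [Equiv.Perm.coe_mul, Function.comp_apply]
      have : (T y)⁻¹ y = y := by rw [Equiv.Perm.inv_eq_iff_eq, hTself]
      rw [this, b4]
    rw [b3] at b2
    -- (c)
    have c1 : ℓ (T x y) ≤ ℓ d := hmax' y hy x hx (by rw [symm, hxym])
    have c2 := conv y x (by rw [symm]; omega)
    have c3 : (T x)⁻¹ y = d := by
      rw [Equiv.Perm.inv_eq_iff_eq, hd, braid x y hxy1]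
    rw [c3] at c2
    linarith
  refine ⟨x, hx, y, hy, hdS, ?_⟩
  intro x' hx' y' hy' heq
  change T y' x' = d at heq
  set m' : ℕ := i x' y' with hm'
  have hm'm : m' ≤ m := hle x' hx' y' hy'
  have hm'0 : m' ≠ 0 := by
    intro h
    apply hdS
    rw [← heq, disj x' y' h]
    exact hx'
  have hdy' : i d y' = m' := by rw [← heq, tw]
  have hdx' : i d x' = m' * m' := by rw [← heq, tw']
  -- intersection numbers of `x, y'` and of `x', y`
  have e1 : i x y' = i (T y y') d := by
    rw [← inv x y' y, symm]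
  have e2 : i x' y = i (T y' y) d := by
    rw [← inv x' y y', heq, symm]
  have h1 : i (T y y') d ≤ m := by rw [← e1]; exact hle x hx y' hy'
  have h2 : i (T y' y) d ≤ m := by rw [← e2]; exact hle x' hx' y hy
  set E : ℕ := i y y' with hE
  rcases Nat.eq_zero_or_pos E with hE0 | hEpos
  · -- disjoint (or equal) twisting curves
    have hyy' : T y y' = y' := disj y' y (by rw [symm]; exact hE0)
    have hy'y : T y' y = y := disj y y' hE0
    have f1 : i x y' = m' := by rw [e1, hyy', symm, hdy']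
    have f2 : i x' y = m := by rw [e2, hy'y, symm, hdy]
    rcases Nat.lt_or_ge m' m with hlt | hge
    · exfalso
      have g1 : i x x' = i (T y x') d := by rw [← inv x x' y, symm]
      have g2 := flp x' y d
      rw [f2, symm y d, hdy, symm x' d, hdx'] at g2
      have g3 := hle x hx x' hx'
      rw [g1] at g3
      have g4 := (abs_le.1 g2).1
      push_cast at g4
      have g5 : (i (T y x') d : ℤ) ≤ m := by exact_mod_cast g3
      have g6 : (m' : ℤ) + 1 ≤ m := by exact_mod_cast hlt
      have g7 : (1 : ℤ) ≤ m' := by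
        have : 1 ≤ m' := Nat.pos_of_ne_zero hm'0
        exact_mod_cast this
      nlinarith
    · have hmm : m' = m := le_antisymm hm'm hge
      by_cases hyy : y' = y
      · refine ⟨?_, hyy⟩
        rw [hyy] at heq
        exact (T y).injective (heq.trans hd)
      · exfalso
        have k1 : ℓ (T y x') ≤ ℓ d := hmax' x' hx' y hy f2
        have k2 : ℓ (T y' x) ≤ ℓ d := hmax' x hx y' hy' (by rw [f1, hmm])
        have k3 := conv₂ d y y' (fun h => hyy h.symm) hE0 (by omega) (by omega)
        have k4 : (T y')⁻¹ d = x' := by rw [← heq]; simp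
        have k5 : (T y)⁻¹ d = x := by rw [hd]; simp
        rw [k4, k5] at k3
        linarith
  · exfalso
    have p1 := flp y' y d
    rw [symm y' y, ← hE, symm y d, hdy, symm y' d, hdy'] at p1
    have p2 := (abs_le.1 p1).1
    have p3 : (i (T y y') d : ℤ) ≤ m := by exact_mod_cast h1
    have p4 : (m' : ℤ) ≤ m := by exact_mod_cast hm'm
    have p5 : (0 : ℤ) < m := by exact_mod_cast hmpos
    have hE2 : (E : ℤ) ≤ 2 := by nlinarith
    have hE2' : E ≤ 2 := by exact_mod_cast hE2
    rcases Nat.lt_or_ge E 2 with hlt | hge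
    · have hE1 : i y y' = 1 := by rw [← hE]; omega
      have q := one y y' d hE1
      rw [symm y d, hdy, symm y' d, hdy'] at q
      have q2 : max (i (T y' y) d) (i (T y y') d) ≤ m := max_le h2 h1
      omega
    · have hE2 : i y y' = 2 := by rw [← hE]; omega
      have hEE : (E : ℤ) = 2 := by
        have : E = 2 := by omega
        exact_mod_cast this
      rw [hEE] at p2
      have hmm : (m' : ℤ) = m := by linarith
      have hmm' : m' = m := by exact_mod_cast hmm
      have q := two y y' d hE2 (by rw [symm, hdy]; omega)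
      rw [symm y d, hdy, symm y' d, hdy', hmm'] at q
      omega

/-- The inequality used for curves meeting twice. -/
theorem two_of_flat (a b : ℝ) : 5 * (|a| + |b|) ≤ 3 * (|a - 2 * b| + |b + 2 * a|) := by
  rcases abs_cases a with ⟨h1, _⟩ | ⟨h1, _⟩ <;> rcases abs_cases b with ⟨h2, _⟩ | ⟨h2, _⟩ <;>
  rcases abs_cases (a - 2 * b) with ⟨h3, _⟩ | ⟨h3, _⟩ <;>
  rcases abs_cases (b + 2 * a) with ⟨h4, _⟩ | ⟨h4, _⟩ <;> rw [h1, h2, h3, h4] <;> linarith

theorem TwistSystem.two {D : Type*} (C : TwistSystem D) (x y z : D) (h : C.i x y = 2)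
    (hz : C.i x z ≠ 0) : C.i x z + C.i y z < C.i (C.T y x) z + C.i (C.T x y) z := by
  obtain ⟨k, a, b, h1, h2, h3, h4⟩ := C.flat x y z (by omega)
  have h5 : 5 * ((C.i y z : ℝ) + C.i x z) ≤ 3 * ((C.i (C.T x y) z : ℝ) + C.i (C.T y x) z) := by
    rw [h1, h2, h3, h4, ← Finset.sum_add_distrib, ← Finset.sum_add_distrib, Finset.mul_sum,
      Finset.mul_sum]
    refine Finset.sum_le_sum fun j _ => ?_
    have := two_of_flat (a j) (b j)
    rw [h]
    push_cast
    exact this
  have h6 : (0 : ℝ) < C.i x z := by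
    exact_mod_cast Nat.pos_of_ne_zero hz
  have h7 : (0 : ℝ) ≤ C.i y z := Nat.cast_nonneg _
  have h8 : ((C.i x z : ℝ) + C.i y z) < (C.i (C.T y x) z : ℝ) + C.i (C.T x y) z := by linarith
  exact_mod_cast h8

/-- Idempotents of the quandle ring of a twist system. -/
theorem idempotent_disjoint {D : Type*} [Mul D] (C : TwistSystem D)
    (hmul : ∀ x y : D, x * y = C.T y x) (u : MonoidAlgebra ℤ D) (hu : u * u = u) :
    ∀ x ∈ u.coeff.support, ∀ y ∈ u.coeff.support, C.i x y = 0 := by
  classical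
  by_contra hcon
  push Not at hcon
  obtain ⟨x₀, hx₀, y₀, hy₀, h₀⟩ := hcon
  obtain ⟨x, hx, y, hy, hnot, huniq⟩ := exists_unique_twist C.T C.i C.len C.conj C.symm C.self
    C.inv C.disj C.flp C.braid C.one C.two C.convex C.convex₂ u.coeff.support
    ⟨x₀, hx₀, y₀, hy₀, h₀⟩
  have hcoef : (u * u).coeff (C.T y x) = 0 := by
    rw [hu]
    by_contra h
    exact hnot (Finsupp.mem_support_iff.2 h)
  rw [MonoidAlgebra.coeff_mul] at hcoef
  have hsum : (u.coeff.sum fun m₁ r₁ => u.coeff.sum fun m₂ r₂ =>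
      if m₁ * m₂ = C.T y x then r₁ * r₂ else 0) = u.coeff x * u.coeff y := by
    rw [Finsupp.sum, Finset.sum_eq_single x]
    · rw [Finsupp.sum, Finset.sum_eq_single y]
      · rw [if_pos (hmul x y)]
      · intro b hb hne'
        rw [if_neg]
        intro h
        rw [hmul] at h
        exact hne' (huniq x hx b hb h).2
      · intro h
        exact absurd hy h
    · intro a ha hne'
      rw [Finsupp.sum]
      refine Finset.sum_eq_zero fun b hb => ?_
      rw [if_neg]
      intro h
      rw [hmul] at h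
      exact hne' (huniq a ha b hb h).1
    · intro h
      exact absurd hx h
  rw [hsum] at hcoef
  exact (mul_ne_zero (Finsupp.mem_support_iff.1 hx) (Finsupp.mem_support_iff.1 hy)) hcoef

/-- The coefficients of a nonzero idempotent add up to `1`. -/
theorem idempotent_sum {D : Type*} [Mul D] (C : TwistSystem D)
    (hmul : ∀ x y : D, x * y = C.T y x) (u : MonoidAlgebra ℤ D) (hu : u * u = u) (hne : u ≠ 0) :
    ∑ x ∈ u.coeff.support, u.coeff x = 1 := by
  classical
  have hd := idempotent_disjoint C hmul u hu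
  have hex : ∃ z, u.coeff z ≠ 0 := by
    by_contra h
    push Not at h
    apply hne
    rw [← MonoidAlgebra.coeff_eq_zero]
    ext z
    simpa using h z
  obtain ⟨z, hz⟩ := hex
  have hzS : z ∈ u.coeff.support := Finsupp.mem_support_iff.2 hz
  have h1 : (u * u).coeff z = u.coeff z := by rw [hu]
  rw [MonoidAlgebra.coeff_mul] at h1
  have h2 : (u.coeff.sum fun m₁ r₁ => u.coeff.sum fun m₂ r₂ =>
      if m₁ * m₂ = z then r₁ * r₂ else 0) = u.coeff z * ∑ x ∈ u.coeff.support, u.coeff x := by
    rw [Finsupp.sum, Finset.sum_eq_single z]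
    · rw [Finsupp.sum, Finset.mul_sum]
      refine Finset.sum_congr rfl fun b hb => ?_
      rw [if_pos]
      rw [hmul, C.disj z b (hd z hzS b hb)]
    · intro a ha hne'
      rw [Finsupp.sum]
      refine Finset.sum_eq_zero fun b hb => ?_
      rw [if_neg]
      intro h
      rw [hmul, C.disj a b (hd a ha b hb)] at h
      exact hne' h
    · intro h
      exact absurd hzS h
  rw [h2] at h1
  exact mul_left_cancel₀ hz (by rw [h1, mul_one])

end Pool.Agent.Lib.H73.Twist
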