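import Mathlib

/-!
Basic facts on commutators `cm a b = a⁻¹ b⁻¹ a b`, hypercentral elements with respect to a
set of acting elements, and local nilpotency.
-/

set_option autoImplicit false

namespace Pool.Agent.Lib.H73

open Subgroup

variable {G : Type*} [Group G]

/-- The commutator `a⁻¹ b⁻¹ a b`. -/
def cm (a b : G) : G := a⁻¹ * b⁻¹ * a * b

theorem cm_def (a b : G) : cm a b = a⁻¹ * b⁻¹ * a * b := rfl

theorem cm_one_left (b : G) : cm 1 b = 1 := by simp [cm]
theorem cm_one_right (a : G) : cm a 1 = 1 := by simp [cm]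
theorem cm_self (a : G) : cm a a = 1 := by simp [cm]

theorem cm_inv (a b : G) : (cm a b)⁻¹ = cm b a := by simp [cm, mul_assoc]

theorem cm_eq_one_iff (a b : G) : cm a b = 1 ↔ a * b = b * a := by
  constructor
  · intro h
    have : b * a * cm a b = a * b := by simp only [cm]; group
    rw [h, mul_one] at this
    exact this.symm
  · intro h
    have : cm a b = (b * a)⁻¹ * (a * b) := by simp only [cm]; group
    rw [this, h, inv_mul_cancel]

/-- `L` normalizes the set `U`. -/
def Nml (L : Subgroup G) (U : Set G) : Prop := ∀ l ∈ L, ∀ u ∈ U, l⁻¹ * u * l ∈ U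

theorem Nml.conj {L : Subgroup G} {U : Set G} (h : Nml L U) {l u : G} (hl : l ∈ L) (hu : u ∈ U) :
    l⁻¹ * u * l ∈ U := h l hl u hu

theorem Nml.conj' {L : Subgroup G} {U : Set G} (h : Nml L U) {l u : G} (hl : l ∈ L) (hu : u ∈ U) :
    l * u * l⁻¹ ∈ U := by
  have := h l⁻¹ (L.inv_mem hl) u hu
  simpa using this

theorem Nml.mono {L L' : Subgroup G} {U : Set G} (h : Nml L U) (hL : L' ≤ L) : Nml L' U :=
  fun l hl u hu => h l (hL hl) u hu

theorem Nml.cm_mem {L U : Subgroup G} (h : Nml L (U : Set G)) {l u : G} (hl : l ∈ L)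
    (hu : u ∈ U) : cm u l ∈ U := by
  have h1 : l⁻¹ * u * l ∈ U := h l hl u hu
  have h2 : cm u l = u⁻¹ * (l⁻¹ * u * l) := by simp only [cm]; group
  rw [h2]
  exact U.mul_mem (U.inv_mem hu) h1

theorem Nml.cm_mem' {L U : Subgroup G} (h : Nml L (U : Set G)) {l u : G} (hl : l ∈ L)
    (hu : u ∈ U) : cm l u ∈ U := by
  rw [← cm_inv]
  exact U.inv_mem (h.cm_mem hl hu)

theorem Nml.self (L : Subgroup G) : Nml L (L : Set G) :=
  fun _ hl _ hu => L.mul_mem (L.mul_mem (L.inv_mem hl) hu) hl

theorem Nml.top (L : Subgroup G) : Nml L ((⊤ : Subgroup G) : Set G) := fun _ _ _ _ => trivial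

theorem Nml.bot (L : Subgroup G) : Nml L ((⊥ : Subgroup G) : Set G) := by
  intro l _ u hu
  have : u = 1 := by simpa using hu
  subst this
  simp

theorem Nml.inf {L U V : Subgroup G} (hU : Nml L (U : Set G)) (hV : Nml L (V : Set G)) :
    Nml L ((U ⊓ V : Subgroup G) : Set G) :=
  fun l hl u hu => ⟨hU l hl u hu.1, hV l hl u hu.2⟩

theorem Nml.inter {L : Subgroup G} {U V : Set G} (hU : Nml L U) (hV : Nml L V) :
    Nml L (U ∩ V) :=
  fun l hl u hu => ⟨hU l hl u hu.1, hV l hl u hu.2⟩

/-- To check that `L` normalizes a closure, look at generators. -/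
theorem Nml.closure {L : Subgroup G} {S : Set G}
    (h : ∀ l ∈ L, ∀ s ∈ S, l⁻¹ * s * l ∈ Subgroup.closure S) :
    Nml L (Subgroup.closure S : Set G) := by
  intro l hl u hu
  have hu' : u ∈ Subgroup.closure S := hu
  show l⁻¹ * u * l ∈ Subgroup.closure S
  induction hu' using Subgroup.closure_induction with
  | mem x hx => exact h l hl x hx
  | one => simpa using (Subgroup.closure S).one_mem
  | mul x y hx hy ihx ihy =>
    have e : l⁻¹ * (x * y) * l = (l⁻¹ * x * l) * (l⁻¹ * y * l) := by group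
    rw [e]
    exact mul_mem (ihx hx) (ihy hy)
  | inv x hx ih =>
    have e : l⁻¹ * x⁻¹ * l = (l⁻¹ * x * l)⁻¹ := by group
    rw [e]
    exact inv_mem (ih hx)

theorem Nml.closure' {L : Subgroup G} {S : Set G} (h : Nml L S) :
    Nml L (Subgroup.closure S : Set G) :=
  Nml.closure fun l hl s hs => Subgroup.subset_closure (h l hl s hs)

theorem Nml.sup {L U V : Subgroup G} (hU : Nml L (U : Set G)) (hV : Nml L (V : Set G)) :
    Nml L ((U ⊔ V : Subgroup G) : Set G) := by
  have e : (U ⊔ V : Subgroup G) = Subgroup.closure ((U : Set G) ∪ V) := by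
    rw [Subgroup.closure_union, Subgroup.closure_eq, Subgroup.closure_eq]
  rw [e]
  apply Nml.closure'
  rintro l hl u (hu | hu)
  · exact Or.inl (hU l hl u hu)
  · exact Or.inr (hV l hl u hu)

theorem Nml.centralizer {L : Subgroup G} {S : Set G} (h : Nml L S) :
    Nml L (Subgroup.centralizer S : Set G) := by
  intro l hl u hu
  have hu' : u ∈ Subgroup.centralizer S := hu
  show l⁻¹ * u * l ∈ Subgroup.centralizer S
  rw [Subgroup.mem_centralizer_iff] at hu' ⊢
  intro s hs
  have h1 := hu' (l * s * l⁻¹) (h.conj' hl hs)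
  calc s * (l⁻¹ * u * l) = l⁻¹ * ((l * s * l⁻¹) * u) * l := by group
    _ = l⁻¹ * (u * (l * s * l⁻¹)) * l := by rw [h1]
    _ = l⁻¹ * u * l * s := by group

theorem Nml.of_left_closure {S : Set G} {U : Subgroup G} (h : ∀ s ∈ S, ∀ u ∈ U, s⁻¹ * u * s ∈ U)
    (h' : ∀ s ∈ S, ∀ u ∈ U, s * u * s⁻¹ ∈ U) : Nml (Subgroup.closure S) (U : Set G) := by
  intro l hl
  induction hl using Subgroup.closure_induction with
  | mem x hx => exact fun u hu => h x hx u hu
  | one => intro u hu; simpa using hu
  | mul x y _ _ ihx ihy =>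
    intro u hu
    have e : (x * y)⁻¹ * u * (x * y) = y⁻¹ * (x⁻¹ * u * x) * y := by group
    rw [e]
    exact ihy _ (ihx _ hu)
  | inv x hx ih =>
    -- need both directions: prove a stronger statement separately
    intro u hu
    have key : ∀ l ∈ Subgroup.closure S, ∀ u ∈ U, l⁻¹ * u * l ∈ U ∧ l * u * l⁻¹ ∈ U := by
      intro l hl
      induction hl using Subgroup.closure_induction with
      | mem x hx => exact fun u hu => ⟨h x hx u hu, h' x hx u hu⟩
      | one => intro u hu; simpa using hu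
      | mul x y _ _ ihx ihy =>
        intro u hu
        refine ⟨?_, ?_⟩
        · have e : (x * y)⁻¹ * u * (x * y) = y⁻¹ * (x⁻¹ * u * x) * y := by group
          rw [e]
          exact (ihy _ (ihx _ hu).1).1
        · have e : (x * y) * u * (x * y)⁻¹ = x * (y * u * y⁻¹) * x⁻¹ := by group
          rw [e]
          exact (ihx _ (ihy _ hu).2).2
      | inv x _ ih =>
        intro u hu
        refine ⟨?_, ?_⟩
        · simpa using (ih u hu).2
        · simpa using (ih u hu).1
    simpa using (key x hx u hu).2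

/-- If `u` commutes modulo `N` with generators then it commutes modulo `N` with everything. -/
theorem cm_mem_closure {S : Set G} {N : Subgroup G}
    (hN : Nml (Subgroup.closure S) (N : Set G)) {u : G}
    (h : ∀ s ∈ S, cm u s ∈ N) : ∀ l ∈ Subgroup.closure S, cm u l ∈ N := by
  intro l hl
  induction hl using Subgroup.closure_induction with
  | mem x hx => exact h x hx
  | one => rw [cm_one_right]; exact N.one_mem
  | mul x y _ hy ihx ihy =>
    have e : cm u (x * y) = cm u y * (y⁻¹ * cm u x * y) := by simp only [cm]; group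
    rw [e]
    exact mul_mem ihy (hN y hy _ ihx)
  | inv x hx ih =>
    have e : cm u x⁻¹ = x * (cm u x)⁻¹ * x⁻¹ := by simp only [cm]; group
    rw [e]
    exact hN.conj' hx (inv_mem ih)

/-- `u` is hypercentral with respect to the set `L`: `u` lies in the transfinite closure of
`{1}` under `(∀ l ∈ L, [u,l] in the closure) → u in the closure`. -/
inductive HCen (L : Set G) : G → Prop
  | one : HCen L 1
  | step (u : G) (h : ∀ l ∈ L, HCen L (cm u l)) : HCen L u

theorem HCen.cm_mem {L : Set G} {u : G} (h : HCen L u) {l : G} (hl : l ∈ L) :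
    HCen L (cm u l) := by
  cases h with
  | one => rw [cm_one_left]; exact HCen.one
  | step _ h => exact h l hl

theorem HCen.mono {L L' : Set G} (hL : L' ⊆ L) {u : G} (h : HCen L u) : HCen L' u := by
  induction h with
  | one => exact HCen.one
  | step u _ ih => exact HCen.step u fun l hl => ih l (hL hl)

/-- The quotient property of hypercentral elements. -/
theorem HCen.mem_of_closed {L : Set G} {D : Set G} {N : Set G} (h1 : (1 : G) ∈ N)
    (hD : ∀ u ∈ D, ∀ l ∈ L, cm u l ∈ D) (hN : ∀ u ∈ D, (∀ l ∈ L, cm u l ∈ N) → u ∈ N)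
    {u : G} (h : HCen L u) (hu : u ∈ D) : u ∈ N := by
  induction h with
  | one => exact h1
  | step u _ ih => exact hN u hu fun l hl => ih l hl (hD u hu l hl)

theorem HCen.conj {L : Subgroup G} {u : G} (h : HCen (L : Set G) u) :
    ∀ g ∈ L, HCen (L : Set G) (g⁻¹ * u * g) := by
  induction h with
  | one => intro g _; simpa using HCen.one
  | step u _ ih =>
    intro g hg
    apply HCen.step
    intro l hl
    have e : cm (g⁻¹ * u * g) l = g⁻¹ * cm u (g * l * g⁻¹) * g := by simp only [cm]; group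
    rw [e]
    exact ih (g * l * g⁻¹) (mul_mem (mul_mem hg hl) (inv_mem hg)) g hg

theorem HCen.mul_aux {L : Subgroup G} {u : G} (h : HCen (L : Set G) u) :
    ∀ g ∈ L, ∀ v ∈ L, HCen (L : Set G) v → HCen (L : Set G) (g⁻¹ * u * g * v) := by
  induction h with
  | one => intro g _ v _ hv; simpa using hv
  | step u _ ih =>
    intro g hg v hv hv'
    apply HCen.step
    intro l hl
    have e : cm (g⁻¹ * u * g * v) l =
        (g * v)⁻¹ * cm u (g * l * g⁻¹) * (g * v) * cm v l := by simp only [cm]; group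
    rw [e]
    refine ih (g * l * g⁻¹) (mul_mem (mul_mem hg hl) (inv_mem hg)) (g * v) (mul_mem hg hv)
      (cm v l) ?_ (hv'.cm_mem hl)
    exact mul_mem (mul_mem (mul_mem (inv_mem hv) (inv_mem hl)) hv) hl

theorem HCen.mul {L : Subgroup G} {u v : G} (hu : HCen (L : Set G) u) (hvL : v ∈ L)
    (hv : HCen (L : Set G) v) : HCen (L : Set G) (u * v) := by
  have := hu.mul_aux 1 L.one_mem v hvL hv
  simpa using this

theorem HCen.inv_aux {L : Subgroup G} {u : G} (h : HCen (L : Set G) u) :
    u ∈ L → ∀ g ∈ L, HCen (L : Set G) (g⁻¹ * u⁻¹ * g) := by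
  induction h with
  | one => intro _ g _; simpa using HCen.one
  | step u _ ih =>
    intro huL g hg
    apply HCen.step
    intro l hl
    have e : cm (g⁻¹ * u⁻¹ * g) l =
        (u⁻¹ * g)⁻¹ * (cm u (g * l * g⁻¹))⁻¹ * (u⁻¹ * g) := by simp only [cm]; group
    rw [e]
    have hl' : g * l * g⁻¹ ∈ L := mul_mem (mul_mem hg hl) (inv_mem hg)
    exact ih (g * l * g⁻¹) hl'
      (mul_mem (mul_mem (mul_mem (inv_mem huL) (inv_mem hl')) huL) hl')
      (u⁻¹ * g) (mul_mem (inv_mem huL) hg)

theorem HCen.inv {L : Subgroup G} {u : G} (hu : u ∈ L) (h : HCen (L : Set G) u) :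
    HCen (L : Set G) u⁻¹ := by
  have := h.inv_aux hu 1 L.one_mem
  simpa using this

/-- The hypercenter of the subgroup `L`. -/
def hyp (L : Subgroup G) : Subgroup G where
  carrier := {u | u ∈ L ∧ HCen (L : Set G) u}
  one_mem' := ⟨L.one_mem, HCen.one⟩
  mul_mem' := fun ha hb => ⟨mul_mem ha.1 hb.1, ha.2.mul hb.1 hb.2⟩
  inv_mem' := fun ha => ⟨inv_mem ha.1, ha.2.inv ha.1⟩

theorem mem_hyp {L : Subgroup G} {u : G} : u ∈ hyp L ↔ u ∈ L ∧ HCen (L : Set G) u := Iff.rfl

theorem hyp_le (L : Subgroup G) : hyp L ≤ L := fun _ h => h.1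

theorem nml_hyp (L : Subgroup G) : Nml L (hyp L : Set G) :=
  fun l hl u hu => ⟨mul_mem (mul_mem (inv_mem hl) hu.1) hl, hu.2.conj l hl⟩

theorem mem_hyp_of_forall {L : Subgroup G} {u : G} (hu : u ∈ L)
    (h : ∀ l ∈ L, cm u l ∈ hyp L) : u ∈ hyp L :=
  ⟨hu, HCen.step u fun l hl => (h l hl).2⟩

/-- A commutation check on generators suffices for membership in the hypercenter. -/
theorem mem_hyp_of_generators {S : Set G} {u : G} (hu : u ∈ Subgroup.closure S)
    (h : ∀ s ∈ S, cm u s ∈ hyp (Subgroup.closure S)) : u ∈ hyp (Subgroup.closure S) :=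
  mem_hyp_of_forall hu (cm_mem_closure (nml_hyp _) h)

end Pool.Agent.Lib.H73
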