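import Pool.Agent.Lib.H73.MC

/-!
Locally nilpotent groups with the minimal condition on centralizers are hypercentral.
-/

set_option autoImplicit false

namespace Pool.Agent.Lib.H73

open Subgroup

variable {G : Type*} [Group G]

/-- The key computation: `[u,[a,l]] = [[u,a],l]` if `[u,L] ⊆ V` and `a` centralizes `V`. -/
theorem cm_cm_eq {L V : Subgroup G} {u a l : G} (hV : Nml L (V : Set G)) (hu : u ∈ L)
    (hua : ∀ l ∈ L, cm u l ∈ V) (ha : a ∈ L) (haV : a ∈ Subgroup.centralizer (V : Set G))
    (hl : l ∈ L) : cm u (cm a l) = cm (cm u a) l := by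
  have hC : Nml L (Subgroup.centralizer (V : Set G) : Set G) := hV.centralizer
  have hv : cm u a ∈ V := hua a ha
  have hvC : cm u a ∈ Subgroup.centralizer (V : Set G) := by
    have e : cm u a = (u⁻¹ * a⁻¹ * u) * a := by simp only [cm]
    rw [e]
    exact mul_mem (hC u hu _ (inv_mem haV)) haV
  have hb : cm u l⁻¹ ∈ V := hua _ (inv_mem hl)
  have haL : l⁻¹ * a * l ∈ Subgroup.centralizer (V : Set G) := hC l hl _ haV
  -- `[u, a⁻¹] = [u,a]⁻¹`
  have h1 : cm u a⁻¹ = (cm u a)⁻¹ := by
    have e : cm u a⁻¹ = a * (cm u a)⁻¹ * a⁻¹ := by simp only [cm]; group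
    rw [e]
    have := Subgroup.mem_centralizer_iff.mp haV _ (inv_mem hv)
    rw [← this]
    group
  -- `[u, a^l] = [u,a]^l`
  have h2 : cm u (l⁻¹ * a * l) = l⁻¹ * cm u a * l := by
    have e : cm u (l⁻¹ * a * l) =
        l⁻¹ * ((cm u l⁻¹)⁻¹ * cm u a * (cm u l⁻¹) * cm (cm u l⁻¹) a) * l := by
      simp only [cm]; group
    rw [e, cm_eq_one_of_centralizer' haV hb, mul_one,
      conj_eq_of_cm (cm_eq_one_of_centralizer hvC hb)]
  have e : cm u (cm a l) = cm u (l⁻¹ * a * l) *
      ((l⁻¹ * a * l)⁻¹ * cm u a⁻¹ * (l⁻¹ * a * l)) := by simp only [cm]; group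
  have h1' : cm u a⁻¹ ∈ V := hua _ (inv_mem ha)
  rw [e, conj_eq_of_cm (cm_eq_one_of_centralizer' haL h1'), h2, h1]
  -- `v^l v⁻¹ = v⁻¹ v^l`
  have hvl : l⁻¹ * cm u a * l ∈ V := hV l hl _ hv
  have h3 := Subgroup.mem_centralizer_iff.mp (inv_mem hvC) _ hvl
  rw [h3]
  simp only [cm]; group

/-- The main lifting lemma. -/
theorem lift_lemma (hMC : MC G) {L U E W : Subgroup G} (hUL : U ≤ L) (hU : Nml L (U : Set G))
    (hUc : ∀ u ∈ U, HCen (L : Set G) u) (hEL : E ≤ L) (hE : Nml L (E : Set G))
    (hWE : ∀ z ∈ E, (∀ l ∈ L, cm z l ∈ W) → z ∈ W)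
    (hcap : E ⊓ Subgroup.centralizer (U : Set G) ≤ W) : E ≤ W := by
  by_contra hcon
  obtain ⟨V0, ⟨hV1, hV2, hV3⟩, hmin⟩ := hMC.exists_min (fun V : Subgroup G => (V : Set G))
    (fun V : Subgroup G => V ≤ U ∧ Nml L (V : Set G) ∧
      ¬ (E ⊓ Subgroup.centralizer (V : Set G) ≤ W))
    ⟨⊥, bot_le, Nml.bot L, by
      intro h
      apply hcon
      intro z hz
      apply h
      refine Subgroup.mem_inf.mpr ⟨hz, ?_⟩
      rw [Subgroup.mem_centralizer_iff]
      intro y hy
      have : y = 1 := by simpa using hy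
      rw [this, one_mul, mul_one]⟩
  set CC : Subgroup G :=
    Subgroup.centralizer (Subgroup.centralizer (V0 : Set G) : Set G) with hCC
  set V : Subgroup G := U ⊓ CC with hVdef
  have hV0V : V0 ≤ V := le_inf hV1 (subset_cc (V0 : Set G))
  have hVn : Nml L (V : Set G) := hU.inf (hV2.centralizer.centralizer)
  have hVC : Subgroup.centralizer (V : Set G) = Subgroup.centralizer (V0 : Set G) := by
    apply le_antisymm (Subgroup.centralizer_le hV0V)
    rw [← centralizer_triple (V0 : Set G)]
    exact Subgroup.centralizer_le (inf_le_right)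
  have hVU : V ≤ U := inf_le_left
  -- a new element
  have hnew : ∃ u ∈ U, u ∉ V ∧ ∀ l ∈ L, cm u l ∈ V := by
    by_contra hno
    push Not at hno
    apply hV3
    rw [← hVC]
    have hUV : U ≤ V := by
      intro u hu
      refine HCen.mem_of_closed (L := (L : Set G)) (D := (U : Set G)) (N := (V : Set G))
        (one_mem V) ?_ ?_ (hUc u hu) hu
      · intro u hu l hl
        exact hU.cm_mem hl hu
      · intro u hu h
        by_contra huV
        obtain ⟨l, hl, hl'⟩ := hno u hu huV
        exact hl' (h l hl)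
    have : V = U := le_antisymm hVU hUV
    rw [this]
    exact hcap
  obtain ⟨u, huU, huV, huL⟩ := hnew
  have huLL : u ∈ L := hUL huU
  -- the centralizer of `V` and `u` meets `E` in `W`
  have hcap2 : ∀ a ∈ E, a ∈ Subgroup.centralizer (V : Set G) → cm u a = 1 → a ∈ W := by
    set V' : Subgroup G := Subgroup.closure (insert u (V : Set G)) with hV'
    have hV'n : Nml L (V' : Set G) := by
      apply Nml.closure
      rintro l hl s (rfl | hs)
      · have e : l⁻¹ * s * l = s * cm s l := by simp only [cm]; group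
        rw [e]
        exact mul_mem (Subgroup.subset_closure (Set.mem_insert _ _))
          (Subgroup.subset_closure (Or.inr (huL l hl)))
      · exact Subgroup.subset_closure (Or.inr (hVn l hl s hs))
    have hV'U : V' ≤ U := by
      rw [hV', Subgroup.closure_le]
      rintro s (rfl | hs)
      · exact huU
      · exact hVU hs
    have hVV' : V ≤ V' := fun v hv => Subgroup.subset_closure (Or.inr hv)
    have hle : E ⊓ Subgroup.centralizer (V' : Set G) ≤ W := by
      by_contra hnot
      have h1 := hmin V' ⟨hV'U, hV'n, hnot⟩ (by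
        rw [← hVC]; exact Subgroup.centralizer_le hVV')
      apply huV
      refine ⟨huU, ?_⟩
      have h1' : Subgroup.centralizer (V' : Set G) = Subgroup.centralizer (V0 : Set G) := h1
      rw [hCC, ← h1']
      exact subset_cc (V' : Set G) (Subgroup.subset_closure (Set.mem_insert _ _))
    intro a ha haV hua
    apply hle
    refine ⟨ha, ?_⟩
    rw [hV', SetLike.mem_coe, Subgroup.centralizer_closure]
    apply mem_centralizer_of_cm'
    rintro y (rfl | hy)
    · exact hua
    · exact cm_eq_one_of_centralizer' haV hy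
  -- induction on the value of `[u,a]`
  have key : ∀ v, HCen (L : Set G) v → ∀ a ∈ E, a ∈ Subgroup.centralizer (V : Set G) →
      cm u a = v → a ∈ W := by
    intro v hv
    induction hv with
    | one => exact hcap2
    | step v _ ih =>
      intro a ha haV hav
      apply hWE a ha
      intro l hl
      apply ih l hl (cm a l) (hE.cm_mem hl ha) (hVn.centralizer.cm_mem hl haV)
      rw [cm_cm_eq hVn huLL huL (hEL ha) haV hl, hav]
  apply hV3
  rw [← hVC]
  rintro a ⟨ha, haV⟩
  exact key (cm u a) (hUc _ (hVU (huL a (hEL ha)))) a ha haV rfl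


section step

variable {L D U : Subgroup G}

/-- Case (ii) of the main step. -/
theorem hc_closed (hMC : MC G) (hLN : LN (⊤ : Subgroup G)) {S : Set G}
    (hDS : D = Subgroup.centralizer S)
    (hDL : D ≤ L) (hD : Nml L (D : Set G))
    (hUD : U ≤ D) (hU : Nml L (U : Set G)) (hUc : ∀ u ∈ U, HCen (L : Set G) u)
    (hU3 : ∀ z ∈ D, (∀ l ∈ L, cm z l ∈ U) → z ∈ U)
    (hU4 : ∀ S' : Set G, Subgroup.centralizer S' ≤ D → Subgroup.centralizer S' ≠ D →
      Nml L (Subgroup.centralizer S' : Set G) → Subgroup.centralizer S' ≤ U)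
    (hne : ¬ D ≤ U) (hDU : D ≤ Subgroup.centralizer (U : Set G)) :
    D ⊓ Subgroup.centralizer ((L ⊓ Subgroup.centralizer (U : Set G) : Subgroup G) : Set G) ≤ U := by
  set G1 : Subgroup G := L ⊓ Subgroup.centralizer (U : Set G) with hG1
  have hG1n : Nml L (G1 : Set G) := (Nml.self L).inf hU.centralizer
  have hcen : D ⊓ Subgroup.centralizer (G1 : Set G) = Subgroup.centralizer (S ∪ (G1 : Set G)) := by
    rw [centralizer_union', hDS]
  by_contra hcon
  have hn : Nml L ((D ⊓ Subgroup.centralizer (G1 : Set G) : Subgroup G) : Set G) :=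
    hD.inf hG1n.centralizer
  have hDG1 : D ≤ Subgroup.centralizer (G1 : Set G) := by
    by_contra hno
    apply hcon
    rw [hcen]
    apply hU4
    · rw [← hcen]; exact inf_le_left
    · rw [← hcen]
      intro h
      exact hno (h ▸ inf_le_right)
    · rw [← hcen]; exact hn
  -- `G1` centralizes `D`
  have hG1C : G1 ≤ Subgroup.centralizer (D : Set G) := by
    intro g hg
    apply mem_centralizer_of_cm'
    intro d hd
    exact cm_eq_one_of_centralizer (hDG1 hd) hg
  have hDab : D ≤ Subgroup.centralizer (D : Set G) := fun d hd => hG1C ⟨hDL hd, hDU hd⟩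
  -- there is `g ∈ L`, not centralizing `D`, central modulo `C(D)`
  have hg : ∃ g ∈ L, g ∉ Subgroup.centralizer (D : Set G) ∧
      ∀ l ∈ L, cm g l ∈ Subgroup.centralizer (D : Set G) := by
    by_contra hno
    push Not at hno
    have hLC : L ≤ Subgroup.centralizer (D : Set G) := by
      apply lift_lemma hMC (hUD.trans hDL) hU hUc (le_refl L) (Nml.self L)
      · intro z hz h
        by_contra hzC
        obtain ⟨l, hl, hl'⟩ := hno z hz hzC
        exact hl' (h l hl)
      · exact hG1C
    apply hne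
    intro z hz
    apply hU3 z hz
    intro l hl
    rw [cm_eq_one_of_centralizer' (hLC hl) hz]
    exact one_mem _
  obtain ⟨g, hgL, hgC, hgl⟩ := hg
  -- the centralizer of `g` in `D` is contained in `U`
  have hDg : ∀ a ∈ D, cm a g = 1 → a ∈ U := by
    have hcen2 : D ⊓ Subgroup.centralizer {g} = Subgroup.centralizer (S ∪ {g}) := by
      rw [centralizer_union', hDS]
    have hle : Subgroup.centralizer (S ∪ {g}) ≤ U := by
      apply hU4
      · rw [← hcen2]; exact inf_le_left
      · rw [← hcen2]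
        intro h
        apply hgC
        apply mem_centralizer_of_cm'
        intro d hd
        have : d ∈ D ⊓ Subgroup.centralizer {g} := by rw [h]; exact hd
        exact cm_eq_one_of_centralizer this.2 rfl
      · rw [← hcen2]
        intro l hl a ha
        refine Subgroup.mem_inf.mpr ⟨hD l hl a ha.1, ?_⟩
        apply mem_centralizer_of_cm
        intro y hy
        rw [Set.mem_singleton_iff.mp hy]
        have h1 : cm a g = 1 := cm_eq_one_of_centralizer ha.2 rfl
        have h2 : cm a (cm g l⁻¹) = 1 :=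
          cm_eq_one_of_centralizer' (hgl _ (inv_mem hl)) ha.1
        have e : cm (l⁻¹ * a * l) g =
            l⁻¹ * (cm a (cm g l⁻¹) * ((cm g l⁻¹)⁻¹ * cm a g * (cm g l⁻¹))) * l := by
          simp only [cm]; group
        rw [e, h1, h2]; group
    intro a ha hag
    apply hle
    rw [← hcen2]
    refine Subgroup.mem_inf.mpr ⟨ha, ?_⟩
    apply mem_centralizer_of_cm
    intro y hy
    rw [Set.mem_singleton_iff.mp hy]
    exact hag
  -- lifting through `a ↦ [a,g]`
  have key : ∀ v, HCen (L : Set G) v → ∀ a ∈ D, cm a g = v → a ∈ U := by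
    intro v hv
    induction hv with
    | one => exact hDg
    | step v _ ih =>
      intro a ha hav
      apply hU3 a ha
      intro l hl
      apply ih l hl (cm a l) (hD.cm_mem hl ha)
      rw [← hav]
      -- `[[a,l],g] = [[a,g],l]`
      have hagD : cm a g ∈ D := hD.cm_mem hgL ha
      have h1 : cm a⁻¹ g = (cm a g)⁻¹ := by
        have e : cm a⁻¹ g = a * (cm a g)⁻¹ * a⁻¹ := by simp only [cm]; group
        rw [e]
        have := Subgroup.mem_centralizer_iff.mp (hDab ha) _ (inv_mem hagD)
        rw [← this]; group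
      have h2 : cm (l⁻¹ * a * l) g = l⁻¹ * cm a g * l := by
        have hc : cm g l⁻¹ ∈ Subgroup.centralizer (D : Set G) := hgl _ (inv_mem hl)
        have e : cm (l⁻¹ * a * l) g =
            l⁻¹ * (cm a (cm g l⁻¹) * ((cm g l⁻¹)⁻¹ * cm a g * (cm g l⁻¹))) * l := by
          simp only [cm]; group
        rw [e, cm_eq_one_of_centralizer' hc ha, one_mul,
          conj_eq_of_cm (cm_eq_one_of_centralizer' hc hagD)]
      have hal : l⁻¹ * a * l ∈ D := hD l hl a ha
      have e : cm (cm a l) g = ((l⁻¹ * a * l)⁻¹ * cm a⁻¹ g * (l⁻¹ * a * l)) *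
          cm (l⁻¹ * a * l) g := by simp only [cm]; group
      have hx : cm (cm a⁻¹ g) (l⁻¹ * a * l) = 1 := by
        rw [h1]
        exact cm_eq_one_of_centralizer (hDab (inv_mem hagD)) hal
      rw [e, conj_eq_of_cm hx, h1, h2]
      simp only [cm]; group
  apply hne
  intro a ha
  refine HCen.mem_of_closed (L := {g}) (D := (D : Set G)) (N := (U : Set G)) (one_mem U) ?_ ?_
    (hLN.hcen' (Set.finite_singleton g) (fun _ _ => trivial) (v := a) trivial) ha
  · intro u hu l hl
    rw [Set.mem_singleton_iff.mp hl]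
    exact hD.cm_mem hgL hu
  · intro u hu h
    exact key (cm u g) (hUc _ (h g rfl)) u hu rfl


/-- Step (iii): a finite set `F2 ⊆ G1` detecting `[a,G1] ⊆ U`. -/
theorem hc_finite (hMC : MC G) {G1 : Subgroup G}
    (hDG1 : Nml G1 (D : Set G)) (hUD : U ≤ D) (hDU : Nml D (U : Set G))
    (hG1U : G1 ≤ Subgroup.centralizer (U : Set G))
    (hcl : D ⊓ Subgroup.centralizer (G1 : Set G) ≤ U) :
    ∃ F2 : Set G, F2.Finite ∧ F2 ⊆ (G1 : Set G) ∧
      ∀ a ∈ D, (∀ f ∈ F2, cm a f ∈ U) → ∀ g ∈ G1, cm a g ∈ U := by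
  obtain ⟨F1, hF1, hF1G, hF1C⟩ := hMC.exists_finite (G1 : Set G)
  obtain ⟨F2, ⟨h1, h2, h3⟩, hmin⟩ := hMC.exists_min
    (fun F : Set G => Set.image2 (fun s t => cm s t⁻¹) F F1)
    (fun F => F.Finite ∧ F1 ⊆ F ∧ F ⊆ (G1 : Set G)) ⟨F1, hF1, le_refl _, hF1G⟩
  refine ⟨F2, h1, h3, fun a ha hF2 g hg => ?_⟩
  have hGU : Nml G1 (U : Set G) := by
    intro g hg u hu
    rw [conj_eq_of_cm (cm_eq_one_of_centralizer' (hG1U hg) hu)]
    exact hu
  -- the third Hall-Witt term vanishes
  have third : ∀ t ∈ F1, ∀ s ∈ G1, cm (cm t a⁻¹) s = 1 := by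
    intro t ht s hs
    have e : cm t a⁻¹ = a * cm a t * a⁻¹ := by simp only [cm]; group
    rw [e]
    exact cm_eq_one_of_centralizer' (hG1U hs) (hDU.conj' ha (hF2 t (h2 ht)))
  have haQ : a ∈ Subgroup.centralizer (Set.image2 (fun s t => cm s t⁻¹) F2 F1) := by
    apply mem_centralizer_of_cm'
    rintro _ ⟨s, hs, t, ht, rfl⟩
    rw [← hall_witt (third t ht s (h3 hs))]
    have hu : cm a s⁻¹ ∈ U := cm_inv_right_mem (fun u hu => hGU.conj' (h3 hs) hu) (hF2 s hs)
    exact cm_eq_one_of_centralizer' (hG1U (hF1G ht)) hu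
  have heq := hmin (insert g F2) ⟨h1.insert g, h2.trans (Set.subset_insert _ _), by
    rintro x (rfl | hx)
    · exact hg
    · exact h3 hx⟩ (Subgroup.centralizer_le (Set.image2_subset_right (Set.subset_insert _ _)))
  have haQ' : a ∈ Subgroup.centralizer
      (Set.image2 (fun s t => cm s t⁻¹) (insert g F2) F1) := by
    have : a ∈ Subgroup.centralizer (Set.image2 (fun s t => cm s t⁻¹) F2 F1) := haQ
    rw [← heq] at this
    exact this
  have h5 : cm a g⁻¹ ∈ U := by
    apply hcl
    refine Subgroup.mem_inf.mpr ⟨hDG1.cm_mem (inv_mem hg) ha, ?_⟩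
    rw [← hF1C]
    apply mem_centralizer_of_cm
    intro t ht
    rw [hall_witt (third t ht g hg)]
    exact cm_eq_one_of_centralizer' haQ' ⟨g, Set.mem_insert _ _, t, ht, rfl⟩
  exact cm_inv_right_mem' (fun u hu => hGU g hg u hu) h5

/-- The main step for hypercentrality. -/
theorem hc_main (hMC : MC G) (hLN : LN (⊤ : Subgroup G)) {S : Set G}
    (hDS : D = Subgroup.centralizer S)
    (hDL : D ≤ L) (hCL : Subgroup.centralizer (D : Set G) ≤ L) (hD : Nml L (D : Set G))
    (hUD : U ≤ D) (hU : Nml L (U : Set G)) (hUc : ∀ u ∈ U, HCen (L : Set G) u)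
    (hU3 : ∀ z ∈ D, (∀ l ∈ L, cm z l ∈ U) → z ∈ U)
    (hU4 : ∀ S' : Set G, Subgroup.centralizer S' ≤ D → Subgroup.centralizer S' ≠ D →
      Nml L (Subgroup.centralizer S' : Set G) → Subgroup.centralizer S' ≤ U) : D ≤ U := by
  by_contra hne
  -- (i)
  have hDU : D ≤ Subgroup.centralizer (U : Set G) := by
    by_contra hno
    apply hne
    apply lift_lemma hMC (hUD.trans hDL) hU hUc hDL hD hU3
    have hcen : D ⊓ Subgroup.centralizer (U : Set G) =
        Subgroup.centralizer (S ∪ (U : Set G)) := by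
      rw [centralizer_union', hDS]
    rw [hcen]
    apply hU4
    · rw [← hcen]; exact inf_le_left
    · rw [← hcen]
      intro h
      exact hno (h ▸ inf_le_right)
    · rw [← hcen]; exact hD.inf hU.centralizer
  have hclosed := hc_closed hMC hLN hDS hDL hD hUD hU hUc hU3 hU4 hne hDU
  set G1 : Subgroup G := L ⊓ Subgroup.centralizer (U : Set G) with hG1
  have hG1L : G1 ≤ L := inf_le_left
  have hG1U : G1 ≤ Subgroup.centralizer (U : Set G) := inf_le_right
  have hG1n : Nml L (G1 : Set G) := (Nml.self L).inf hU.centralizer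
  set C : Subgroup G := Subgroup.centralizer (D : Set G) with hC
  have hCn : Nml L (C : Set G) := hD.centralizer
  have hCG1 : C ≤ G1 := le_inf hCL (Subgroup.centralizer_le hUD)
  have hG1C : ¬ G1 ≤ C := by
    intro h
    apply hne
    intro d hd
    apply hclosed
    refine Subgroup.mem_inf.mpr ⟨hd, ?_⟩
    apply mem_centralizer_of_cm
    intro g hg
    exact cm_eq_one_of_centralizer' (h hg) hd
  -- (iii)
  obtain ⟨F2, hF2, hF2G, hF2U⟩ := hc_finite hMC (hD.mono hG1L) hUD (hU.mono hDL) hG1U hclosed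
  -- (iv)
  set GK : Set G → Subgroup G := fun K => cmod G1 K C (hCn.mono hG1L) with hGK
  have hGKanti : ∀ K K' : Set G, K ⊆ K' → GK K' ≤ GK K :=
    fun K K' h z hz => ⟨hz.1, fun s hs => hz.2 s (h hs)⟩
  obtain ⟨K2, ⟨hK2, hK2L⟩, hmax⟩ := hMC.exists_max (fun K : Set G => (GK K : Set G))
    (fun K => K.Finite ∧ K ⊆ (L : Set G)) ⟨∅, Set.finite_empty, Set.empty_subset _⟩
  have hmax' : ∀ K : Set G, K.Finite → K ⊆ (L : Set G) → K2 ⊆ K →
      Subgroup.centralizer (GK K : Set G) = Subgroup.centralizer (GK K2 : Set G) :=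
    fun K hK hKL hK2K => hmax K ⟨hK, hKL⟩ (Subgroup.centralizer_le (hGKanti _ _ hK2K))
  have hA : D ⊓ Subgroup.centralizer (GK K2 : Set G) ≤ U := by
    have hcen : D ⊓ Subgroup.centralizer (GK K2 : Set G) =
        Subgroup.centralizer (S ∪ (GK K2 : Set G)) := by
      rw [centralizer_union', hDS]
    rw [hcen]
    apply hU4
    · rw [← hcen]; exact inf_le_left
    · rw [← hcen]
      intro h
      have hGC : GK K2 ≤ C := by
        intro g hg
        apply mem_centralizer_of_cm'
        intro d hd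
        have hd' : d ∈ D ⊓ Subgroup.centralizer (GK K2 : Set G) := by rw [h]; exact hd
        exact cm_eq_one_of_centralizer hd'.2 hg
      obtain ⟨g, hg, hgC, hgK⟩ := LN_fix hLN hK2 (V := G1) (W := C)
        (fun v hv k hk => hG1n.cm_mem (hK2L hk) hv) hG1C
      exact hgC (hGC ⟨hg, hgK⟩)
    · rw [← hcen]
      intro l hl a ha
      refine Subgroup.mem_inf.mpr ⟨hD l hl a ha.1, ?_⟩
      have h1 := hmax' (insert l K2) (hK2.insert l) (by
        rintro x (rfl | hx)
        · exact hl
        · exact hK2L hx) (Set.subset_insert _ _)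
      rw [← h1]
      have ha2 : a ∈ Subgroup.centralizer (GK K2 : Set G) := ha.2
      rw [← h1] at ha2
      apply mem_centralizer_of_cm
      intro g hg
      -- `l g l⁻¹ ∈ G_K`
      have hg' : l * g * l⁻¹ ∈ GK (insert l K2) := by
        have e : l * g * l⁻¹ = g * cm g l⁻¹ := by simp only [cm]; group
        rw [e]
        apply mul_mem hg
        have hc : cm g l⁻¹ ∈ C :=
          cm_inv_right_mem (fun u hu => hCn.conj' hl hu) (hg.2 l (Set.mem_insert _ _))
        refine ⟨hCG1 hc, ?_⟩
        rintro k hk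
        have hkL : k ∈ L := by
          rcases hk with rfl | hk
          · exact hl
          · exact hK2L hk
        exact hCn.cm_mem hkL hc
      have h2 := cm_eq_one_of_centralizer ha2 hg'
      have e : cm (l⁻¹ * a * l) g = l⁻¹ * cm a (l * g * l⁻¹) * l := by
        simp only [cm]; group
      rw [e, h2]; group
  obtain ⟨K0, hK0, hK0L, hK0C⟩ := hMC.exists_finite (L : Set G)
  set K : Set G := K0 ∪ K2 ∪ F2 with hK
  have hKfin : K.Finite := (hK0.union hK2).union hF2
  have hKL : K ⊆ (L : Set G) :=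
    Set.union_subset (Set.union_subset hK0L hK2L) (fun x hx => hG1L (hF2G hx))
  have hK2K : K2 ⊆ K := fun x hx => Or.inl (Or.inr hx)
  have hA' : D ⊓ Subgroup.centralizer (GK K : Set G) ≤ U := by
    rw [hmax' K hKfin hKL hK2K]
    exact hA
  obtain ⟨K', ⟨h1, h2, h3⟩, hmin⟩ := hMC.exists_min
    (fun K' : Set G => Set.image2 (fun s t => cm s t⁻¹) K' (GK K : Set G))
    (fun K' => K'.Finite ∧ K ⊆ K' ∧ K' ⊆ (L : Set G)) ⟨K, hKfin, le_refl _, hKL⟩
  obtain ⟨a, haD, haU, haK⟩ := LN_fix hLN h1 (V := D) (W := U)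
    (fun v hv k hk => hD.cm_mem (h3 hk) hv) hne
  apply haU
  apply hU3 a haD
  intro l hl
  -- `[a,g]` is central in `L` for `g ∈ G_K`
  have hag : ∀ g ∈ GK K, cm a g ∈ U ∧ cm a g ∈ Subgroup.centralizer (L : Set G) := by
    intro g hg
    have hgU : cm a g ∈ U :=
      hF2U a haD (fun f hf => haK f (h2 (Or.inr hf))) g hg.1
    refine ⟨hgU, ?_⟩
    rw [← hK0C]
    apply mem_centralizer_of_cm
    intro s hs
    have hsK : s ∈ K := Or.inl (Or.inl hs)
    have hsL : s ∈ L := hK0L hs
    have hu : cm a s ∈ U := haK s (h2 hsK)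
    have hc : cm g s ∈ C := hg.2 s hsK
    have hgD : cm a g ∈ D := hUD hgU
    have x1 : cm (a * cm a s) (cm g s) = 1 :=
      cm_eq_one_of_centralizer' hc (mul_mem haD (hUD hu))
    have x2 : cm (cm a s) g = 1 := cm_eq_one_of_centralizer' (hG1U hg.1) hu
    have x3 : cm (cm a g) (cm a s) = 1 := cm_eq_one_of_centralizer (hDU hgD) hu
    have x4 : cm (cm a g) (cm g s) = 1 := cm_eq_one_of_centralizer' hc hgD
    have e : s⁻¹ * cm a g * s = cm (a * cm a s) (cm g s) *
        ((cm g s)⁻¹ * (((cm a s)⁻¹ * cm a g * cm a s) * cm (cm a s) g) * cm g s) := by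
      simp only [cm]; group
    have e2 : s⁻¹ * cm a g * s = cm a g := by
      rw [e, x1, x2, conj_eq_of_cm x3, one_mul, mul_one, conj_eq_of_cm x4]
    have e3 : cm (cm a g) s = (cm a g)⁻¹ * (s⁻¹ * cm a g * s) := by simp only [cm]; group
    rw [e3, e2, inv_mul_cancel]
  have third : ∀ g ∈ GK K, ∀ s ∈ L, cm (cm g a⁻¹) s = 1 := by
    intro g hg s hs
    have e : cm g a⁻¹ = a * cm a g * a⁻¹ := by simp only [cm]; group
    have x : a * cm a g * a⁻¹ = cm a g := by
      have := cm_eq_one_of_centralizer (hDU (inv_mem haD)) (hag g hg).1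
      have y := conj_eq_of_cm (cm_comm_one this)
      simpa using y
    rw [e, x]
    exact cm_eq_one_of_centralizer (hag g hg).2 hs
  have haQ : a ∈ Subgroup.centralizer
      (Set.image2 (fun s t => cm s t⁻¹) K' (GK K : Set G)) := by
    apply mem_centralizer_of_cm'
    rintro _ ⟨s, hs, t, ht, rfl⟩
    rw [← hall_witt (third t ht s (h3 hs))]
    have hu : cm a s⁻¹ ∈ U := cm_inv_right_mem (fun u hu => hU.conj' (h3 hs) hu) (haK s hs)
    exact cm_eq_one_of_centralizer' (hG1U ht.1) hu
  have heq := hmin (insert l K') ⟨h1.insert l, h2.trans (Set.subset_insert _ _), by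
    rintro x (rfl | hx)
    · exact hl
    · exact h3 hx⟩ (Subgroup.centralizer_le (Set.image2_subset_right (Set.subset_insert _ _)))
  have haQ' : a ∈ Subgroup.centralizer
      (Set.image2 (fun s t => cm s t⁻¹) (insert l K') (GK K : Set G)) := by
    have : a ∈ Subgroup.centralizer
      (Set.image2 (fun s t => cm s t⁻¹) K' (GK K : Set G)) := haQ
    rw [← heq] at this
    exact this
  have h5 : cm a l⁻¹ ∈ U := by
    apply hA'
    refine Subgroup.mem_inf.mpr ⟨hD.cm_mem (inv_mem hl) haD, ?_⟩
    apply mem_centralizer_of_cm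
    intro t ht
    rw [hall_witt (third t ht l hl)]
    exact cm_eq_one_of_centralizer' haQ' ⟨l, Set.mem_insert _ _, t, ht, rfl⟩
  exact cm_inv_right_mem' (fun u hu => hU l hl u hu) h5

end step

/-- In a locally nilpotent group with the minimal condition on centralizers, every element is
hypercentral. -/
theorem hcen_of_LN_top (hMC : MC G) (hLN : LN (⊤ : Subgroup G)) (u : G) :
    HCen (Set.univ : Set G) u := by
  have key : ∀ S : Set G, ∀ z ∈ Subgroup.centralizer S,
      HCen (Subgroup.normalizer (Subgroup.centralizer S : Set G) : Set G) z := by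
    by_contra hcon
    push Not at hcon
    obtain ⟨S, hS, hmin⟩ := hMC.exists_min (fun S : Set G => S)
      (fun S => ∃ z ∈ Subgroup.centralizer S,
        ¬ HCen (Subgroup.normalizer (Subgroup.centralizer S : Set G) : Set G) z) hcon
    set D := Subgroup.centralizer S with hDS
    set L := Subgroup.normalizer (D : Set G) with hL
    have hDL : D ≤ L := Subgroup.le_normalizer
    have hD : Nml L (D : Set G) := by
      intro l hl u hu
      have h1 := (Subgroup.mem_normalizer_iff.mp (inv_mem hl) u).mp hu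
      simpa using h1
    have hnorm : ∀ S' : Set G, Nml L (Subgroup.centralizer S' : Set G) →
        L ≤ Subgroup.normalizer (Subgroup.centralizer S' : Set G) := by
      intro S' h
      rw [Subgroup.le_normalizer_iff]
      intro l hl k hk
      exact h.conj' hl hk
    obtain ⟨z, hz, hz'⟩ := hS
    have hle : D ≤ D ⊓ hyp L := by
      apply hc_main hMC hLN hDS hDL
      · intro c hc
        exact Subgroup.centralizer_le_normalizer _ hc
      · exact hD
      · exact inf_le_left
      · exact hD.inf (nml_hyp L)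
      · intro u hu
        exact hu.2.2
      · intro z hz h
        refine Subgroup.mem_inf.mpr ⟨hz, mem_hyp_of_forall (hDL hz) fun l hl => (h l hl).2⟩
      · intro S' h1 h2 h3 x hx
        refine Subgroup.mem_inf.mpr ⟨h1 hx, hDL (h1 hx), ?_⟩
        have h4 : HCen (Subgroup.normalizer (Subgroup.centralizer S' : Set G) : Set G) x := by
          by_contra hno
          exact h2 (hmin S' ⟨x, hx, hno⟩ h1)
        exact h4.mono (hnorm S' h3)
    exact hz' (hle hz).2.2
  have h1 := key ∅ u (by
    rw [Subgroup.mem_centralizer_iff]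
    intro h hh
    exact absurd hh (Set.notMem_empty h))
  apply h1.mono
  intro x _
  have : Subgroup.centralizer (∅ : Set G) = ⊤ := by
    rw [eq_top_iff]
    intro y _
    rw [Subgroup.mem_centralizer_iff]
    intro h hh
    exact absurd hh (Set.notMem_empty h)
  rw [this]
  show x ∈ Subgroup.normalizer ((⊤ : Subgroup G) : Set G)
  rw [Subgroup.normalizer_eq_top]
  trivial

end Pool.Agent.Lib.H73
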