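import Pool.Agent.Lib.H73.LN

/-!
The Hirsch-Plotkin theorem and the extension of a locally nilpotent group by an element acting
in an Engel fashion (a consequence of Hall's nilpotency criterion).
-/

set_option autoImplicit false

namespace Pool.Agent.Lib.H73

open Subgroup

variable {G : Type*} [Group G]

/-- Elements of `D` commuting with all elements of `S` modulo `N`. -/
def cmod (D : Subgroup G) (S : Set G) (N : Subgroup G) (h : Nml D (N : Set G)) : Subgroup G where
  carrier := {z | z ∈ D ∧ ∀ s ∈ S, cm z s ∈ N}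
  one_mem' := ⟨D.one_mem, fun s _ => by rw [cm_one_left]; exact N.one_mem⟩
  mul_mem' := by
    rintro a b ⟨ha, ha'⟩ ⟨hb, hb'⟩
    refine ⟨mul_mem ha hb, fun s hs => ?_⟩
    have e : cm (a * b) s = (b⁻¹ * cm a s * b) * cm b s := by simp only [cm]; group
    rw [e]
    exact mul_mem (h b hb _ (ha' s hs)) (hb' s hs)
  inv_mem' := by
    rintro a ⟨ha, ha'⟩
    refine ⟨inv_mem ha, fun s hs => ?_⟩
    have e : cm a⁻¹ s = a * (cm a s)⁻¹ * a⁻¹ := by simp only [cm]; group
    rw [e]
    exact h.conj' ha (inv_mem (ha' s hs))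

theorem mem_cmod {D : Subgroup G} {S : Set G} {N : Subgroup G} {h : Nml D (N : Set G)} {z : G} :
    z ∈ cmod D S N h ↔ z ∈ D ∧ ∀ s ∈ S, cm z s ∈ N := Iff.rfl

theorem nml_cmod {L D : Subgroup G} {S : Set G} {N : Subgroup G} {h : Nml D (N : Set G)}
    (hD : Nml L (D : Set G)) (hS : Nml L S) (hN : Nml L (N : Set G)) :
    Nml L (cmod D S N h : Set G) := by
  rintro l hl z ⟨hz, hz'⟩
  refine ⟨hD l hl z hz, fun s hs => ?_⟩
  have e : cm (l⁻¹ * z * l) s = l⁻¹ * cm z (l * s * l⁻¹) * l := by simp only [cm]; group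
  rw [e]
  exact hN l hl _ (hz' _ (hS.conj' hl hs))

/-- Fitting's theorem in the language of hypercenters. -/
theorem fitting_aux {H U V : Subgroup G} {S : Set G} (hH : H = Subgroup.closure S)
    (hS : ∀ s ∈ S, s ∈ U ∨ s ∈ V) (hUH : U ≤ H) (hVH : V ≤ H)
    (hU : Nml H (U : Set G)) (hV : Nml H (V : Set G))
    (hU' : ∀ u ∈ U, HCen (U : Set G) u) (hV' : ∀ u ∈ V, HCen (V : Set G) u) :
    U ≤ hyp H := by
  have hN := nml_hyp H
  have hDH : U ⊓ V ≤ H := inf_le_left.trans hUH
  have hDN : Nml (U ⊓ V) (hyp H : Set G) := hN.mono hDH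
  -- first step: `U ⊓ V ≤ hyp H`
  have step1 : ∀ z ∈ cmod (U ⊓ V) (U : Set G) (hyp H) hDN, z ∈ hyp H := by
    intro z hz
    have hz1 : z ∈ V := hz.1.2
    refine HCen.mem_of_closed (L := (V : Set G))
      (D := (cmod (U ⊓ V) (U : Set G) (hyp H) hDN : Set G)) (N := (hyp H : Set G))
      (one_mem (hyp H)) ?_ ?_ (hV' z hz1) hz
    · intro u hu l hl
      have hn : Nml H (cmod (U ⊓ V) (U : Set G) (hyp H) hDN : Set G) :=
        nml_cmod (hU.inf hV) hU hN
      exact hn.cm_mem (hVH hl) hu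
    · intro u hu hl
      have huH : u ∈ H := hDH hu.1
      rw [hH] at huH ⊢
      apply mem_hyp_of_generators huH
      intro s hs
      rw [← hH]
      rcases hS s hs with h | h
      · exact hu.2 s h
      · exact hl s h
  have step2 : ∀ z ∈ U ⊓ V, z ∈ hyp H := by
    intro z hz
    refine HCen.mem_of_closed (L := (U : Set G))
      (D := ((U ⊓ V : Subgroup G) : Set G)) (N := (hyp H : Set G))
      (one_mem (hyp H)) ?_ ?_ (hU' z hz.1) hz
    · intro u hu l hl
      exact (hU.inf hV).cm_mem (hUH hl) hu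
    · intro u hu hl
      exact step1 u ⟨hu, hl⟩
  intro z hz
  refine HCen.mem_of_closed (L := (U : Set G))
      (D := (U : Set G)) (N := (hyp H : Set G))
      (one_mem (hyp H)) ?_ ?_ (hU' z hz) hz
  · intro u hu l hl
    exact hU.cm_mem (hUH hl) hu
  · intro u hu hl
    have huH : u ∈ H := hUH hu
    rw [hH] at huH ⊢
    apply mem_hyp_of_generators huH
    intro s hs
    rw [← hH]
    rcases hS s hs with h | h
    · exact hl s h
    · apply step2
      exact ⟨hU.cm_mem (hVH h) hu, hV.cm_mem' (hUH hu) h⟩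

/-- A finite set of elements which are hypercentral for a finite set `Z` is contained in a finite
set whose closure is stable under commutation with `Z`. -/
theorem exists_finite_stable {Z : Set G} (hZ : Z.Finite) {u : G} (hu : HCen Z u) :
    ∃ W : Set G, W.Finite ∧ u ∈ W ∧ (∀ w ∈ W, ∀ z ∈ Z, cm w z ∈ Subgroup.closure W) ∧
      ∀ K : Subgroup G, u ∈ K → (∀ k ∈ K, ∀ z ∈ Z, cm k z ∈ K) → W ⊆ (K : Set G) := by
  induction hu with
  | one =>
    refine ⟨{1}, Set.finite_singleton 1, rfl, ?_, ?_⟩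
    · rintro w rfl z _
      rw [cm_one_left]; exact one_mem _
    · rintro K hK _ w rfl
      exact hK
  | step u _ ih =>
    choose! W hW1 hW2 hW3 hW4 using ih
    refine ⟨insert u (⋃ z ∈ Z, W z), (hZ.biUnion hW1).insert u, Set.mem_insert _ _, ?_, ?_⟩
    · rintro w (rfl | hw) z hz
      · apply Subgroup.subset_closure
        apply Set.mem_insert_of_mem
        exact Set.mem_biUnion hz (hW2 z hz)
      · simp only [Set.mem_iUnion] at hw
        obtain ⟨z', hz', hw⟩ := hw
        refine Subgroup.closure_mono ?_ (hW3 z' hz' w hw z hz)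
        exact (Set.subset_biUnion_of_mem (u := fun z => W z) hz').trans (Set.subset_insert _ _)
    · intro K huK hK w hw
      rcases hw with rfl | hw
      · exact huK
      · simp only [Set.mem_iUnion] at hw
        obtain ⟨z', hz', hw⟩ := hw
        exact hW4 z' hz' K (hK u huK z' hz') hK hw

theorem exists_finite_stable_set {Z C : Set G} (hZ : Z.Finite) (hC : C.Finite)
    (h : ∀ c ∈ C, HCen Z c) :
    ∃ W : Set G, W.Finite ∧ C ⊆ W ∧ (∀ w ∈ W, ∀ z ∈ Z, cm w z ∈ Subgroup.closure W) ∧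
      ∀ K : Subgroup G, C ⊆ (K : Set G) → (∀ k ∈ K, ∀ z ∈ Z, cm k z ∈ K) → W ⊆ (K : Set G) := by
  have h' : ∀ c ∈ C, _ := fun c hc => exists_finite_stable hZ (h c hc)
  choose! W hW1 hW2 hW3 hW4 using h'
  refine ⟨⋃ c ∈ C, W c, hC.biUnion hW1, ?_, ?_, ?_⟩
  · intro c hc
    exact Set.mem_biUnion hc (hW2 c hc)
  · intro w hw z hz
    simp only [Set.mem_iUnion] at hw
    obtain ⟨c, hc, hw⟩ := hw
    exact Subgroup.closure_mono (Set.subset_biUnion_of_mem (u := fun z => W z) hc)
      (hW3 c hc w hw z hz)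
  · intro K hCK hK w hw
    simp only [Set.mem_iUnion] at hw
    obtain ⟨c, hc, hw⟩ := hw
    exact hW4 c hc K (hCK hc) hK hw

/-- If `cm w z ∈ closure W` for `z` in the symmetric set `Z ∪ Z⁻¹` then `closure Z` normalizes
`closure W`. -/
theorem nml_closure_of_cm {Z W : Set G}
    (h : ∀ w ∈ W, ∀ z ∈ Z, cm w z ∈ Subgroup.closure W)
    (h' : ∀ w ∈ W, ∀ z ∈ Z, cm w z⁻¹ ∈ Subgroup.closure W) :
    Nml (Subgroup.closure Z) (Subgroup.closure W : Set G) := by
  apply Nml.of_left_closure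
  · intro z hz u hu
    induction hu using Subgroup.closure_induction with
    | mem x hx =>
      have e : z⁻¹ * x * z = x * cm x z := by simp only [cm]; group
      rw [e]
      exact mul_mem (Subgroup.subset_closure hx) (h x hx z hz)
    | one => simp
    | mul x y _ _ ihx ihy =>
      have e : z⁻¹ * (x * y) * z = (z⁻¹ * x * z) * (z⁻¹ * y * z) := by group
      rw [e]; exact mul_mem ihx ihy
    | inv x _ ih =>
      have e : z⁻¹ * x⁻¹ * z = (z⁻¹ * x * z)⁻¹ := by group
      rw [e]; exact inv_mem ih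
  · intro z hz u hu
    induction hu using Subgroup.closure_induction with
    | mem x hx =>
      have e : z * x * z⁻¹ = x * cm x z⁻¹ := by simp only [cm]; group
      rw [e]
      exact mul_mem (Subgroup.subset_closure hx) (h' x hx z hz)
    | one => simp
    | mul x y _ _ ihx ihy =>
      have e : z * (x * y) * z⁻¹ = (z * x * z⁻¹) * (z * y * z⁻¹) := by group
      rw [e]; exact mul_mem ihx ihy
    | inv x _ ih =>
      have e : z * x⁻¹ * z⁻¹ = (z * x * z⁻¹)⁻¹ := by group
      rw [e]; exact inv_mem ih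


/-- One half of the construction in the Hirsch-Plotkin theorem. -/
theorem hp_half {U V : Subgroup G} (hU : LN U) (hV : LN V) (hUV : Nml V (U : Set G))
    (hVU : Nml U (V : Set G)) {X Y : Set G} (hX : X.Finite) (hY : Y.Finite)
    (hXU : X ⊆ (U : Set G)) (hYV : Y ⊆ (V : Set G)) (hXi : ∀ x ∈ X, x⁻¹ ∈ X)
    (hYi : ∀ y ∈ Y, y⁻¹ ∈ Y) :
    ∃ V' : Subgroup G, Group.IsNilpotent V' ∧ Y ⊆ (V' : Set G) ∧
      V' ≤ Subgroup.closure (X ∪ Y) ∧ Nml (Subgroup.closure (X ∪ Y)) (V' : Set G) := by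
  set C : Set G := Set.image2 cm X Y with hC
  have hCfin : C.Finite := hX.image2 cm hY
  have hCU : ∀ c ∈ C, c ∈ U ∧ c ∈ V := by
    rintro c ⟨x, hx, y, hy, rfl⟩
    exact ⟨hUV.cm_mem (hYV hy) (hXU hx), hVU.cm_mem' (hXU hx) (hYV hy)⟩
  obtain ⟨W, hW1, hW2, hW3, hW4⟩ := exists_finite_stable_set hX hCfin
    (fun c hc => hU.hcen' hX hXU (hCU c hc).1)
  have hWV : W ⊆ (V : Set G) := by
    refine (hW4 V (fun c hc => (hCU c hc).2) ?_)
    intro k hk z hz
    exact hVU.cm_mem (hXU hz) hk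
  have hWH : W ⊆ (Subgroup.closure (X ∪ Y) : Set G) := by
    refine hW4 _ ?_ ?_
    · rintro c ⟨x, hx, y, hy, rfl⟩
      exact (Nml.self _).cm_mem (Subgroup.subset_closure (Or.inr hy))
        (Subgroup.subset_closure (Or.inl hx))
    · intro k hk z hz
      exact (Nml.self _).cm_mem (Subgroup.subset_closure (Or.inl hz)) hk
  refine ⟨Subgroup.closure (Y ∪ W), ?_, ?_, ?_, ?_⟩
  · exact hV _ (hY.union hW1) (Set.union_subset hYV hWV)
  · exact fun y hy => Subgroup.subset_closure (Or.inl hy)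
  · rw [Subgroup.closure_le]
    rintro w (hw | hw)
    · exact Subgroup.subset_closure (Or.inr hw)
    · exact hWH hw
  · have key : ∀ w ∈ Y ∪ W, ∀ z ∈ X ∪ Y, cm w z ∈ Subgroup.closure (Y ∪ W) := by
      rintro w hw z (hz | hz)
      · rcases hw with hw | hw
        · rw [← cm_inv]
          apply inv_mem
          apply Subgroup.subset_closure
          exact Or.inr (hW2 ⟨z, hz, w, hw, rfl⟩)
        · exact Subgroup.closure_mono Set.subset_union_right (hW3 w hw z hz)
      · exact (Nml.self _).cm_mem (Subgroup.subset_closure (Or.inl hz))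
          (Subgroup.subset_closure hw)
    apply nml_closure_of_cm key
    intro w hw z hz
    apply key w hw
    rcases hz with hz | hz
    · exact Or.inl (hXi z hz)
    · exact Or.inr (hYi z hz)

/-- The Hirsch-Plotkin theorem: the join of two locally nilpotent subgroups normalizing each
other is locally nilpotent. -/
theorem LN_sup {U V : Subgroup G} (hU : LN U) (hV : LN V) (hUV : Nml V (U : Set G))
    (hVU : Nml U (V : Set G)) : LN (U ⊔ V) := by
  have e : (U ⊔ V : Subgroup G) = Subgroup.closure ((U : Set G) ∪ V) := by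
    rw [Subgroup.closure_union, Subgroup.closure_eq, Subgroup.closure_eq]
  rw [e]
  apply LN_closure
  intro F hF hFUV
  set X : Set G := (F ∩ U) ∪ (F ∩ U)⁻¹ with hX
  set Y : Set G := (F ∩ V) ∪ (F ∩ V)⁻¹ with hY
  have hXf : X.Finite := (hF.inter_of_left _).union (hF.inter_of_left _).inv
  have hYf : Y.Finite := (hF.inter_of_left _).union (hF.inter_of_left _).inv
  have hXU : X ⊆ (U : Set G) := by
    rintro x (hx | hx)
    · exact hx.2
    · have := inv_mem (show x⁻¹ ∈ U from hx.2)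
      simpa using this
  have hYV : Y ⊆ (V : Set G) := by
    rintro x (hx | hx)
    · exact hx.2
    · have := inv_mem (show x⁻¹ ∈ V from hx.2)
      simpa using this
  have hXi : ∀ x ∈ X, x⁻¹ ∈ X := by
    rintro x (hx | hx)
    · exact Or.inr (by simpa using hx)
    · exact Or.inl (by simpa using hx)
  have hYi : ∀ x ∈ Y, x⁻¹ ∈ Y := by
    rintro x (hx | hx)
    · exact Or.inr (by simpa using hx)
    · exact Or.inl (by simpa using hx)
  obtain ⟨V', hV1, hV2, hV3, hV4⟩ := hp_half hU hV hUV hVU hXf hYf hXU hYV hXi hYi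
  obtain ⟨U', hU1, hU2, hU3, hU4⟩ := hp_half hV hU hVU hUV hYf hXf hYV hXU hYi hXi
  rw [Set.union_comm Y X] at hU3 hU4
  have k1 : U' ≤ hyp (Subgroup.closure (X ∪ Y)) := by
    apply fitting_aux (V := V') rfl _ hU3 hV3 hU4 hV4
    · intro u hu; exact hcen_of_isNilpotent' hU1 hu
    · intro u hu; exact hcen_of_isNilpotent' hV1 hu
    · rintro s (hs | hs)
      · exact Or.inl (hU2 hs)
      · exact Or.inr (hV2 hs)
  have k2 : V' ≤ hyp (Subgroup.closure (X ∪ Y)) := by
    apply fitting_aux (V := U') rfl _ hV3 hU3 hV4 hU4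
    · intro u hu; exact hcen_of_isNilpotent' hV1 hu
    · intro u hu; exact hcen_of_isNilpotent' hU1 hu
    · rintro s (hs | hs)
      · exact Or.inr (hU2 hs)
      · exact Or.inl (hV2 hs)
  have k3 : Group.IsNilpotent (Subgroup.closure (X ∪ Y)) := by
    apply isNilpotent_closure (hXf.union hYf)
    rintro s (hs | hs)
    · exact k1 (hU2 hs)
    · exact k2 (hV2 hs)
  refine isNilpotent_mono ?_ k3
  apply Subgroup.closure_mono
  intro f hf
  rcases hFUV hf with h | h
  · exact Or.inl (Or.inl ⟨hf, h⟩)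
  · exact Or.inr (Or.inl ⟨hf, h⟩)

/-- The Hirsch-Plotkin radical of a subgroup `K`. -/
def hpr (K : Subgroup G) : Subgroup G := sSup {R | LN R ∧ R ≤ K ∧ Nml K (R : Set G)}

theorem le_hpr {K R : Subgroup G} (h : LN R) (hR : R ≤ K) (hn : Nml K (R : Set G)) :
    R ≤ hpr K := le_sSup ⟨h, hR, hn⟩

theorem LN_hpr (K : Subgroup G) : LN (hpr K) := by
  apply LN_sSup
  · rintro R ⟨hR1, hR2, hR3⟩ R' ⟨hR1', hR2', hR3'⟩
    refine ⟨R ⊔ R', ⟨?_, sup_le hR2 hR2', hR3.sup hR3'⟩, le_sup_left, le_sup_right⟩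
    exact LN_sup hR1 hR1' (hR3.mono hR2') (hR3'.mono hR2)
  · exact ⟨⊥, LN_bot, bot_le, Nml.bot K⟩
  · rintro J ⟨hJ, _, _⟩
    exact hJ

end Pool.Agent.Lib.H73
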