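import Pool.Agent.Lib.H73.HP

/-!
Extension of a locally nilpotent group by an element acting in an Engel fashion on generators.
-/

set_option autoImplicit false

namespace Pool.Agent.Lib.H73

open Subgroup

variable {G : Type*} [Group G]

/-- The Engel step with respect to `y`. -/
def en (y : G) (z : G) : G := cm z y

theorem en_iter_one (y : G) (n : ℕ) : (en y)^[n] 1 = 1 := by
  induction n with
  | zero => rfl
  | succ n ih => rw [Function.iterate_succ_apply, en, cm_one_left, ih]

/-- For `A` abelian modulo `N` and normalized by `y`, Engel elements modulo `N` of depth `m` form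
a subgroup. -/
theorem exists_engel_subgroup {A N : Subgroup G} {y : G} (hNA : N ≤ A)
    (hNy : ∀ n ∈ N, cm n y ∈ N) (hAy : ∀ a ∈ A, cm a y ∈ A)
    (hAA : ∀ a ∈ A, ∀ b ∈ A, cm a b ∈ N) (m : ℕ) :
    ∃ P : Subgroup G, (∀ u, u ∈ P ↔ u ∈ A ∧ (en y)^[m] u ∈ N) ∧ N ≤ P := by
  induction m with
  | zero =>
    exact ⟨N, fun u => ⟨fun h => ⟨hNA h, h⟩, fun h => h.2⟩, le_refl _⟩
  | succ m ih =>
    obtain ⟨P, hP, hNP⟩ := ih
    have hPA : P ≤ A := fun u hu => ((hP u).mp hu).1
    have hAP : Nml A (P : Set G) := by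
      intro a ha u hu
      have e : a⁻¹ * u * a = u * cm u a := by simp only [cm]; group
      rw [e]
      exact mul_mem hu (hNP (hAA u (hPA hu) a ha))
    refine ⟨{
      carrier := {u | u ∈ A ∧ cm u y ∈ P}
      one_mem' := ⟨one_mem _, by rw [cm_one_left]; exact one_mem _⟩
      mul_mem' := ?_
      inv_mem' := ?_ }, ?_, ?_⟩
    · rintro a b ⟨ha, ha'⟩ ⟨hb, hb'⟩
      refine ⟨mul_mem ha hb, ?_⟩
      have e : cm (a * b) y = (b⁻¹ * cm a y * b) * cm b y := by simp only [cm]; group
      rw [e]
      exact mul_mem (hAP b hb _ ha') hb'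
    · rintro a ⟨ha, ha'⟩
      refine ⟨inv_mem ha, ?_⟩
      have e : cm a⁻¹ y = a * (cm a y)⁻¹ * a⁻¹ := by simp only [cm]; group
      rw [e]
      exact hAP.conj' ha (inv_mem ha')
    · intro u
      rw [Function.iterate_succ_apply]
      constructor
      · rintro ⟨h1, h2⟩
        exact ⟨h1, ((hP _).mp h2).2⟩
      · rintro ⟨h1, h2⟩
        exact ⟨h1, (hP _).mpr ⟨hAy u h1, h2⟩⟩
    · intro n hn
      exact ⟨hNA hn, hNP (hNy n hn)⟩

theorem en_iter_mem {N : Subgroup G} {y u : G} (hNy : ∀ n ∈ N, cm n y ∈ N) {m : ℕ}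
    (h : (en y)^[m] u ∈ N) {m' : ℕ} (hm : m ≤ m') : (en y)^[m'] u ∈ N := by
  induction m', hm using Nat.le_induction with
  | base => exact h
  | succ k _ ih =>
    rw [Function.iterate_succ_apply']
    exact hNy _ ih

/-- The subgroup of elements of `A` that are Engel modulo `N` with respect to `y`. -/
def eng (A N : Subgroup G) (y : G) (hNA : N ≤ A)
    (hNy : ∀ n ∈ N, cm n y ∈ N) (hAy : ∀ a ∈ A, cm a y ∈ A)
    (hAA : ∀ a ∈ A, ∀ b ∈ A, cm a b ∈ N) : Subgroup G where
  carrier := {u | u ∈ A ∧ ∃ m, (en y)^[m] u ∈ N}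
  one_mem' := ⟨one_mem _, 0, one_mem _⟩
  mul_mem' := by
    rintro a b ⟨ha, m, hm⟩ ⟨hb, n, hn⟩
    refine ⟨mul_mem ha hb, max m n, ?_⟩
    obtain ⟨P, hP, _⟩ := exists_engel_subgroup hNA hNy hAy hAA (max m n)
    have h1 : a ∈ P := (hP a).mpr ⟨ha, en_iter_mem hNy hm (le_max_left _ _)⟩
    have h2 : b ∈ P := (hP b).mpr ⟨hb, en_iter_mem hNy hn (le_max_right _ _)⟩
    exact ((hP _).mp (mul_mem h1 h2)).2
  inv_mem' := by
    rintro a ⟨ha, m, hm⟩
    obtain ⟨P, hP, _⟩ := exists_engel_subgroup hNA hNy hAy hAA m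
    have h1 : a ∈ P := (hP a).mpr ⟨ha, hm⟩
    exact ⟨inv_mem ha, m, ((hP _).mp (inv_mem h1)).2⟩

section lcs

variable (E : Subgroup G)

theorem cm_mem_lcs_succ {k : ℕ} {a e : G} (ha : a ∈ E.lowerCentralSeries k) (he : e ∈ E) :
    cm a e ∈ E.lowerCentralSeries (k + 1) := by
  have h := commutator_mem_commutator (inv_mem ha) (inv_mem he)
  rw [commutatorElement_def] at h
  have e' : cm a e = a⁻¹ * e⁻¹ * a⁻¹⁻¹ * e⁻¹⁻¹ := by simp only [cm]; group
  rw [e']
  exact h

theorem lcs_succ_le {k : ℕ} {Q : Subgroup G}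
    (h : ∀ a ∈ E.lowerCentralSeries k, ∀ e ∈ E, cm a e ∈ Q) :
    E.lowerCentralSeries (k + 1) ≤ Q := by
  rw [Subgroup.lowerCentralSeries_succ, commutator_le]
  intro a ha e he
  rw [commutatorElement_def]
  have e' : a * e * a⁻¹ * e⁻¹ = cm a⁻¹ e⁻¹ := by simp only [cm]; group
  rw [e']
  exact h _ (inv_mem ha) _ (inv_mem he)

theorem lcs_succ_le_self (k : ℕ) : E.lowerCentralSeries (k + 1) ≤ E.lowerCentralSeries k :=
  E.lowerCentralSeries_antitone (Nat.le_succ k)

theorem nml_lcs (k : ℕ) : Nml E (E.lowerCentralSeries k : Set G) := by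
  intro e he a ha
  have e' : e⁻¹ * a * e = a * cm a e := by simp only [cm]; group
  rw [e']
  exact mul_mem ha (lcs_succ_le_self E k (cm_mem_lcs_succ E ha he))

theorem lcs_conj {y : G} (hy : ∀ e ∈ E, y⁻¹ * e * y ∈ E) (k : ℕ) :
    ∀ u ∈ E.lowerCentralSeries k, y⁻¹ * u * y ∈ E.lowerCentralSeries k := by
  have h1 : E.map (MulAut.conj y⁻¹).toMonoidHom ≤ E := by
    rintro _ ⟨e, he, rfl⟩
    simpa using hy e he
  have h2 := Subgroup.map_lowerCentralSeries E (MulAut.conj y⁻¹).toMonoidHom k
  have h3 := Subgroup.lowerCentralSeries_mono k h1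
  intro u hu
  apply h3
  show _ ∈ (Subgroup.map (MulAut.conj y⁻¹).toMonoidHom E).lowerCentralSeries k
  rw [← h2]
  refine ⟨u, hu, ?_⟩
  simp

theorem lcs_cm {y : G} (hy : ∀ e ∈ E, y⁻¹ * e * y ∈ E) (k : ℕ) :
    ∀ u ∈ E.lowerCentralSeries k, cm u y ∈ E.lowerCentralSeries k := by
  intro u hu
  have e' : cm u y = u⁻¹ * (y⁻¹ * u * y) := by simp only [cm]; group
  rw [e']
  exact mul_mem (inv_mem hu) (lcs_conj E hy k u hu)

/-- `[γ_k, γ_1] ≤ γ_{k+2}`. -/
theorem cm_lcs_one {k : ℕ} {a w : G} (ha : a ∈ E.lowerCentralSeries k)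
    (hw : w ∈ E.lowerCentralSeries 1) : cm a w ∈ E.lowerCentralSeries (k + 2) := by
  have haE : a ∈ E := E.lowerCentralSeries_antitone (Nat.zero_le k) ha
  have h2 : Nml E (E.lowerCentralSeries (k + 2) : Set G) := nml_lcs E (k + 2)
  have h : E.lowerCentralSeries 1 ≤ cmod E {a} (E.lowerCentralSeries (k + 2)) h2 := by
    apply lcs_succ_le
    intro e he e1 he1
    have he' : e ∈ E := he
    refine ⟨(Nml.self E).cm_mem he1 he', ?_⟩
    intro s hs
    rw [Set.mem_singleton_iff.mp hs]
    -- Hall-Witt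
    set y := e1⁻¹ with hy
    have hyE : y ∈ E := inv_mem he1
    have t2 : cm (cm y a⁻¹) e ∈ E.lowerCentralSeries (k + 2) := by
      apply cm_mem_lcs_succ _ _ he'
      rw [← cm_inv]
      exact inv_mem (cm_mem_lcs_succ E (inv_mem ha) hyE)
    have t3 : cm (cm a e⁻¹) y ∈ E.lowerCentralSeries (k + 2) :=
      cm_mem_lcs_succ E (cm_mem_lcs_succ E ha (inv_mem he')) hyE
    have id : (y⁻¹ * cm (cm e y⁻¹) a * y) * (a⁻¹ * cm (cm y a⁻¹) e * a) *
        (e⁻¹ * cm (cm a e⁻¹) y * e) = 1 := by
      simp only [cm]; group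
    have h3 : y⁻¹ * cm (cm e y⁻¹) a * y ∈ E.lowerCentralSeries (k + 2) := by
      have : y⁻¹ * cm (cm e y⁻¹) a * y =
          ((a⁻¹ * cm (cm y a⁻¹) e * a) * (e⁻¹ * cm (cm a e⁻¹) y * e))⁻¹ := by
        rw [eq_inv_iff_mul_eq_one, ← mul_assoc]
        exact id
      rw [this]
      exact inv_mem (mul_mem (h2 a haE _ t2) (h2 e he' _ t3))
    have h4 := h2.conj' hyE h3
    have e2 : y * (y⁻¹ * cm (cm e y⁻¹) a * y) * y⁻¹ = cm (cm e y⁻¹) a := by group
    rw [e2] at h4
    have e3 : y⁻¹ = e1 := by rw [hy, inv_inv]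
    rw [e3] at h4
    exact h4
  have h1 := (h hw).2 a rfl
  rw [← cm_inv]
  exact inv_mem h1

/-- If `y` acts on `E` in an Engel way modulo `γ_1` then it does so on all factors `γ_k/γ_{k+1}`. -/
theorem engel_lcs {y : G} (hy : ∀ e ∈ E, y⁻¹ * e * y ∈ E)
    (h0 : ∀ u ∈ E, ∃ m, (en y)^[m] u ∈ E.lowerCentralSeries 1) (k : ℕ) :
    ∀ u ∈ E.lowerCentralSeries k, ∃ m, (en y)^[m] u ∈ E.lowerCentralSeries (k + 1) := by
  induction k with
  | zero => exact h0
  | succ k ih =>
    have hγ : ∀ k, E.lowerCentralSeries k ≤ E :=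
      fun k => E.lowerCentralSeries_antitone (Nat.zero_le k)
    set Q := eng (E.lowerCentralSeries (k + 1)) (E.lowerCentralSeries (k + 2)) y
      (lcs_succ_le_self E (k + 1)) (lcs_cm E hy (k + 2)) (lcs_cm E hy (k + 1))
      (fun a ha b hb => cm_mem_lcs_succ E ha (hγ _ hb)) with hQ
    have hQmem : ∀ u, u ∈ Q ↔ u ∈ E.lowerCentralSeries (k + 1) ∧
      ∃ m, (en y)^[m] u ∈ E.lowerCentralSeries (k + 2) := fun u => Iff.rfl
    have hQle : E.lowerCentralSeries (k + 2) ≤ Q := by
      intro u hu
      exact ⟨lcs_succ_le_self E (k + 1) hu, 0, hu⟩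
    have hQn : Nml E (Q : Set G) := by
      intro e he u hu
      have e' : e⁻¹ * u * e = u * cm u e := by simp only [cm]; group
      rw [e']
      exact mul_mem hu (hQle (cm_mem_lcs_succ E hu.1 he))
    have key : ∀ s i j, i + j ≤ s → ∀ a ∈ E.lowerCentralSeries k, ∀ w ∈ E,
        (en y)^[i] a ∈ E.lowerCentralSeries (k + 1) →
        (en y)^[j] w ∈ E.lowerCentralSeries 1 → cm a w ∈ Q := by
      intro s
      induction s with
      | zero =>
        intro i j hij a ha w hw hi _
        obtain rfl : i = 0 := by omega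
        exact hQle (cm_mem_lcs_succ E hi hw)
      | succ s ihs =>
        intro i j hij a ha w hw hi hj
        rcases i with _ | i
        · exact hQle (cm_mem_lcs_succ E hi hw)
        rcases j with _ | j
        · exact hQle (cm_lcs_one E ha hj)
        rw [Function.iterate_succ_apply] at hi hj
        have ha' : cm a y ∈ E.lowerCentralSeries k := lcs_cm E hy k a ha
        have hw' : cm w y ∈ E := lcs_cm E hy 0 w hw
        have haE : a ∈ E := hγ k ha
        have haE' : cm a y ∈ E := hγ k ha'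
        -- the three smaller terms
        have q1 : cm a (cm w y) ∈ Q := ihs (i + 1) j (by omega) a ha (cm w y) hw'
          (by rw [Function.iterate_succ_apply]; exact hi) hj
        have q2 : cm (cm a y) (cm w y) ∈ Q := ihs i j (by omega) _ ha' _ hw' hi hj
        have q3 : cm (cm a y) w ∈ Q := ihs i (j + 1) (by omega) _ ha' w hw hi
          (by rw [Function.iterate_succ_apply]; exact hj)
        have hc : cm a w ∈ E.lowerCentralSeries (k + 1) := cm_mem_lcs_succ E ha hw
        have hcE : cm a w ∈ E := hγ _ hc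
        set a' := cm a y with ha'_def
        set w' := cm w y with hw'_def
        set c := cm a w with hc_def
        have id : cm c y =
            (c⁻¹ * ((a'⁻¹ * cm a w' * a') * cm a' w') * c) * cm c (a' * w') *
              (w'⁻¹ * cm a' w * w') := by
          rw [hc_def, ha'_def, hw'_def]
          simp only [cm]; group
        have hy1 : cm c y ∈ Q := by
          rw [id]
          refine mul_mem (mul_mem (hQn c hcE _ (mul_mem (hQn a' haE' _ q1) q2)) ?_)
            (hQn w' hw' _ q3)
          exact hQle (cm_mem_lcs_succ E hc (mul_mem haE' hw'))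
        obtain ⟨m, hm⟩ := hy1.2
        exact ⟨hc, m + 1, by rw [Function.iterate_succ_apply]; exact hm⟩
    have hle : E.lowerCentralSeries (k + 1) ≤ Q := by
      apply lcs_succ_le
      intro a ha e he
      obtain ⟨i, hi⟩ := ih a ha
      obtain ⟨j, hj⟩ := h0 e he
      exact key (i + j) i j (le_refl _) a ha e he hi hj
    intro u hu
    exact (hle hu).2

end lcs


/-- If `E` is nilpotent, stable under conjugation by `y`, generated by `A` on which `y` acts in an
Engel way, then `closure (insert y A)` is nilpotent. -/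
theorem isNilpotent_insert {A : Set G} {y : G} (hA : A.Finite)
    (hE : Group.IsNilpotent (Subgroup.closure A))
    (hAy : ∀ a ∈ A, cm a y ∈ Subgroup.closure A) (hen : ∀ a ∈ A, ∃ n, (en y)^[n] a = 1) :
    Group.IsNilpotent (Subgroup.closure (insert y A)) := by
  set E := Subgroup.closure A with hEdef
  set H := Subgroup.closure (insert y A) with hHdef
  have hyE : ∀ e ∈ E, y⁻¹ * e * y ∈ E := by
    intro e he
    rw [hEdef] at he
    induction he using Subgroup.closure_induction with
    | mem x hx =>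
      have e : y⁻¹ * x * y = x * cm x y := by simp only [cm]; group
      rw [e]
      exact mul_mem (Subgroup.subset_closure hx) (hAy x hx)
    | one => simp
    | mul a b _ _ iha ihb =>
      have e : y⁻¹ * (a * b) * y = (y⁻¹ * a * y) * (y⁻¹ * b * y) := by group
      rw [e]; exact mul_mem iha ihb
    | inv a _ ih =>
      have e : y⁻¹ * a⁻¹ * y = (y⁻¹ * a * y)⁻¹ := by group
      rw [e]; exact inv_mem ih
  have h0 : ∀ u ∈ E, ∃ m, (en y)^[m] u ∈ E.lowerCentralSeries 1 := by
    have hle : E ≤ eng E (E.lowerCentralSeries 1) y (lcs_succ_le_self E 0) (lcs_cm E hyE 1)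
        (lcs_cm E hyE 0) (fun a ha b hb => cm_mem_lcs_succ E (k := 0) ha hb) := by
      refine (Subgroup.closure_le _).mpr ?_
      intro a ha
      obtain ⟨n, hn⟩ := hen a ha
      exact ⟨Subgroup.subset_closure ha, n, by rw [hn]; exact one_mem _⟩
    exact fun u hu => (hle hu).2
  obtain ⟨c, hc⟩ := (Subgroup.isNilpotent_iff_lowerCentralSeries E).mp hE
  have hEH : E ≤ H := Subgroup.closure_mono (Set.subset_insert y A)
  have hγH : ∀ k, E.lowerCentralSeries k ≤ H :=
    fun k => (E.lowerCentralSeries_antitone (Nat.zero_le k)).trans hEH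
  have key : ∀ j k, k + j = c → E.lowerCentralSeries k ≤ hyp H := by
    intro j
    induction j with
    | zero =>
      intro k hk
      rw [Nat.add_zero] at hk
      rw [hk, hc]
      exact bot_le
    | succ j ih =>
      intro k hk
      have ih' := ih (k + 1) (by omega)
      have hm : ∀ m, ∀ u ∈ E.lowerCentralSeries k,
          (en y)^[m] u ∈ E.lowerCentralSeries (k + 1) → u ∈ hyp H := by
        intro m
        induction m with
        | zero => intro u _ h; exact ih' h
        | succ m ihm =>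
          intro u hu h
          rw [Function.iterate_succ_apply] at h
          have h1 : cm u y ∈ hyp H := ihm (cm u y) (lcs_cm E hyE k u hu) h
          have huH : u ∈ Subgroup.closure (insert y A) := hγH k hu
          apply mem_hyp_of_generators huH
          rintro s (rfl | hs)
          · exact h1
          · exact ih' (cm_mem_lcs_succ E hu (Subgroup.subset_closure hs))
      intro u hu
      obtain ⟨m, hm'⟩ := engel_lcs E hyE h0 k u hu
      exact hm m u hu hm'
  have hEhyp : E ≤ hyp H := key c 0 (by omega)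
  apply isNilpotent_closure (hA.insert y)
  rintro s (rfl | hs)
  · apply mem_hyp_of_generators (Subgroup.subset_closure (Set.mem_insert _ _))
    rintro t (rfl | ht)
    · rw [cm_self]; exact one_mem _
    · rw [← cm_inv]
      exact inv_mem (hEhyp (lcs_cm E hyE 0 t (Subgroup.subset_closure ht)))
  · exact hEhyp (Subgroup.subset_closure hs)

/-- A locally nilpotent group normalized by an element acting in an Engel fashion on a generating
set generates a locally nilpotent group together with this element. -/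
theorem LN_insert {S : Set G} {y : G} (hS : LN (Subgroup.closure S))
    (hy : ∀ m ∈ Subgroup.closure S, y⁻¹ * m * y ∈ Subgroup.closure S)
    (hen : ∀ s ∈ S, ∃ n, (en y)^[n] s = 1) : LN (Subgroup.closure (insert y S)) := by
  apply LN_closure
  intro F hF hFS
  choose! n hn using hen
  set A : Set G := ⋃ f ∈ F ∩ S, (fun i => (en y)^[i] f) '' {i | i ≤ n f} with hA
  have hAfin : A.Finite :=
    (hF.inter_of_left S).biUnion fun f _ => (Set.finite_le_nat (n f)).image _
  have hmem : ∀ m i, ∀ s ∈ Subgroup.closure S, m = i → (en y)^[i] s ∈ Subgroup.closure S := by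
    intro m
    induction m with
    | zero => rintro i s hs rfl; exact hs
    | succ m ih =>
      rintro i s hs rfl
      rw [Function.iterate_succ_apply]
      apply ih m _ _ rfl
      have e : en y s = s⁻¹ * (y⁻¹ * s * y) := by simp only [en, cm]; group
      rw [e]
      exact mul_mem (inv_mem hs) (hy s hs)
  have hAS : A ⊆ (Subgroup.closure S : Set G) := by
    intro a ha
    simp only [hA, Set.mem_iUnion] at ha
    obtain ⟨f, hf, i, _, rfl⟩ := ha
    exact hmem i i f (Subgroup.subset_closure hf.2) rfl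
  have h1 : Group.IsNilpotent (Subgroup.closure (insert y A)) := by
    apply isNilpotent_insert hAfin (hS A hAfin hAS)
    · intro a ha
      simp only [hA, Set.mem_iUnion] at ha
      obtain ⟨f, hf, i, hi, rfl⟩ := ha
      have hi' : i ≤ n f := hi
      show en y ((en y)^[i] f) ∈ Subgroup.closure A
      rw [← Function.iterate_succ_apply' (en y) i f]
      rcases Nat.lt_or_ge i (n f) with h | h
      · apply Subgroup.subset_closure
        simp only [hA, Set.mem_iUnion]
        exact ⟨f, hf, i + 1, h, rfl⟩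
      · have : i = n f := le_antisymm hi' h
        rw [this, Function.iterate_succ_apply', hn f hf.2, en, cm_one_left]
        exact one_mem _
    · intro a ha
      simp only [hA, Set.mem_iUnion] at ha
      obtain ⟨f, hf, i, hi, rfl⟩ := ha
      refine ⟨n f, ?_⟩
      show (en y)^[n f] ((en y)^[i] f) = 1
      rw [← Function.iterate_add_apply, Nat.add_comm, Function.iterate_add_apply, hn f hf.2,
        en_iter_one]
  refine isNilpotent_mono ?_ h1
  rw [Subgroup.closure_le]
  intro f hf
  rcases hFS hf with h | h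
  · exact Subgroup.subset_closure (Or.inl h)
  · apply Subgroup.subset_closure
    right
    simp only [hA, Set.mem_iUnion]
    exact ⟨f, ⟨hf, h⟩, 0, Nat.zero_le _, rfl⟩

end Pool.Agent.Lib.H73
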