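import Pool.Agent.Lib.H73.Basic

/-!
Local nilpotency of subgroups and its relation with hypercentral elements.
-/

set_option autoImplicit false

namespace Pool.Agent.Lib.H73

variable {G : Type*} [Group G]

theorem HCen.subtype {L : Subgroup G} {u : G} (h : HCen (L : Set G) u) :
    ∀ hu : u ∈ L, HCen (Set.univ : Set L) (⟨u, hu⟩ : L) := by
  induction h with
  | one => intro hu; exact HCen.one
  | step u _ ih =>
    intro hu
    apply HCen.step
    intro l _
    exact ih l.1 l.2 (mul_mem (mul_mem (mul_mem (inv_mem hu) (inv_mem l.2)) hu) l.2)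

theorem HCen.coe {L : Subgroup G} {u : L} (h : HCen (Set.univ : Set L) u) :
    HCen (L : Set G) (u : G) := by
  induction h with
  | one => exact HCen.one
  | step u _ ih =>
    apply HCen.step
    intro l hl
    exact ih ⟨l, hl⟩ trivial

theorem exists_mem_ucs {H : Type*} [Group H] {S : Set H} (hS : S.Finite)
    (hgen : Subgroup.closure S = ⊤) {u : H} (hu : HCen (Set.univ : Set H) u) :
    ∃ n, u ∈ Subgroup.upperCentralSeries H n := by
  induction hu with
  | one => exact ⟨0, one_mem _⟩
  | step u _ ih =>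
    choose f hf using fun l : H => ih l trivial
    obtain ⟨N, hN⟩ : ∃ N, ∀ s ∈ S, f s ≤ N := by
      obtain ⟨N, hN⟩ := (hS.image f).bddAbove
      exact ⟨N, fun s hs => hN ⟨s, hs, rfl⟩⟩
    have h1 : ∀ s ∈ S, cm u s ∈ Subgroup.upperCentralSeries H N :=
      fun s hs => Subgroup.upperCentralSeries_mono H (hN s hs) (hf s)
    have hnorm : (Subgroup.upperCentralSeries H N).Normal := inferInstance
    have h2 : ∀ l ∈ Subgroup.closure S, cm u l ∈ Subgroup.upperCentralSeries H N := by
      apply cm_mem_closure _ h1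
      intro l _ v hv
      have := hnorm.conj_mem v hv l⁻¹
      simpa using this
    refine ⟨N + 1, ?_⟩
    rw [Subgroup.mem_upperCentralSeries_succ_iff]
    intro y
    have h3 : cm u y⁻¹ ∈ Subgroup.upperCentralSeries H N := h2 _ (by rw [hgen]; trivial)
    have h4 := inv_mem (hnorm.conj_mem _ h3 u)
    have e : u * y * u⁻¹ * y⁻¹ = (u * cm u y⁻¹ * u⁻¹)⁻¹ := by
      simp only [cm]; group
    rw [commutatorElement_def, e]
    exact h4

theorem isNilpotent_of_hcen {H : Type*} [Group H] {S : Set H} (hS : S.Finite)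
    (hgen : Subgroup.closure S = ⊤) (h : ∀ u ∈ S, HCen (Set.univ : Set H) u) :
    Group.IsNilpotent H := by
  have h1 : ∀ u ∈ S, ∃ n, u ∈ Subgroup.upperCentralSeries H n :=
    fun u hu => exists_mem_ucs hS hgen (h u hu)
  choose! f hf using h1
  obtain ⟨N, hN⟩ := (hS.image f).bddAbove
  refine ⟨⟨N, ?_⟩⟩
  rw [eq_top_iff, ← hgen, Subgroup.closure_le]
  intro s hs
  exact Subgroup.upperCentralSeries_mono H (hN ⟨s, hs, rfl⟩) (hf s hs)

/-- A finitely generated group all of whose generators are hypercentral is nilpotent. -/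
theorem isNilpotent_closure {S : Set G} (hS : S.Finite)
    (h : ∀ s ∈ S, s ∈ hyp (Subgroup.closure S)) : Group.IsNilpotent (Subgroup.closure S) := by
  have hfin : (((↑) : Subgroup.closure S → G) ⁻¹' S).Finite :=
    hS.preimage (Subtype.val_injective.injOn)
  refine isNilpotent_of_hcen hfin Subgroup.closure_closure_coe_preimage ?_
  intro u hu
  have h1 : (u : G) ∈ hyp (Subgroup.closure S) := h _ hu
  exact HCen.subtype h1.2 u.2

theorem hcen_of_isNilpotent {H : Type*} [Group H] [hH : Group.IsNilpotent H] (u : H) :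
    HCen (Set.univ : Set H) u := by
  obtain ⟨n, hn⟩ := Group.IsNilpotent.nilpotent H
  have key : ∀ n, ∀ u ∈ Subgroup.upperCentralSeries H n, HCen (Set.univ : Set H) u := by
    intro n
    induction n with
    | zero =>
      intro u hu
      have : u = 1 := by simpa [Subgroup.upperCentralSeries_zero] using hu
      subst this
      exact HCen.one
    | succ n ih =>
      intro u hu
      apply HCen.step
      intro l _
      apply ih
      have h1 := Subgroup.mem_upperCentralSeries_succ_iff.mp (inv_mem hu) l⁻¹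
      rw [commutatorElement_def] at h1
      have e : cm u l = u⁻¹ * l⁻¹ * u⁻¹⁻¹ * l⁻¹⁻¹ := by simp only [cm]; group
      rw [e]
      exact h1
  exact key n u (by rw [hn]; trivial)

theorem hcen_of_isNilpotent' {H : Subgroup G} (hH : Group.IsNilpotent H) {u : G} (hu : u ∈ H) :
    HCen (H : Set G) u :=
  HCen.coe (hcen_of_isNilpotent (⟨u, hu⟩ : H))

theorem isNilpotent_mono {H K : Subgroup G} (h : H ≤ K) (hK : Group.IsNilpotent K) :
    Group.IsNilpotent H := by
  rw [Subgroup.isNilpotent_iff_lowerCentralSeries] at hK ⊢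
  obtain ⟨n, hn⟩ := hK
  exact ⟨n, le_bot_iff.mp (hn ▸ Subgroup.lowerCentralSeries_mono n h)⟩

/-- A subgroup is locally nilpotent if its finitely generated subgroups are nilpotent. -/
def LN (J : Subgroup G) : Prop :=
  ∀ F : Set G, F.Finite → F ⊆ (J : Set G) → Group.IsNilpotent (Subgroup.closure F)

theorem LN.mono {J J' : Subgroup G} (h : LN J) (hJ : J' ≤ J) : LN J' :=
  fun F hF hFJ => h F hF fun _ hx => hJ (hFJ hx)

theorem LN.hcen {J : Subgroup G} (h : LN J) {F : Set G} (hF : F.Finite) (hFJ : F ⊆ (J : Set G))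
    {v : G} (hv : v ∈ J) : HCen (Subgroup.closure F : Set G) v := by
  have h1 := h (insert v F) (hF.insert v) (by
    intro x hx
    rcases hx with rfl | hx
    · exact hv
    · exact hFJ hx)
  have h2 := hcen_of_isNilpotent' h1 (Subgroup.subset_closure (Set.mem_insert v F))
  exact h2.mono (Subgroup.closure_mono (Set.subset_insert v F))

theorem LN.hcen' {J : Subgroup G} (h : LN J) {F : Set G} (hF : F.Finite) (hFJ : F ⊆ (J : Set G))
    {v : G} (hv : v ∈ J) : HCen F v :=
  (h.hcen hF hFJ hv).mono Subgroup.subset_closure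

/-- Elements of a closure involve only finitely many generators. -/
theorem exists_finite_mem_closure {S : Set G} {g : G} (hg : g ∈ Subgroup.closure S) :
    ∃ F : Set G, F.Finite ∧ F ⊆ S ∧ g ∈ Subgroup.closure F := by
  induction hg using Subgroup.closure_induction with
  | mem x hx => exact ⟨{x}, Set.finite_singleton x, by simpa using hx,
      Subgroup.subset_closure rfl⟩
  | one => exact ⟨∅, Set.finite_empty, Set.empty_subset _, one_mem _⟩
  | mul x y _ _ ihx ihy =>
    obtain ⟨F, hF, hFS, hx⟩ := ihx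
    obtain ⟨F', hF', hFS', hy⟩ := ihy
    exact ⟨F ∪ F', hF.union hF', Set.union_subset hFS hFS',
      mul_mem (Subgroup.closure_mono Set.subset_union_left hx)
        (Subgroup.closure_mono Set.subset_union_right hy)⟩
  | inv x _ ih =>
    obtain ⟨F, hF, hFS, hx⟩ := ih
    exact ⟨F, hF, hFS, inv_mem hx⟩

theorem exists_finite_subset_closure {S A : Set G} (hA : A.Finite)
    (hAS : A ⊆ (Subgroup.closure S : Set G)) :
    ∃ F : Set G, F.Finite ∧ F ⊆ S ∧ A ⊆ (Subgroup.closure F : Set G) := by
  have h : ∀ a ∈ A, ∃ F : Set G, F.Finite ∧ F ⊆ S ∧ a ∈ Subgroup.closure F :=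
    fun a ha => exists_finite_mem_closure (hAS ha)
  choose! f hf1 hf2 hf3 using h
  refine ⟨⋃ a ∈ A, f a, hA.biUnion hf1, Set.iUnion₂_subset hf2, ?_⟩
  intro a ha
  exact Subgroup.closure_mono (Set.subset_biUnion_of_mem ha) (hf3 a ha)

theorem LN_closure {S : Set G}
    (h : ∀ F : Set G, F.Finite → F ⊆ S → Group.IsNilpotent (Subgroup.closure F)) :
    LN (Subgroup.closure S) := by
  intro A hA hAS
  obtain ⟨F, hF, hFS, hAF⟩ := exists_finite_subset_closure hA hAS
  exact isNilpotent_mono ((Subgroup.closure_le _).mpr hAF) (h F hF hFS)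

theorem LN_bot : LN (⊥ : Subgroup G) := by
  intro F hF hFJ
  have : Subgroup.closure F = ⊥ := by
    rw [eq_bot_iff, Subgroup.closure_le]; exact hFJ
  rw [this]
  infer_instance

/-- Local nilpotency of the union of a chain of subgroups. -/
theorem LN_sSup {c : Set (Subgroup G)} (hc : DirectedOn (· ≤ ·) c) (hne : c.Nonempty)
    (h : ∀ J ∈ c, LN J) : LN (sSup c) := by
  intro F hF hFJ
  have h1 : ∃ J ∈ c, F ⊆ (J : Set G) := by
    induction F, hF using Set.Finite.induction_on with
    | empty =>
      obtain ⟨J, hJ⟩ := hne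
      exact ⟨J, hJ, Set.empty_subset _⟩
    | @insert a s _ _ ih =>
      obtain ⟨J, hJ, hsJ⟩ := ih ((Set.subset_insert a s).trans hFJ)
      have ha : a ∈ sSup c := hFJ (Set.mem_insert a s)
      rw [Subgroup.mem_sSup_of_directedOn hne hc] at ha
      obtain ⟨K, hK, haK⟩ := ha
      obtain ⟨M, hM, hJM, hKM⟩ := hc J hJ K hK
      refine ⟨M, hM, ?_⟩
      rintro x (rfl | hx)
      · exact hKM haK
      · exact hJM (hsJ hx)
  obtain ⟨J, hJ, hFJ'⟩ := h1
  exact h J hJ F hF hFJ'

end Pool.Agent.Lib.H73
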