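import Pool.Agent.Lib.H73.Hall

/-!
Groups with the minimal condition on centralizers.
-/

set_option autoImplicit false

namespace Pool.Agent.Lib.H73

open Subgroup

variable {G : Type*} [Group G]

/-- The minimal condition on centralizers. -/
def MC (G : Type*) [Group G] : Prop :=
  ∀ c : ℕ → Set G, Antitone (fun n => Subgroup.centralizer (c n)) →
    ∃ N : ℕ, ∀ n : ℕ, N ≤ n → Subgroup.centralizer (c n) = Subgroup.centralizer (c N)

theorem MC.exists_min (h : MC G) {ι : Type*} (f : ι → Set G) (P : ι → Prop) (hne : ∃ i, P i) :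
    ∃ i, P i ∧ ∀ j, P j → Subgroup.centralizer (f j) ≤ Subgroup.centralizer (f i) →
      Subgroup.centralizer (f j) = Subgroup.centralizer (f i) := by
  by_contra hcon
  push Not at hcon
  have h1 : ∀ i : {i // P i}, ∃ j : {i // P i},
      Subgroup.centralizer (f j) ≤ Subgroup.centralizer (f i) ∧
      Subgroup.centralizer (f j) ≠ Subgroup.centralizer (f i) := by
    rintro ⟨i, hi⟩
    obtain ⟨j, hj, h2, h3⟩ := hcon i hi
    exact ⟨⟨j, hj⟩, h2, h3⟩
  choose g hg1 hg2 using h1
  obtain ⟨i0, hi0⟩ := hne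
  let s : ℕ → {i // P i} := fun n => Nat.rec ⟨i0, hi0⟩ (fun _ x => g x) n
  have hs : ∀ n, s (n + 1) = g (s n) := fun n => rfl
  obtain ⟨N, hN⟩ := h (fun n => f (s n).1) (antitone_nat_of_succ_le fun n => hg1 (s n))
  exact hg2 (s N) (hN (N + 1) (Nat.le_succ N))

theorem centralizer_triple (S : Set G) :
    Subgroup.centralizer (Subgroup.centralizer (Subgroup.centralizer S : Set G) : Set G) =
      Subgroup.centralizer S := by
  apply le_antisymm
  · apply Subgroup.centralizer_le
    intro x hx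
    rw [SetLike.mem_coe, Subgroup.mem_centralizer_iff]
    intro y hy
    exact (Subgroup.mem_centralizer_iff.mp hy x hx).symm
  · intro x hx
    rw [Subgroup.mem_centralizer_iff]
    intro y hy
    exact (Subgroup.mem_centralizer_iff.mp hy x hx).symm

theorem subset_cc (S : Set G) :
    S ⊆ (Subgroup.centralizer (Subgroup.centralizer S : Set G) : Set G) := by
  intro x hx
  rw [SetLike.mem_coe, Subgroup.mem_centralizer_iff]
  intro y hy
  exact (Subgroup.mem_centralizer_iff.mp hy x hx).symm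

theorem MC.exists_max (h : MC G) {ι : Type*} (f : ι → Set G) (P : ι → Prop) (hne : ∃ i, P i) :
    ∃ i, P i ∧ ∀ j, P j → Subgroup.centralizer (f i) ≤ Subgroup.centralizer (f j) →
      Subgroup.centralizer (f j) = Subgroup.centralizer (f i) := by
  obtain ⟨i, hi, hmin⟩ := h.exists_min (fun i => (Subgroup.centralizer (f i) : Set G)) P hne
  refine ⟨i, hi, fun j hj hij => ?_⟩
  have h1 := hmin j hj (Subgroup.centralizer_le hij)
  rw [← centralizer_triple (f j), ← centralizer_triple (f i), h1]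

theorem centralizer_union' (S T : Set G) :
    Subgroup.centralizer (S ∪ T) = Subgroup.centralizer S ⊓ Subgroup.centralizer T := by
  ext x
  simp only [Subgroup.mem_centralizer_iff, Subgroup.mem_inf, Set.mem_union]
  constructor
  · intro h
    exact ⟨fun y hy => h y (Or.inl hy), fun y hy => h y (Or.inr hy)⟩
  · rintro ⟨h1, h2⟩ y (hy | hy)
    · exact h1 y hy
    · exact h2 y hy

theorem MC.exists_finite (h : MC G) (T : Set G) :
    ∃ F : Set G, F.Finite ∧ F ⊆ T ∧ Subgroup.centralizer F = Subgroup.centralizer T := by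
  obtain ⟨F, ⟨hF1, hF2⟩, hmin⟩ := h.exists_min (fun F : Set G => F)
    (fun F => F.Finite ∧ F ⊆ T) ⟨∅, Set.finite_empty, Set.empty_subset _⟩
  refine ⟨F, hF1, hF2, le_antisymm ?_ (Subgroup.centralizer_le hF2)⟩
  intro x hx
  rw [Subgroup.mem_centralizer_iff]
  intro t ht
  have h1 := hmin (insert t F) ⟨hF1.insert t, by
    intro y hy
    rcases hy with rfl | hy
    · exact ht
    · exact hF2 hy⟩ (Subgroup.centralizer_le (Set.subset_insert t F))
  have h2 : x ∈ Subgroup.centralizer (insert t F) := by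
    have : x ∈ Subgroup.centralizer F := hx
    rw [← h1] at this
    exact this
  exact Subgroup.mem_centralizer_iff.mp h2 t (Set.mem_insert t F)

theorem cm_eq_one_of_centralizer {S : Set G} {x y : G} (hx : x ∈ Subgroup.centralizer S)
    (hy : y ∈ S) : cm x y = 1 := by
  rw [cm_eq_one_iff]
  exact (Subgroup.mem_centralizer_iff.mp hx y hy).symm

theorem cm_eq_one_of_centralizer' {S : Set G} {x y : G} (hx : x ∈ Subgroup.centralizer S)
    (hy : y ∈ S) : cm y x = 1 := by
  rw [cm_eq_one_iff]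
  exact (Subgroup.mem_centralizer_iff.mp hx y hy)

theorem mem_centralizer_of_cm {S : Set G} {x : G} (h : ∀ y ∈ S, cm x y = 1) :
    x ∈ Subgroup.centralizer S := by
  rw [Subgroup.mem_centralizer_iff]
  intro y hy
  exact ((cm_eq_one_iff x y).mp (h y hy)).symm

theorem mem_centralizer_of_cm' {S : Set G} {x : G} (h : ∀ y ∈ S, cm y x = 1) :
    x ∈ Subgroup.centralizer S := by
  rw [Subgroup.mem_centralizer_iff]
  intro y hy
  exact ((cm_eq_one_iff y x).mp (h y hy))

theorem conj_eq_of_cm {x y : G} (h : cm x y = 1) : y⁻¹ * x * y = x := by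
  rw [cm_eq_one_iff] at h
  rw [mul_assoc, h, ← mul_assoc, inv_mul_cancel, one_mul]

theorem cm_comm_one {x y : G} (h : cm x y = 1) : cm y x = 1 := by
  rw [← cm_inv, h, inv_one]

/-- The Hall-Witt identity, used to trade one commutation for another. -/
theorem hall_witt {a s t : G} (h3 : cm (cm t a⁻¹) s = 1) :
    cm (cm a s⁻¹) t = 1 ↔ cm (cm s t⁻¹) a = 1 := by
  have id : (s⁻¹ * cm (cm a s⁻¹) t * s) * (t⁻¹ * cm (cm s t⁻¹) a * t) *
      (a⁻¹ * cm (cm t a⁻¹) s * a) = 1 := by
    simp only [cm]; group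
  rw [h3] at id
  constructor
  · intro h
    rw [h] at id
    have e : cm (cm s t⁻¹) a = t * (s⁻¹ * 1 * s * (t⁻¹ * cm (cm s t⁻¹) a * t) *
      (a⁻¹ * 1 * a)) * t⁻¹ := by group
    rw [e, id]; group
  · intro h
    rw [h] at id
    have e : cm (cm a s⁻¹) t = s * (s⁻¹ * cm (cm a s⁻¹) t * s * (t⁻¹ * 1 * t) *
      (a⁻¹ * 1 * a)) * s⁻¹ := by group
    rw [e, id]; group

theorem cm_inv_right_mem {U : Subgroup G} {a s : G} (hU : ∀ u ∈ U, s * u * s⁻¹ ∈ U)
    (h : cm a s ∈ U) : cm a s⁻¹ ∈ U := by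
  have e : cm a s⁻¹ = s * (cm a s)⁻¹ * s⁻¹ := by simp only [cm]; group
  rw [e]
  exact hU _ (inv_mem h)

theorem cm_inv_right_mem' {U : Subgroup G} {a s : G} (hU : ∀ u ∈ U, s⁻¹ * u * s ∈ U)
    (h : cm a s⁻¹ ∈ U) : cm a s ∈ U := by
  have e : cm a s = s⁻¹ * (cm a s⁻¹)⁻¹ * s := by simp only [cm]; group
  rw [e]
  exact hU _ (inv_mem h)

/-- In a locally nilpotent group, finitely many elements have a common fixed point in any
nontrivial section. -/
theorem LN_fix (hLN : LN (⊤ : Subgroup G)) {K : Set G} (hK : K.Finite) {V W : Subgroup G}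
    (hV : ∀ v ∈ V, ∀ k ∈ K, cm v k ∈ V) (hVW : ¬ V ≤ W) :
    ∃ a ∈ V, a ∉ W ∧ ∀ k ∈ K, cm a k ∈ W := by
  by_contra hcon
  push Not at hcon
  apply hVW
  intro v hv
  refine HCen.mem_of_closed (L := K) (D := (V : Set G)) (N := (W : Set G)) (one_mem W) hV ?_
    (hLN.hcen' hK (fun _ _ => trivial) (v := v) trivial) hv
  intro u hu h
  by_contra huW
  obtain ⟨k, hk, hk'⟩ := hcon u hu huW
  exact hk' (h k hk)

end Pool.Agent.Lib.H73
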