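import Pool.Agent.Lib.H73.Syl

/-!
Normal Engel subsets of groups with the minimal condition on centralizers generate locally
nilpotent subgroups.
-/

set_option autoImplicit false

namespace Pool.Agent.Lib.H73

open Subgroup

variable {G : Type*} [Group G]

theorem Nml.of_left_closure_set {S : Set G} {U : Set G} (h : ∀ s ∈ S, ∀ u ∈ U, s⁻¹ * u * s ∈ U)
    (h' : ∀ s ∈ S, ∀ u ∈ U, s * u * s⁻¹ ∈ U) : Nml (Subgroup.closure S) U := by
  have key : ∀ l ∈ Subgroup.closure S, ∀ u ∈ U, l⁻¹ * u * l ∈ U ∧ l * u * l⁻¹ ∈ U := by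
    intro l hl
    induction hl using Subgroup.closure_induction with
    | mem x hx => exact fun u hu => ⟨h x hx u hu, h' x hx u hu⟩
    | one => intro u hu; simpa using hu
    | mul x y _ _ ihx ihy =>
      intro u hu
      refine ⟨?_, ?_⟩
      · have e : (x * y)⁻¹ * u * (x * y) = y⁻¹ * (x⁻¹ * u * x) * y := by group
        rw [e]
        exact (ihy _ (ihx _ hu).1).1
      · have e : (x * y) * u * (x * y)⁻¹ = x * (y * u * y⁻¹) * x⁻¹ := by group
        rw [e]
        exact (ihx _ (ihy _ hu).2).2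
    | inv x _ ih =>
      intro u hu
      refine ⟨?_, ?_⟩
      · simpa using (ih u hu).2
      · simpa using (ih u hu).1
  exact fun l hl u hu => (key l hl u hu).1

/-- The `T`-class of `x`. -/
def tc (T : Subgroup G) (x : G) : Set G := {y | ∃ t ∈ T, y = t⁻¹ * x * t}

/-- The subgroup generated by the `T`-class of `x`. -/
def cl (T : Subgroup G) (x : G) : Subgroup G := Subgroup.closure (tc T x)

theorem self_mem_tc (T : Subgroup G) (x : G) : x ∈ tc T x := ⟨1, one_mem _, by simp⟩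

theorem self_mem_cl (T : Subgroup G) (x : G) : x ∈ cl T x :=
  Subgroup.subset_closure (self_mem_tc T x)

theorem tc_mono {T T' : Subgroup G} (h : T ≤ T') (x : G) : tc T x ⊆ tc T' x := by
  rintro _ ⟨t, ht, rfl⟩
  exact ⟨t, h ht, rfl⟩

theorem cl_mono {T T' : Subgroup G} (h : T ≤ T') (x : G) : cl T x ≤ cl T' x :=
  Subgroup.closure_mono (tc_mono h x)

theorem nml_tc {T : Subgroup G} {x : G} (hx : ∀ t ∈ T, x⁻¹ * t * x ∈ T)
    (hx' : ∀ t ∈ T, x * t * x⁻¹ ∈ T) :
    Nml (Subgroup.closure (insert x (T : Set G))) (tc T x) := by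
  apply Nml.of_left_closure_set
  · rintro s (rfl | hs) _ ⟨t, ht, rfl⟩
    · exact ⟨s⁻¹ * t * s, hx t ht, by group⟩
    · exact ⟨t * s, mul_mem ht hs, by group⟩
  · rintro s (rfl | hs) _ ⟨t, ht, rfl⟩
    · exact ⟨s * t * s⁻¹, hx' t ht, by group⟩
    · exact ⟨t * s⁻¹, mul_mem ht (inv_mem hs), by group⟩

theorem nml_cl {T : Subgroup G} {x : G} (hx : ∀ t ∈ T, x⁻¹ * t * x ∈ T)
    (hx' : ∀ t ∈ T, x * t * x⁻¹ ∈ T) :
    Nml (Subgroup.closure (insert x (T : Set G))) (cl T x : Set G) :=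
  Nml.closure' (nml_tc hx hx')

theorem cl_le_closure_insert (T : Subgroup G) (x : G) :
    cl T x ≤ Subgroup.closure (insert x (T : Set G)) := by
  rw [cl, Subgroup.closure_le]
  rintro _ ⟨t, ht, rfl⟩
  have h1 : t ∈ Subgroup.closure (insert x (T : Set G)) := Subgroup.subset_closure (Or.inr ht)
  have h2 : x ∈ Subgroup.closure (insert x (T : Set G)) :=
    Subgroup.subset_closure (Set.mem_insert _ _)
  exact mul_mem (mul_mem (inv_mem h1) h2) h1

/-- If `cl T y` is locally nilpotent and `y` normalizes `T`, then `y` is in the Hirsch-Plotkin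
radical of `⟨y, T⟩`. -/
theorem mem_hpr_of_LN_cl {T H : Subgroup G} {y : G} (hy : ∀ t ∈ T, y⁻¹ * t * y ∈ T)
    (hy' : ∀ t ∈ T, y * t * y⁻¹ ∈ T) (h : LN (cl T y))
    (hH : H = Subgroup.closure (insert y (T : Set G))) : y ∈ hpr H := by
  subst hH
  exact le_hpr h (cl_le_closure_insert T y) (nml_cl hy hy') (self_mem_cl T y)

/-- Lemma G: ascending through a hypercentral quotient. -/
theorem lemG {D K : Subgroup G} {Z : Set G} (hKD : K ≤ D) (hK : Nml D (K : Set G))
    (hZD : Z ⊆ (D : Set G)) (hZ : Nml D Z) (hLN : ∀ y ∈ Z, LN (cl K y))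
    (hHC : ∀ N : Subgroup G, K ≤ N → N ≤ D → Nml D (N : Set G) → ¬ D ≤ N →
      ∃ z ∈ D, z ∉ N ∧ ∀ g ∈ D, cm z g ∈ N) : ∀ y ∈ Z, LN (cl D y) := by
  set 𝒦 : Set (Subgroup G) := {K' | K ≤ K' ∧ K' ≤ D ∧ Nml D (K' : Set G) ∧
    ∀ y ∈ Z, LN (cl K' y)} with h𝒦
  obtain ⟨N, -, hN⟩ := zorn_le_nonempty₀ 𝒦 (by
    intro c hc hchain K0 hK0
    have hmem : ∀ x, x ∈ sSup c ↔ ∃ s ∈ c, x ∈ s := fun x =>
      Subgroup.mem_sSup_of_directedOn ⟨K0, hK0⟩ hchain.directedOn
    refine ⟨sSup c, ⟨(hc hK0).1.trans (le_sSup hK0), sSup_le fun J hJ => (hc hJ).2.1, ?_, ?_⟩,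
      fun J hJ => le_sSup hJ⟩
    · intro m hm u hu
      have hu' : u ∈ sSup c := hu
      rw [hmem] at hu'
      obtain ⟨s, hs, hus⟩ := hu'
      show m⁻¹ * u * m ∈ sSup c
      rw [hmem]
      exact ⟨s, hs, (hc hs).2.2.1 m hm u hus⟩
    · intro y hy
      have h1 : LN (sSup ((fun K' => cl K' y) '' c)) := by
        apply LN_sSup
        · rintro _ ⟨A, hA, rfl⟩ _ ⟨B, hB, rfl⟩
          obtain ⟨C, hC, hAC, hBC⟩ := hchain.directedOn A hA B hB
          exact ⟨cl C y, ⟨C, hC, rfl⟩, cl_mono hAC y, cl_mono hBC y⟩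
        · exact ⟨_, K0, hK0, rfl⟩
        · rintro _ ⟨A, hA, rfl⟩
          exact (hc hA).2.2.2 y hy
      apply h1.mono
      rw [cl, Subgroup.closure_le]
      rintro _ ⟨t, ht, rfl⟩
      rw [hmem] at ht
      obtain ⟨s, hs, hts⟩ := ht
      have h2 : cl s y ≤ sSup ((fun K' => cl K' y) '' c) := le_sSup ⟨s, hs, rfl⟩
      exact h2 (Subgroup.subset_closure ⟨t, hts, rfl⟩)) K ⟨le_refl _, hKD, hK, hLN⟩
  obtain ⟨hKN, hND, hNn, hNLN⟩ := hN.prop
  by_cases hDN : D ≤ N
  · intro y hy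
    exact (hNLN y hy).mono (cl_mono hDN y)
  exfalso
  obtain ⟨z, hzD, hzN, hzg⟩ := hHC N hKN hND hNn hDN
  set N' : Subgroup G := Subgroup.closure (insert z (N : Set G)) with hN'
  set C : Subgroup G := cmod D (D : Set G) N hNn with hC
  have hN'C : N' ≤ C := by
    rw [hN', Subgroup.closure_le]
    rintro x (rfl | hx)
    · exact ⟨hzD, hzg⟩
    · exact ⟨hND hx, fun m hm => hNn.cm_mem hm hx⟩
  have hNN' : N ≤ N' := fun x hx => Subgroup.subset_closure (Or.inr hx)
  apply hzN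
  apply hN.le_of_ge _ hNN' (Subgroup.subset_closure (Set.mem_insert _ _))
  refine ⟨hKN.trans hNN', fun x hx => (hN'C hx).1, ?_, ?_⟩
  · intro m hm x hx
    have e : m⁻¹ * x * m = x * cm x m := by simp only [cm]; group
    show m⁻¹ * x * m ∈ N'
    rw [e]
    exact mul_mem hx (hNN' ((hN'C hx).2 m hm))
  · intro y hy
    have hyD : y ∈ D := hZD hy
    apply (LN_hpr (Subgroup.closure (insert y (N : Set G)))).mono
    rw [cl, Subgroup.closure_le]
    rintro _ ⟨t, ht, rfl⟩
    have htC := hN'C ht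
    have hy1 : t⁻¹ * y * t ∈ Z := hZ t htC.1 y hy
    have hy1D : t⁻¹ * y * t ∈ D := hZD hy1
    have hc : cm y t ∈ N := by
      rw [← cm_inv]
      exact inv_mem (htC.2 y hyD)
    apply mem_hpr_of_LN_cl (T := N) (fun n hn => hNn _ hy1D n hn)
      (fun n hn => hNn.conj' hy1D hn) (hNLN _ hy1)
    have e1 : t⁻¹ * y * t = y * cm y t := by simp only [cm]; group
    rw [e1]
    apply le_antisymm
    · rw [Subgroup.closure_le]
      rintro x (rfl | hx)
      · have h1 : x * cm x t ∈ Subgroup.closure (insert (x * cm x t) (N : Set G)) :=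
          Subgroup.subset_closure (Set.mem_insert _ _)
        have h2 : cm x t ∈ Subgroup.closure (insert (x * cm x t) (N : Set G)) :=
          Subgroup.subset_closure (Or.inr hc)
        have := mul_mem h1 (inv_mem h2)
        rw [mul_inv_cancel_right] at this
        exact this
      · exact Subgroup.subset_closure (Or.inr hx)
    · rw [Subgroup.closure_le]
      rintro x (rfl | hx)
      · exact mul_mem (Subgroup.subset_closure (Set.mem_insert _ _))
          (Subgroup.subset_closure (Or.inr hc))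
      · exact Subgroup.subset_closure (Or.inr hx)


/-- The property proved by induction on centralizers `T`. -/
def PT (X : Set G) (T : Subgroup G) : Prop :=
  ∀ x ∈ X, (∀ t ∈ T, x⁻¹ * t * x ∈ T) → (∀ t ∈ T, x * t * x⁻¹ ∈ T) → LN (cl T x)

theorem LN_closure_singleton (x : G) : LN (Subgroup.closure {x}) := by
  apply LN_closure
  intro F hF hFx
  apply isNilpotent_mono (Subgroup.closure_mono hFx)
  apply isNilpotent_closure (Set.finite_singleton x)
  intro s hs
  apply mem_hyp_of_generators (Subgroup.subset_closure hs)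
  intro t ht
  rw [Set.mem_singleton_iff.mp hs, Set.mem_singleton_iff.mp ht, cm_self]
  exact one_mem _

section step

variable {T : Subgroup G} {x a : G}

/-- Engel condition on an abelian normal section: `x` acts in an Engel way on `A` if `x` is Engel
with respect to its `A`-conjugates. -/
theorem engel_of_class {A : Subgroup G} (hA : ∀ v ∈ A, ∀ w ∈ A, cm v w = 1)
    (hAx : ∀ v ∈ A, cm v x ∈ A)
    (hE : ∀ w ∈ A, ∃ n, (en x)^[n] (w⁻¹ * x * w) = 1) :
    ∀ w ∈ A, ∃ n, (en x)^[n] w = 1 := by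
  intro w hw
  obtain ⟨n, hn⟩ := hE w hw
  have hn1 : (en x)^[n + 1] (w⁻¹ * x * w) = 1 := by
    rw [Function.iterate_succ_apply', hn, en, cm_one_left]
  rw [Function.iterate_succ_apply] at hn1
  have e1 : en x (w⁻¹ * x * w) = en x (cm x w) := by
    simp only [en, cm]; group
  rw [e1, ← Function.iterate_succ_apply] at hn1
  -- the Engel elements form a subgroup
  have hbot : ∀ n ∈ (⊥ : Subgroup G), cm n x ∈ (⊥ : Subgroup G) := by
    intro n hn
    have : n = 1 := by simpa using hn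
    rw [this, cm_one_left]
    exact one_mem _
  set Q := eng A (⊥ : Subgroup G) x bot_le hbot hAx
    (fun a ha b hb => by rw [hA a ha b hb]; exact one_mem _) with hQ
  have h1 : cm x w ∈ Q := by
    refine ⟨?_, n + 1, by rw [hn1]; exact one_mem _⟩
    rw [← cm_inv]
    exact inv_mem (hAx w hw)
  have h2 : cm w x ∈ Q := by
    rw [← cm_inv]
    exact inv_mem h1
  obtain ⟨_, m, hm⟩ := h2
  refine ⟨m + 1, ?_⟩
  rw [Function.iterate_succ_apply]
  have : (en x)^[m] (cm w x) = 1 := by simpa using hm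
  exact this

/-- The data for step 4. `G1 = ⟨x⟩T`, `B` is the centralizer of `T`, `a ∈ G1`. -/
theorem step4_hyper {G1 B Da Ta : Subgroup G}
    (hx : ∀ t ∈ T, x⁻¹ * t * x ∈ T) (hx' : ∀ t ∈ T, x * t * x⁻¹ ∈ T)
    (hG1 : ∀ g, g ∈ G1 ↔ ∃ j ∈ Subgroup.closure {x}, ∃ t ∈ T, g = j * t)
    (hB : B = Subgroup.centralizer (T : Set G)) (ha : a ∈ G1)
    (hDa : ∀ g, g ∈ Da ↔ g ∈ G1 ∧ cm a g ∈ B)
    (hTa : ∀ t, t ∈ Ta ↔ t ∈ T ∧ cm a t = 1) (hxa : cm a x ∈ B)
    (hE : ∀ w ∈ T, ∃ n, (en x)^[n] (w⁻¹ * x * w) = 1) :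
    Nml Da (Ta : Set G) ∧ Ta ≤ Da ∧
    ∀ N : Subgroup G, Ta ≤ N → N ≤ Da → Nml Da (N : Set G) → ¬ Da ≤ N →
      ∃ z ∈ Da, z ∉ N ∧ ∀ g ∈ Da, cm z g ∈ N := by
  have hxG : x ∈ G1 := (hG1 x).mpr ⟨x, Subgroup.subset_closure rfl, 1, one_mem _, by simp⟩
  have hTG : T ≤ G1 := fun t ht => (hG1 t).mpr ⟨1, one_mem _, t, ht, by simp⟩
  have hjT : Nml (Subgroup.closure {x}) (T : Set G) := by
    apply Nml.of_left_closure
    · intro s hs t ht; rw [Set.mem_singleton_iff.mp hs]; exact hx t ht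
    · intro s hs t ht; rw [Set.mem_singleton_iff.mp hs]; exact hx' t ht
  have hG1T : Nml G1 (T : Set G) := by
    intro g hg t ht
    obtain ⟨j, hj, s, hs, rfl⟩ := (hG1 g).mp hg
    have e : (j * s)⁻¹ * t * (j * s) = s⁻¹ * (j⁻¹ * t * j) * s := by group
    rw [e]
    exact mul_mem (mul_mem (inv_mem hs) (hjT j hj t ht)) hs
  have hG1B : Nml G1 (B : Set G) := by rw [hB]; exact hG1T.centralizer
  have hDG : Da ≤ G1 := fun g hg => ((hDa g).mp hg).1
  have haDa : a ∈ Da := (hDa a).mpr ⟨ha, by rw [cm_self]; exact one_mem _⟩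
  have hxDa : x ∈ Da := (hDa x).mpr ⟨hxG, hxa⟩
  have hTT : ∀ t ∈ T, t ∈ Subgroup.centralizer (B : Set G) := by
    intro t ht
    rw [hB]
    exact subset_cc (T : Set G) ht
  -- `[a,t]` for `t ∈ TD`
  have hφ : ∀ t ∈ T, t ∈ Da → cm a t ∈ T ⊓ B := by
    intro t ht htD
    exact ⟨hG1T.cm_mem' ha ht, ((hDa t).mp htD).2⟩
  have hA : ∀ v ∈ T ⊓ B, ∀ w ∈ T ⊓ B, cm v w = 1 := by
    intro v hv w hw
    have : v ∈ Subgroup.centralizer (T : Set G) := by rw [← hB]; exact hv.2
    exact cm_eq_one_of_centralizer this hw.1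
  have hTaDa : Ta ≤ Da := by
    intro t ht
    have h1 := (hTa t).mp ht
    exact (hDa t).mpr ⟨hTG h1.1, by rw [h1.2]; exact one_mem _⟩
  have hTan : Nml Da (Ta : Set G) := by
    intro g hg t ht
    have h1 := (hTa t).mp ht
    have hb : cm a g⁻¹ ∈ B := ((hDa _).mp (inv_mem hg)).2
    have hb' : cm (cm a g⁻¹) t = 1 := by
      rw [hB] at hb
      exact cm_eq_one_of_centralizer hb h1.1
    refine (hTa _).mpr ⟨hG1T g (hDG hg) t h1.1, ?_⟩
    have e : cm a (g⁻¹ * t * g) =
        g⁻¹ * (((cm a g⁻¹)⁻¹ * cm a t * cm a g⁻¹) * cm (cm a g⁻¹) t) * g := by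
      simp only [cm]; group
    rw [e, h1.2, hb']; group
  refine ⟨hTan, hTaDa, ?_⟩
  intro N hTaN hNDa hNn hDaN
  have hcomm : ∀ g ∈ G1, ∀ h ∈ G1, cm g h ∈ T := by
    intro g hg h hh
    obtain ⟨j, hj, t, ht, rfl⟩ := (hG1 g).mp hg
    obtain ⟨j', hj', t', ht', rfl⟩ := (hG1 h).mp hh
    have e : cm (j * t) (j' * t') = (t⁻¹ * (cm j t' * (t'⁻¹ * cm j j' * t')) * t) *
        cm t (j' * t') := by simp only [cm]; group
    have hjj : cm j j' = 1 := by
      have hL : (Subgroup.closure {x} : Subgroup G) ≤ Subgroup.centralizer {x} := by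
        rw [Subgroup.closure_le]
        intro s hs
        rw [Set.mem_singleton_iff.mp hs]
        apply mem_centralizer_of_cm
        intro y hy
        rw [Set.mem_singleton_iff.mp hy, cm_self]
      have h1 : j ∈ Subgroup.centralizer ((Subgroup.closure {x} : Subgroup G) : Set G) := by
        rw [Subgroup.centralizer_closure]
        exact hL hj
      exact cm_eq_one_of_centralizer h1 hj'
    rw [e, hjj]
    have h2 : cm j t' ∈ T := hjT.cm_mem' hj ht'
    have h3 : cm t (j' * t') ∈ T := hG1T.cm_mem hh ht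
    have h4 : t'⁻¹ * (1 : G) * t' = 1 := by group
    rw [h4, mul_one]
    exact mul_mem (mul_mem (mul_mem (inv_mem ht) h2) ht) h3
  by_cases hTN : ∀ t ∈ T, t ∈ Da → t ∈ N
  · -- `Da / N` is abelian
    have : ∃ z ∈ Da, z ∉ N := by
      by_contra hno
      push Not at hno
      exact hDaN hno
    obtain ⟨z, hz, hzN⟩ := this
    refine ⟨z, hz, hzN, fun g hg => ?_⟩
    exact hTN _ (hcomm z (hDG hz) g (hDG hg)) ((Nml.self Da).cm_mem hg hz)
  · push Not at hTN
    obtain ⟨t0, ht0, ht0D, ht0N⟩ := hTN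
    -- the iterates stay in `T ∩ Da`
    have hit : ∀ n, (en x)^[n] t0 ∈ T ∧ (en x)^[n] t0 ∈ Da ∧
        cm a ((en x)^[n] t0) = (en x)^[n] (cm a t0) := by
      intro n
      induction n with
      | zero => exact ⟨ht0, ht0D, rfl⟩
      | succ n ih =>
        obtain ⟨h1, h2, h3⟩ := ih
        rw [Function.iterate_succ_apply', Function.iterate_succ_apply']
        refine ⟨hG1T.cm_mem hxG h1, (Nml.self Da).cm_mem hxDa h2, ?_⟩
        rw [← h3]
        exact cm_cm_eq (hG1B.mono hDG) haDa (fun l hl => ((hDa l).mp hl).2) h2 (hTT _ h1) hxDa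
    have hfin : ∃ n, (en x)^[n] t0 ∈ N := by
      have hAx : ∀ v ∈ T ⊓ B, cm v x ∈ T ⊓ B :=
        fun v hv => ⟨hG1T.cm_mem hxG hv.1, hG1B.cm_mem hxG hv.2⟩
      obtain ⟨n, hn⟩ := engel_of_class hA hAx (fun w hw => hE w hw.1) _ (hφ t0 ht0 ht0D)
      refine ⟨n, hTaN ((hTa _).mpr ⟨(hit n).1, ?_⟩)⟩
      rw [(hit n).2.2, hn]
    classical
    obtain ⟨k, hk, hkmin⟩ : ∃ k, (en x)^[k] t0 ∈ N ∧ ∀ j < k, (en x)^[j] t0 ∉ N :=
      ⟨Nat.find hfin, Nat.find_spec hfin, fun j hj => Nat.find_min hfin hj⟩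
    rcases k with _ | k
    · exact absurd hk ht0N
    set z := (en x)^[k] t0 with hz
    have hzN : z ∉ N := hkmin k (Nat.lt_succ_self k)
    rw [Function.iterate_succ_apply', ← hz] at hk
    have hzx : cm z x ∈ N := hk
    obtain ⟨hzT, hzD, -⟩ := hit k
    refine ⟨z, hzD, hzN, ?_⟩
    -- commutators with elements of `T ∩ Da`
    have hzt : ∀ t ∈ T, t ∈ Da → cm z t ∈ N := by
      intro t ht htD
      apply hTaN
      refine (hTa _).mpr ⟨mul_mem (mul_mem (mul_mem (inv_mem hzT) (inv_mem ht)) hzT) ht, ?_⟩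
      have hz' : z⁻¹ ∈ T := inv_mem hzT
      have ht' : t⁻¹ ∈ T := inv_mem ht
      -- `[a, z⁻¹ t⁻¹] = [a, t⁻¹ z⁻¹]`
      have key : ∀ p ∈ T, p ∈ Da → ∀ q ∈ T, q ∈ Da → cm a (p * q) = cm a q * cm a p := by
        intro p hp hpD q hq hqD
        have e : cm a (p * q) = cm a q * (q⁻¹ * cm a p * q) := by simp only [cm]; group
        have h1 : cm (cm a p) q = 1 := by
          have := (hφ p hp hpD).2
          rw [hB] at this
          exact cm_eq_one_of_centralizer this hq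
        rw [e, conj_eq_of_cm h1]
      have k1 := key _ hz' (inv_mem hzD) _ ht' (inv_mem htD)
      have k2 := key _ ht' (inv_mem htD) _ hz' (inv_mem hzD)
      have k3 := hA _ (hφ _ hz' (inv_mem hzD)) _ (hφ _ ht' (inv_mem htD))
      rw [cm_eq_one_iff] at k3
      have k4 : cm a (z⁻¹ * t⁻¹) = cm a (t⁻¹ * z⁻¹) := by rw [k1, k2, k3]
      have e : cm a (cm z t) = a⁻¹ * (t⁻¹ * z⁻¹) * (a * cm a (z⁻¹ * t⁻¹)) *
          (t⁻¹ * z⁻¹)⁻¹ := by
        simp only [cm]; group
      rw [e, k4]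
      simp only [cm]; group
    intro g hg
    obtain ⟨j, hj, t, ht, rfl⟩ := (hG1 g).mp (hDG hg)
    have hjDa : j ∈ Da := by
      have : (Subgroup.closure {x} : Subgroup G) ≤ Da := by
        rw [Subgroup.closure_le]
        intro s hs
        rw [Set.mem_singleton_iff.mp hs]
        exact hxDa
      exact this hj
    have htDa : t ∈ Da := by
      have := mul_mem (inv_mem hjDa) hg
      rwa [inv_mul_cancel_left] at this
    have hzj : cm z j ∈ N := by
      have hle : (Subgroup.closure {x} : Subgroup G) ≤ Da := by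
        rw [Subgroup.closure_le]
        intro s hs
        rw [Set.mem_singleton_iff.mp hs]
        exact hxDa
      apply cm_mem_closure (S := {x}) (hNn.mono hle) _ j hj
      intro s hs
      rw [Set.mem_singleton_iff.mp hs]
      exact hzx
    have e : cm z (j * t) = cm z t * (t⁻¹ * cm z j * t) := by simp only [cm]; group
    rw [e]
    exact mul_mem (hzt t ht htDa) (hNn t htDa _ hzj)

end step


/-- The inductive step of the main theorem. -/
theorem main_step (hMC : MC G) {X : Set G} (hX : ∀ g : G, ∀ x ∈ X, g⁻¹ * x * g ∈ X)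
    (hE : ∀ x ∈ X, ∀ y ∈ X, ∃ n, (en y)^[n] x = 1) {S : Set G} {T : Subgroup G}
    (hTS : T = Subgroup.centralizer S)
    (hP : ∀ S' : Set G, Subgroup.centralizer S' ≤ T → Subgroup.centralizer S' ≠ T →
      PT X (Subgroup.centralizer S')) : PT X T := by
  intro x hxX hx hx'
  by_contra hnLN
  set Y : Set G := tc T x with hY
  -- the group `G1 = ⟨x⟩ T`
  have hjT : Nml (Subgroup.closure {x}) (T : Set G) := by
    apply Nml.of_left_closure
    · intro s hs t ht; rw [Set.mem_singleton_iff.mp hs]; exact hx t ht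
    · intro s hs t ht; rw [Set.mem_singleton_iff.mp hs]; exact hx' t ht
  set G1 : Subgroup G := prodSub (Subgroup.closure {x}) T hjT with hG1def
  have hG1 : ∀ g, g ∈ G1 ↔ ∃ j ∈ Subgroup.closure {x}, ∃ t ∈ T, g = j * t := fun g => Iff.rfl
  have hxG : x ∈ G1 := (hG1 x).mpr ⟨x, Subgroup.subset_closure rfl, 1, one_mem _, by simp⟩
  have hTG : T ≤ G1 := fun t ht => (hG1 t).mpr ⟨1, one_mem _, t, ht, by simp⟩
  have hG1T : Nml G1 (T : Set G) := by
    intro g hg t ht
    obtain ⟨j, hj, s, hs, rfl⟩ := (hG1 g).mp hg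
    have e : (j * s)⁻¹ * t * (j * s) = s⁻¹ * (j⁻¹ * t * j) * s := by group
    rw [e]
    exact mul_mem (mul_mem (inv_mem hs) (hjT j hj t ht)) hs
  have hG1le : G1 ≤ Subgroup.closure (insert x (T : Set G)) := by
    intro g hg
    obtain ⟨j, hj, t, ht, rfl⟩ := (hG1 g).mp hg
    apply mul_mem
    · exact Subgroup.closure_mono (by
        intro y hy; rw [Set.mem_singleton_iff.mp hy]; exact Set.mem_insert _ _) hj
    · exact Subgroup.subset_closure (Or.inr ht)
  have hG1Y : Nml G1 Y := (nml_tc hx hx').mono hG1le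
  set B : Subgroup G := Subgroup.centralizer (T : Set G) with hB
  have hG1B : Nml G1 (B : Set G) := hG1T.centralizer
  have hYX : Y ⊆ X := by
    rintro _ ⟨t, _, rfl⟩
    exact hX t x hxX
  have hxY : x ∈ Y := self_mem_tc T x
  have hYT : ∀ y ∈ Y, x⁻¹ * y ∈ T := by
    rintro _ ⟨t, ht, rfl⟩
    have e : x⁻¹ * (t⁻¹ * x * t) = (x⁻¹ * t⁻¹ * x) * t := by group
    rw [e]
    exact mul_mem (hx _ (inv_mem ht)) ht
  have hYG : Y ⊆ (G1 : Set G) := by
    intro y hy
    have := mul_mem hxG (hTG (hYT y hy))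
    rwa [mul_inv_cancel_left] at this
  have hcYG : Subgroup.closure Y ≤ G1 := (Subgroup.closure_le _).mpr hYG
  have ctx : Ctx Y := ⟨hMC, fun y hy g hg => hG1Y g (hcYG hg) y hy,
    fun y hy w hw => hE y (hYX hy) w (hYX hw)⟩
  -- `⟨x⟩` is NU
  have hx0 : InL Y (Subgroup.closure {x}) := by
    refine ⟨LN_closure_singleton x, Subgroup.closure_mono ?_⟩
    intro y hy
    rw [Set.mem_singleton_iff.mp hy]
    exact ⟨hxY, Subgroup.subset_closure rfl⟩
  have hxNU : NU Y (Subgroup.closure {x}) := by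
    obtain ⟨M, hM, hxM⟩ := exists_syl hx0
    by_cases huniq : ∀ M', Syl Y M' → x ∈ M' → M' = M
    · exfalso
      apply hnLN
      apply hM.1.1.mono
      show Subgroup.closure Y ≤ M
      rw [Subgroup.closure_le]
      intro w hw
      apply ctx.lemB hM hxY hw (I := ⊥) bot_le (hxM (Subgroup.subset_closure rfl))
      · rw [Subgroup.normalizer_eq_top]; trivial
      · rw [Subgroup.normalizer_eq_top]; trivial
      · intro M' hM' _ hxM'
        exact huniq M' hM' hxM'
    · push Not at huniq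
      obtain ⟨M', hM', hxM', hne⟩ := huniq
      refine ⟨hx0, M, M', hM, hM', hxM, ?_, fun h => hne h.symm⟩
      rw [Subgroup.closure_le]
      intro y hy
      rw [Set.mem_singleton_iff.mp hy]
      exact hxM'
  -- Step 1
  obtain ⟨J, ⟨hJNU, hxJ⟩, hJmin⟩ := hMC.exists_min
    (fun J : Subgroup G => ((J ⊓ T : Subgroup G) : Set G))
    (fun J => NU Y J ∧ x ∈ J) ⟨_, hxNU, Subgroup.subset_closure rfl⟩
  set C : Subgroup G := Subgroup.centralizer ((J ⊓ T : Subgroup G) : Set G) with hC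
  have hJ'C : ∀ J', NU Y J' → J ≤ J' →
      Subgroup.centralizer ((J' ⊓ T : Subgroup G) : Set G) = C :=
    fun J' hJ' hle => hJmin J' ⟨hJ', hle hxJ⟩ (Subgroup.centralizer_le (inf_le_inf_right T hle))
  have hCB : C = B := by
    by_contra hCB
    have hcen : T ⊓ Subgroup.centralizer (C : Set G) =
        Subgroup.centralizer (S ∪ (C : Set G)) := by
      rw [centralizer_union', hTS]
    have hBC : B ≤ C := Subgroup.centralizer_le inf_le_right
    have hne : Subgroup.centralizer (S ∪ (C : Set G)) ≠ T := by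
      rw [← hcen]
      intro h
      apply hCB
      refine le_antisymm ?_ hBC
      intro c hc
      apply mem_centralizer_of_cm
      intro t ht
      have ht' : t ∈ T ⊓ Subgroup.centralizer (C : Set G) := by rw [h]; exact ht
      exact cm_eq_one_of_centralizer' ht'.2 hc
    have hPT := hP (S ∪ (C : Set G)) (by rw [← hcen]; exact inf_le_left) hne
    rw [← hcen] at hPT
    set T1 : Subgroup G := T ⊓ Subgroup.centralizer (C : Set G) with hT1
    -- `J` normalizes `T1`
    have hJG : J ≤ G1 := hJNU.1.le_closure.trans hcYG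
    have hJn : Nml J (T1 : Set G) := by
      apply (hG1T.mono hJG).inf
      exact (((Nml.self J).inf (hG1T.mono hJG)).centralizer).centralizer
    have hxT1 : ∀ t ∈ T1, x⁻¹ * t * x ∈ T1 := fun t ht => hJn x hxJ t ht
    have hxT1' : ∀ t ∈ T1, x * t * x⁻¹ ∈ T1 := fun t ht => hJn.conj' hxJ ht
    set Y1 : Set G := {y | y ∈ Y ∧ x⁻¹ * y ∈ T1} with hY1
    have hY1LN : LN (Subgroup.closure Y1) := by
      apply (LN_hpr (Subgroup.closure (insert x (T1 : Set G)))).mono
      rw [Subgroup.closure_le]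
      rintro y ⟨hyY, hyT⟩
      have ey : y = x * (x⁻¹ * y) := by group
      have n1 : ∀ t ∈ T1, y⁻¹ * t * y ∈ T1 := by
        intro t ht
        have e : y⁻¹ * t * y = (x⁻¹ * y)⁻¹ * (x⁻¹ * t * x) * (x⁻¹ * y) := by group
        rw [e]
        exact mul_mem (mul_mem (inv_mem hyT) (hxT1 t ht)) hyT
      have n2 : ∀ t ∈ T1, y * t * y⁻¹ ∈ T1 := by
        intro t ht
        have e : y * t * y⁻¹ = x * ((x⁻¹ * y) * t * (x⁻¹ * y)⁻¹) * x⁻¹ := by group
        rw [e]
        exact hxT1' _ (mul_mem (mul_mem hyT ht) (inv_mem hyT))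
      apply mem_hpr_of_LN_cl n1 n2 (hPT y (hYX hyY) n1 n2)
      apply le_antisymm
      · rw [Subgroup.closure_le]
        rintro w (rfl | hw)
        · have h1 : y ∈ Subgroup.closure (insert y (T1 : Set G)) :=
            Subgroup.subset_closure (Set.mem_insert _ _)
          have h2 : w⁻¹ * y ∈ Subgroup.closure (insert y (T1 : Set G)) :=
            Subgroup.subset_closure (Or.inr hyT)
          have := mul_mem h1 (inv_mem h2)
          have e : y * (w⁻¹ * y)⁻¹ = w := by group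
          rwa [e] at this
        · exact Subgroup.subset_closure (Or.inr hw)
      · rw [Subgroup.closure_le]
        rintro w (rfl | hw)
        · have h1 : x ∈ Subgroup.closure (insert x (T1 : Set G)) :=
            Subgroup.subset_closure (Set.mem_insert _ _)
          have h2 : x⁻¹ * w ∈ Subgroup.closure (insert x (T1 : Set G)) :=
            Subgroup.subset_closure (Or.inr hyT)
          have := mul_mem h1 h2
          rwa [mul_inv_cancel_left] at this
        · exact Subgroup.subset_closure (Or.inr hw)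
    have hY1L : InL Y (Subgroup.closure Y1) := by
      refine ⟨hY1LN, Subgroup.closure_mono ?_⟩
      intro y hy
      exact ⟨hy.1, Subgroup.subset_closure hy⟩
    apply ctx.lemF hJNU hY1L
    intro J' hJ' hle
    refine hJ'.1.2.trans (Subgroup.closure_mono ?_)
    rintro y ⟨hyY, hyJ'⟩
    refine ⟨hyY, ?_⟩
    have hmem : x⁻¹ * y ∈ J' ⊓ T :=
      Subgroup.mem_inf.mpr ⟨mul_mem (inv_mem (hle hxJ)) hyJ', hYT y hyY⟩
    refine Subgroup.mem_inf.mpr ⟨hmem.2, ?_⟩
    rw [← hJ'C J' hJ' hle]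
    exact subset_cc _ hmem
  -- Step 2
  obtain ⟨J2, ⟨hJ2NU, hJJ2⟩, hJ2min⟩ := hMC.exists_min
    (fun J' : Subgroup G => Set.image2 (fun s t => cm s t⁻¹) ((J' ⊓ T : Subgroup G) : Set G)
      ((J ⊓ T : Subgroup G) : Set G))
    (fun J' => NU Y J' ∧ J ≤ J') ⟨J, hJNU, le_refl J⟩
  have hxJ2 : x ∈ J2 := hJJ2 hxJ
  have hJ2G : J2 ≤ G1 := hJ2NU.1.le_closure.trans hcYG
  -- Step 3
  have ha : ∃ a ∈ J2, a ∉ B ∧ ∀ j ∈ J2, cm a j ∈ B := by
    by_contra hno
    push Not at hno
    have hJ2B : ∀ u ∈ J2, u ∈ B := by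
      intro u hu
      refine HCen.mem_of_closed (L := (J2 : Set G)) (D := (J2 : Set G)) (N := (B : Set G))
        (one_mem B) (fun u hu l hl => (Nml.self J2).cm_mem hl hu) ?_
        (hcen_of_LN hMC hJ2NU.1.1 u hu) hu
      intro u hu h'
      by_contra huB
      obtain ⟨l, hl, hl'⟩ := hno u hu huB
      exact hl' (h' l hl)
    have hxB := hJ2B x hxJ2
    apply hnLN
    apply (LN_closure_singleton x).mono
    apply Subgroup.closure_mono
    rintro _ ⟨t, ht, rfl⟩
    have := conj_eq_of_cm (cm_eq_one_of_centralizer hxB ht)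
    rw [this]
    rfl
  obtain ⟨a, haJ2, haB, haJ⟩ := ha
  have haG : a ∈ G1 := hJ2G haJ2
  -- transfer to all larger NU groups
  have third : ∀ t ∈ J ⊓ T, ∀ s ∈ T, cm (cm t a⁻¹) s = 1 := by
    intro t ht s hs
    have e : cm t a⁻¹ = a * cm a t * a⁻¹ := by simp only [cm]; group
    rw [e]
    exact cm_eq_one_of_centralizer (hG1B.conj' haG (haJ t (hJJ2 ht.1))) hs
  have haQ : a ∈ Subgroup.centralizer (Set.image2 (fun s t => cm s t⁻¹)
      ((J2 ⊓ T : Subgroup G) : Set G) ((J ⊓ T : Subgroup G) : Set G)) := by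
    apply mem_centralizer_of_cm'
    rintro _ ⟨s, hs, t, ht, rfl⟩
    rw [← hall_witt (third t ht s hs.2)]
    exact cm_eq_one_of_centralizer (haJ s⁻¹ (inv_mem hs.1)) ht.2
  have haall : ∀ J', NU Y J' → J2 ≤ J' → ∀ j ∈ J', cm a j ∈ B := by
    intro J' hJ' hle
    have hJ'G : J' ≤ G1 := hJ'.1.le_closure.trans hcYG
    have heq := hJ2min J' ⟨hJ', hJJ2.trans hle⟩
      (Subgroup.centralizer_le (Set.image2_subset_right (inf_le_inf_right T hle)))
    have haQ' : a ∈ Subgroup.centralizer (Set.image2 (fun s t => cm s t⁻¹)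
        ((J' ⊓ T : Subgroup G) : Set G) ((J ⊓ T : Subgroup G) : Set G)) := by
      rw [heq]; exact haQ
    have hs : ∀ s ∈ J' ⊓ T, cm a s ∈ B := by
      intro s hs
      have h1 : cm a s⁻¹⁻¹ ∈ B := by
        rw [← hCB]
        apply mem_centralizer_of_cm
        intro t ht
        rw [hall_witt (third t ht s⁻¹ (inv_mem hs.2))]
        exact cm_eq_one_of_centralizer' haQ' ⟨s⁻¹, inv_mem hs, t, ht, rfl⟩
      rwa [inv_inv] at h1
    have hle2 : J' ≤ Subgroup.closure (Y ∩ J') := hJ'.1.2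
    have hle3 : Subgroup.closure (Y ∩ (J' : Set G)) ≤ G1 :=
      (Subgroup.closure_le _).mpr fun y hy => hYG hy.1
    intro j hj
    apply cm_mem_closure (hG1B.mono hle3) _ j (hle2 hj)
    rintro y ⟨hyY, hyJ'⟩
    have hmem : x⁻¹ * y ∈ J' ⊓ T :=
      Subgroup.mem_inf.mpr ⟨mul_mem (inv_mem (hle hxJ2)) hyJ', hYT y hyY⟩
    have e : cm a y = cm a (x⁻¹ * y) * ((x⁻¹ * y)⁻¹ * cm a x * (x⁻¹ * y)) := by
      simp only [cm]; group
    rw [e]
    exact mul_mem (hs _ hmem) (hG1B _ (hTG hmem.2) _ (haJ x hxJ2))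
  -- Step 4
  set Da : Subgroup G := {
    carrier := {g | g ∈ G1 ∧ cm a g ∈ B}
    one_mem' := ⟨one_mem _, by rw [cm_one_right]; exact one_mem _⟩
    mul_mem' := by
      rintro g h ⟨hg, hg'⟩ ⟨hh, hh'⟩
      refine ⟨mul_mem hg hh, ?_⟩
      have e : cm a (g * h) = cm a h * (h⁻¹ * cm a g * h) := by simp only [cm]; group
      rw [e]
      exact mul_mem hh' (hG1B h hh _ hg')
    inv_mem' := by
      rintro g ⟨hg, hg'⟩
      refine ⟨inv_mem hg, ?_⟩
      exact cm_inv_right_mem (fun u hu => hG1B.conj' hg hu) hg' } with hDadef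
  have hDa : ∀ g, g ∈ Da ↔ g ∈ G1 ∧ cm a g ∈ B := fun g => Iff.rfl
  have hcen : T ⊓ Subgroup.centralizer {a} = Subgroup.centralizer (S ∪ {a}) := by
    rw [centralizer_union', hTS]
  set Ta : Subgroup G := T ⊓ Subgroup.centralizer {a} with hTadef
  have hTa : ∀ t, t ∈ Ta ↔ t ∈ T ∧ cm a t = 1 := by
    intro t
    constructor
    · rintro ⟨h1, h2⟩
      exact ⟨h1, cm_eq_one_of_centralizer' h2 rfl⟩
    · rintro ⟨h1, h2⟩
      refine Subgroup.mem_inf.mpr ⟨h1, ?_⟩
      apply mem_centralizer_of_cm'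
      intro y hy
      rw [Set.mem_singleton_iff.mp hy]
      exact h2
  obtain ⟨hTan, hTaDa, hHC⟩ := step4_hyper (Da := Da) (Ta := Ta) hx hx' hG1 hB haG hDa hTa
    (haJ x hxJ2) (fun w hw => hE _ (hX w x hxX) x hxX)
  have hPT : PT X Ta := by
    have h1 := hP (S ∪ {a}) (by rw [← hcen]; exact inf_le_left) (by
      rw [← hcen]
      intro h
      apply haB
      apply mem_centralizer_of_cm
      intro t ht
      have ht' : t ∈ Ta := by rw [h]; exact ht
      exact ((hTa t).mp ht').2)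
    rw [← hcen] at h1
    exact h1
  have hLNDa : ∀ y ∈ Y ∩ (Da : Set G), LN (cl Da y) := by
    apply lemG hTaDa hTan Set.inter_subset_right
    · exact (hG1Y.mono (fun g hg => ((hDa g).mp hg).1)).inter (Nml.self Da)
    · intro y hy
      exact hPT y (hYX hy.1) (fun t ht => hTan y hy.2 t ht) (fun t ht => hTan.conj' hy.2 ht)
    · exact hHC
  have hLNM : LN (Subgroup.closure (Y ∩ (Da : Set G))) := by
    apply (LN_hpr Da).mono
    rw [Subgroup.closure_le]
    intro y hy
    apply mem_hpr_of_LN_cl (T := Da) (fun t ht => (Nml.self Da) y hy.2 t ht)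
      (fun t ht => (Nml.self Da).conj' hy.2 ht) (hLNDa y hy)
    apply le_antisymm
    · intro d hd
      exact Subgroup.subset_closure (Or.inr hd)
    · rw [Subgroup.closure_le]
      rintro w (rfl | hw)
      · exact hy.2
      · exact hw
  have hM : InL Y (Subgroup.closure (Y ∩ (Da : Set G))) := by
    refine ⟨hLNM, Subgroup.closure_mono ?_⟩
    intro y hy
    exact ⟨hy.1, Subgroup.subset_closure hy⟩
  apply ctx.lemF hJ2NU hM
  intro J' hJ' hle
  refine hJ'.1.2.trans (Subgroup.closure_mono ?_)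
  rintro y ⟨hyY, hyJ'⟩
  exact ⟨hyY, (hDa y).mpr ⟨hYG hyY, haall J' hJ' hle y hyJ'⟩⟩

/-- **Main theorem.** In a group with the minimal condition on centralizers, a normal Engel subset
generates a locally nilpotent subgroup. -/
theorem LN_of_engel (hMC : MC G) {X : Set G} (hX : ∀ g : G, ∀ x ∈ X, g⁻¹ * x * g ∈ X)
    (hE : ∀ x ∈ X, ∀ y ∈ X, ∃ n, (en y)^[n] x = 1) : LN (Subgroup.closure X) := by
  have key : ∀ S : Set G, PT X (Subgroup.centralizer S) := by
    by_contra hcon
    push Not at hcon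
    obtain ⟨S, hS, hmin⟩ := hMC.exists_min (fun S : Set G => S)
      (fun S => ¬ PT X (Subgroup.centralizer S)) hcon
    apply hS
    apply main_step hMC hX hE rfl
    intro S' h1 h2
    by_contra hno
    exact h2 (hmin S' hno h1)
  have htop : Subgroup.centralizer (∅ : Set G) = ⊤ := by
    rw [eq_top_iff]
    intro y _
    rw [Subgroup.mem_centralizer_iff]
    intro h hh
    exact absurd hh (Set.notMem_empty h)
  have h1 := key ∅
  rw [htop] at h1
  apply (LN_hpr (⊤ : Subgroup G)).mono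
  rw [Subgroup.closure_le]
  intro x hx
  apply mem_hpr_of_LN_cl (T := (⊤ : Subgroup G)) (fun _ _ => trivial) (fun _ _ => trivial)
    (h1 x hx (fun _ _ => trivial) (fun _ _ => trivial))
  rw [eq_comm, eq_top_iff]
  intro y _
  exact Subgroup.subset_closure (Or.inr trivial)

end Pool.Agent.Lib.H73
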