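import Pool.Agent.Lib.H73.HC

/-!
Maximal locally nilpotent subgroups generated by elements of a normal Engel set.
-/

set_option autoImplicit false

namespace Pool.Agent.Lib.H73

open Subgroup

variable {G : Type*} [Group G]

theorem MC.subtype (h : MC G) (J : Subgroup G) : MC J := by
  intro c hc
  set c' : ℕ → Set G := fun n => Subtype.val '' (⋃ i ∈ Set.Iic n, c i) with hc'
  have hmem : ∀ n, ∀ x : J, x ∈ Subgroup.centralizer (c n) ↔
      (x : G) ∈ Subgroup.centralizer (c' n) := by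
    intro n x
    constructor
    · intro hx
      rw [Subgroup.mem_centralizer_iff]
      rintro _ ⟨y, hy, rfl⟩
      simp only [Set.mem_iUnion] at hy
      obtain ⟨i, hi, hy⟩ := hy
      have h1 : x ∈ Subgroup.centralizer (c i) := hc hi hx
      exact congrArg Subtype.val (Subgroup.mem_centralizer_iff.mp h1 y hy)
    · intro hx
      rw [Subgroup.mem_centralizer_iff]
      intro y hy
      apply Subtype.ext
      apply Subgroup.mem_centralizer_iff.mp hx
      refine ⟨y, ?_, rfl⟩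
      simp only [Set.mem_iUnion]
      exact ⟨n, le_refl n, hy⟩
  obtain ⟨N, hN⟩ := h c' (fun m n hmn => Subgroup.centralizer_le (by
    apply Set.image_mono
    apply Set.biUnion_subset_biUnion_left
    exact Set.Iic_subset_Iic.mpr hmn))
  refine ⟨N, fun n hn => ?_⟩
  ext x
  rw [hmem, hmem, hN n hn]

theorem LN_subtype {J : Subgroup G} (hJ : LN J) : LN (⊤ : Subgroup J) := by
  intro F hF _
  have h1 := hJ (Subtype.val '' F) (hF.image _) (by rintro _ ⟨x, _, rfl⟩; exact x.2)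
  have e : (Subgroup.closure F).map J.subtype = Subgroup.closure (Subtype.val '' F) := by
    rw [MonoidHom.map_closure]; rfl
  rw [← e] at h1
  exact (Group.isNilpotent_congr
    ((Subgroup.closure F).equivMapOfInjective J.subtype J.subtype_injective)).mpr h1

/-- Locally nilpotent subgroups of groups with the minimal condition on centralizers are
hypercentral. -/
theorem hcen_of_LN (hMC : MC G) {J : Subgroup G} (hJ : LN J) : ∀ u ∈ J, HCen (J : Set G) u :=
  fun u hu => HCen.coe (hcen_of_LN_top (hMC.subtype J) (LN_subtype hJ) (⟨u, hu⟩ : J))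

/-- Conjugate subgroup `g M g⁻¹`. -/
def cj (g : G) (M : Subgroup G) : Subgroup G := M.map (MulAut.conj g).toMonoidHom

theorem mem_cj {g x : G} {M : Subgroup G} : x ∈ cj g M ↔ g⁻¹ * x * g ∈ M := by
  constructor
  · rintro ⟨m, hm, rfl⟩
    have e : g⁻¹ * (MulAut.conj g).toMonoidHom m * g = m := by
      simp [MulAut.conj_apply, mul_assoc]
    rw [e]
    exact hm
  · intro h
    refine ⟨g⁻¹ * x * g, h, ?_⟩
    simp [MulAut.conj_apply, mul_assoc]

theorem cj_closure (g : G) (S : Set G) :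
    cj g (Subgroup.closure S) = Subgroup.closure ((fun x => g * x * g⁻¹) '' S) := by
  rw [cj, MonoidHom.map_closure]
  rfl

theorem LN_cj {M : Subgroup G} (h : LN M) (g : G) : LN (cj g M) := by
  intro F hF hFM
  have h1 := h ((fun x => g⁻¹ * x * g) '' F) (hF.image _) (by
    rintro _ ⟨x, hx, rfl⟩
    exact mem_cj.mp (hFM hx))
  have e : Subgroup.closure F = cj g (Subgroup.closure ((fun x => g⁻¹ * x * g) '' F)) := by
    rw [cj_closure, Set.image_image]
    congr 1
    ext x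
    constructor
    · intro hx
      exact ⟨x, hx, by group⟩
    · rintro ⟨y, hy, rfl⟩
      have : g * (g⁻¹ * y * g) * g⁻¹ = y := by group
      show g * (g⁻¹ * y * g) * g⁻¹ ∈ F
      rw [this]
      exact hy
  rw [e]
  exact (Group.isNilpotent_congr ((Subgroup.closure
    ((fun x => g⁻¹ * x * g) '' F)).equivMapOfInjective (MulAut.conj g).toMonoidHom
      (MulAut.conj g).injective)).mp h1

/-- The standing assumptions: `Y` is an Engel subset of a group with the minimal condition on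
centralizers, invariant under the group it generates. -/
structure Ctx (Y : Set G) : Prop where
  mc : MC G
  inv : ∀ x ∈ Y, ∀ g ∈ Subgroup.closure Y, g⁻¹ * x * g ∈ Y
  eng : ∀ x ∈ Y, ∀ y ∈ Y, ∃ n, (en y)^[n] x = 1

/-- Locally nilpotent subgroups generated by elements of `Y`. -/
def InL (Y : Set G) (J : Subgroup G) : Prop := LN J ∧ J ≤ Subgroup.closure (Y ∩ J)

/-- Maximal locally nilpotent subgroups generated by elements of `Y`. -/
def Syl (Y : Set G) (M : Subgroup G) : Prop := InL Y M ∧ ∀ J, InL Y J → M ≤ J → J ≤ M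

/-- Members contained in at least two maximal ones. -/
def NU (Y : Set G) (J : Subgroup G) : Prop :=
  InL Y J ∧ ∃ M1 M2, Syl Y M1 ∧ Syl Y M2 ∧ J ≤ M1 ∧ J ≤ M2 ∧ M1 ≠ M2

theorem InL.closure_eq {Y : Set G} {J : Subgroup G} (h : InL Y J) :
    Subgroup.closure (Y ∩ J) = J :=
  le_antisymm ((Subgroup.closure_le _).mpr Set.inter_subset_right) h.2

theorem InL.le_closure {Y : Set G} {J : Subgroup G} (h : InL Y J) : J ≤ Subgroup.closure Y :=
  h.2.trans (Subgroup.closure_mono Set.inter_subset_left)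

theorem exists_syl {Y : Set G} {J : Subgroup G} (hJ : InL Y J) : ∃ M, Syl Y M ∧ J ≤ M := by
  obtain ⟨M, hJM, hM⟩ := zorn_le_nonempty₀ {J : Subgroup G | InL Y J} (by
    intro c hc hchain K hK
    refine ⟨sSup c, ⟨LN_sSup hchain.directedOn ⟨K, hK⟩ fun J hJ => (hc hJ).1, ?_⟩,
      fun J hJ => le_sSup hJ⟩
    apply sSup_le
    intro J hJ
    refine (hc hJ).2.trans (Subgroup.closure_mono ?_)
    exact Set.inter_subset_inter_right Y (le_sSup hJ)) J hJ
  refine ⟨M, ⟨hM.prop, fun J' hJ' hMJ' => hM.le_of_ge hJ' hMJ'⟩, hJM⟩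

/-- Lemma A. -/
theorem Ctx.inL_insert {Y : Set G} (h : Ctx Y) {M : Subgroup G} (hM : InL Y M) {y : G} (hy : y ∈ Y)
    (hyM : ∀ m ∈ M, y⁻¹ * m * y ∈ M) : InL Y (Subgroup.closure (insert y (Y ∩ M))) := by
  have hcl := hM.closure_eq
  refine ⟨LN_insert (by rw [hcl]; exact hM.1) (by rw [hcl]; exact hyM)
    (fun s hs => h.eng s hs.1 y hy), ?_⟩
  apply Subgroup.closure_mono
  rintro s (rfl | hs)
  · exact ⟨hy, Subgroup.subset_closure (Set.mem_insert _ _)⟩
  · exact ⟨hs.1, Subgroup.subset_closure (Or.inr hs)⟩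

theorem Ctx.mem_of_normalizes {Y : Set G} (h : Ctx Y) {M : Subgroup G} (hM : Syl Y M) {y : G}
    (hy : y ∈ Y) (hyM : ∀ m ∈ M, y⁻¹ * m * y ∈ M) : y ∈ M := by
  have h1 := h.inL_insert hM.1 hy hyM
  have h2 : M ≤ Subgroup.closure (insert y (Y ∩ M)) :=
    hM.1.2.trans (Subgroup.closure_mono (Set.subset_insert _ _))
  exact hM.2 _ h1 h2 (Subgroup.subset_closure (Set.mem_insert _ _))

theorem Ctx.inv' {Y : Set G} (h : Ctx Y) {x g : G} (hx : x ∈ Y) (hg : g ∈ Subgroup.closure Y) :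
    g * x * g⁻¹ ∈ Y := by
  have := h.inv x hx g⁻¹ (inv_mem hg)
  simpa using this

theorem Ctx.inL_cj {Y : Set G} (h : Ctx Y) {M : Subgroup G} (hM : InL Y M) {g : G}
    (hg : g ∈ Subgroup.closure Y) : InL Y (cj g M) := by
  refine ⟨LN_cj hM.1 g, ?_⟩
  have h1 : cj g M = cj g (Subgroup.closure (Y ∩ M)) := by rw [hM.closure_eq]
  rw [h1, cj_closure]
  apply Subgroup.closure_mono
  rintro _ ⟨x, hx, rfl⟩
  refine ⟨h.inv' hx.1 hg, ?_⟩
  exact Subgroup.subset_closure ⟨x, hx, rfl⟩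

theorem cj_inv_cj (g : G) (M : Subgroup G) : cj g (cj g⁻¹ M) = M := by
  ext x
  rw [mem_cj, mem_cj]
  have : g⁻¹⁻¹ * (g⁻¹ * x * g) * g⁻¹ = x := by group
  rw [this]

theorem cj_mono {g : G} {M N : Subgroup G} (h : M ≤ N) : cj g M ≤ cj g N := by
  intro x hx
  rw [mem_cj] at hx ⊢
  exact h hx

theorem Ctx.syl_cj {Y : Set G} (h : Ctx Y) {M : Subgroup G} (hM : Syl Y M) {g : G}
    (hg : g ∈ Subgroup.closure Y) : Syl Y (cj g M) := by
  refine ⟨h.inL_cj hM.1 hg, ?_⟩
  intro J hJ hMJ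
  have h1 : M ≤ cj g⁻¹ J := by
    have := cj_mono (g := g⁻¹) hMJ
    have e : cj g⁻¹ (cj g M) = M := by
      have := cj_inv_cj g⁻¹ M
      rwa [inv_inv] at this
    rwa [e] at this
  have h2 := hM.2 _ (h.inL_cj hJ (inv_mem hg)) h1
  have h3 := cj_mono (g := g) h2
  rwa [cj_inv_cj] at h3

/-- Lemma B. -/
theorem Ctx.lemB {Y : Set G} (h : Ctx Y) {I M : Subgroup G} {y w : G} (hM : Syl Y M)
    (hy : y ∈ Y) (hw : w ∈ Y) (hIM : I ≤ M) (hyM : y ∈ M)
    (hIy : y ∈ Subgroup.normalizer (I : Set G)) (hIw : w ∈ Subgroup.normalizer (I : Set G))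
    (huniq : ∀ M', Syl Y M' → I ≤ M' → y ∈ M' → M' = M) : w ∈ M := by
  by_contra hwM
  obtain ⟨n, hn⟩ := h.eng w hw y hy
  have hex : ∃ k, (en y)^[k] w ∈ M := ⟨n, by rw [hn]; exact one_mem _⟩
  classical
  obtain ⟨k, hk, hkmin⟩ : ∃ k, (en y)^[k] w ∈ M ∧ ∀ j < k, (en y)^[j] w ∉ M :=
    ⟨Nat.find hex, Nat.find_spec hex, fun j hj => Nat.find_min hex hj⟩
  have hzY : ∀ k, (en y)^[k] w ∈ Subgroup.closure Y := by
    intro k
    induction k with
    | zero => exact Subgroup.subset_closure hw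
    | succ k ih =>
      rw [Function.iterate_succ_apply']
      exact (Nml.self _).cm_mem (Subgroup.subset_closure hy) ih
  have hzI : ∀ k, (en y)^[k] w ∈ Subgroup.normalizer (I : Set G) := by
    intro k
    induction k with
    | zero => exact hIw
    | succ k ih =>
      rw [Function.iterate_succ_apply']
      exact (Nml.self _).cm_mem hIy ih
  rcases k with _ | j
  · exact hwM hk
  set z := (en y)^[j] w with hz
  have hzM : z ∉ M := hkmin j (Nat.lt_succ_self j)
  rw [Function.iterate_succ_apply', ← hz] at hk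
  have hyz : z⁻¹ * y * z ∈ M := by
    have e : z⁻¹ * y * z = (cm z y * y⁻¹)⁻¹ := by simp only [cm]; group
    rw [e]
    exact inv_mem (mul_mem hk (inv_mem hyM))
  have hMz : cj z M = M := by
    apply huniq _ (h.syl_cj hM (hzY j))
    · intro i hi
      rw [mem_cj]
      apply hIM
      have h1 := (Subgroup.mem_normalizer_iff.mp (inv_mem (hzI j)) i).mp hi
      simpa using h1
    · rw [mem_cj]
      exact hyz
  have hzn : ∀ m ∈ M, z⁻¹ * m * z ∈ M := by
    intro m hm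
    rw [← mem_cj, hMz]
    exact hm
  have hzn' : ∀ m ∈ M, z * m * z⁻¹ ∈ M := by
    intro m hm
    rw [← hMz, mem_cj]
    have e : z⁻¹ * (z * m * z⁻¹) * z = m := by group
    rw [e]
    exact hm
  rcases j with _ | i
  · exact hwM (h.mem_of_normalizes hM hw hzn)
  · set z' := (en y)^[i] w with hz'
    have e1 : z = cm z' y := by
      rw [hz, Function.iterate_succ_apply']; rfl
    set y1 := z'⁻¹ * y * z' with hy1
    have hy1Y : y1 ∈ Y := h.inv y hy z' (hzY i)
    have e2 : z = y1⁻¹ * y := by rw [e1, hy1]; simp only [cm]; group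
    have hy1M : y1 ∈ M := by
      apply h.mem_of_normalizes hM hy1Y
      intro m hm
      have e3 : y1⁻¹ * m * y1 = z * (y⁻¹ * m * y) * z⁻¹ := by rw [e2]; group
      rw [e3]
      exact hzn' _ (mul_mem (mul_mem (inv_mem hyM) hm) hyM)
    apply hzM
    rw [e2]
    exact mul_mem (inv_mem hy1M) hyM


/-- The product of `J` with a subgroup `N` normalized by `J`. -/
def prodSub (J N : Subgroup G) (h : Nml J (N : Set G)) : Subgroup G where
  carrier := {r | ∃ j ∈ J, ∃ n ∈ N, r = j * n}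
  one_mem' := ⟨1, one_mem _, 1, one_mem _, by simp⟩
  mul_mem' := by
    rintro _ _ ⟨j, hj, n, hn, rfl⟩ ⟨j', hj', n', hn', rfl⟩
    exact ⟨j * j', mul_mem hj hj', (j'⁻¹ * n * j') * n', mul_mem (h j' hj' n hn) hn', by group⟩
  inv_mem' := by
    rintro _ ⟨j, hj, n, hn, rfl⟩
    exact ⟨j⁻¹, inv_mem hj, j * n⁻¹ * j⁻¹, h.conj' hj (inv_mem hn), by group⟩

/-- Lemma N: the normalizer condition for members of the family. -/
theorem Ctx.lemN {Y : Set G} (h : Ctx Y) {J M : Subgroup G} (hM : InL Y M) (hJM : J ≤ M)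
    (hJ : InL Y J) (hne : ¬ M ≤ J) :
    ∃ y ∈ Y, y ∈ M ∧ y ∉ J ∧ y ∈ Subgroup.normalizer (J : Set G) := by
  set 𝒩 : Set (Subgroup G) := {N | N ≤ M ∧ Nml M (N : Set G) ∧
    ∀ j ∈ J, ∀ n ∈ N, j * n ∈ Y → j * n ∈ J} with h𝒩
  have hbot : (⊥ : Subgroup G) ∈ 𝒩 := by
    refine ⟨bot_le, Nml.bot M, ?_⟩
    intro j hj n hn _
    have : n = 1 := by simpa using hn
    rw [this, mul_one]
    exact hj
  obtain ⟨N, -, hN⟩ := zorn_le_nonempty₀ 𝒩 (by
    intro c hc hchain K hK
    have hmem : ∀ x, x ∈ sSup c ↔ ∃ s ∈ c, x ∈ s := fun x =>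
      Subgroup.mem_sSup_of_directedOn ⟨K, hK⟩ hchain.directedOn
    refine ⟨sSup c, ⟨sSup_le fun J hJ => (hc hJ).1, ?_, ?_⟩, fun J hJ => le_sSup hJ⟩
    · intro m hm u hu
      have hu' : u ∈ sSup c := hu
      rw [hmem] at hu'
      obtain ⟨s, hs, hus⟩ := hu'
      show m⁻¹ * u * m ∈ sSup c
      rw [hmem]
      exact ⟨s, hs, (hc hs).2.1 m hm u hus⟩
    · intro j hj n hn hjn
      rw [hmem] at hn
      obtain ⟨s, hs, hns⟩ := hn
      exact (hc hs).2.2 j hj n hns hjn) ⊥ hbot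
  obtain ⟨hNM, hNn, hNY⟩ := hN.prop
  have hMN : ¬ M ≤ N := by
    intro hMN
    apply hne
    refine hM.2.trans ?_
    rw [Subgroup.closure_le]
    intro y hy
    have := hNY 1 (one_mem J) y (hMN hy.2) (by simpa using hy.1)
    simpa using this
  have hz : ∃ z ∈ M, z ∉ N ∧ ∀ l ∈ M, cm z l ∈ N := by
    by_contra hno
    push Not at hno
    apply hMN
    intro u hu
    refine HCen.mem_of_closed (L := (M : Set G)) (D := (M : Set G)) (N := (N : Set G))
      (one_mem N) (fun u hu l hl => (Nml.self M).cm_mem hl hu) ?_ (hcen_of_LN h.mc hM.1 u hu) hu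
    intro u hu h'
    by_contra huN
    obtain ⟨l, hl, hl'⟩ := hno u hu huN
    exact hl' (h' l hl)
  obtain ⟨z, hzM, hzN, hzl⟩ := hz
  set Z : Subgroup G := cmod M (M : Set G) N hNn with hZ
  set N' : Subgroup G := Subgroup.closure (insert z (N : Set G)) with hN'
  have hN'Z : N' ≤ Z := by
    rw [hN', Subgroup.closure_le]
    rintro x (rfl | hx)
    · exact ⟨hzM, hzl⟩
    · exact ⟨hNM hx, fun m hm => hNn.cm_mem hm hx⟩
  have hNN' : N ≤ N' := fun x hx => Subgroup.subset_closure (Or.inr hx)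
  have hN'n : Nml M (N' : Set G) := by
    intro m hm x hx
    have e : m⁻¹ * x * m = x * cm x m := by simp only [cm]; group
    show m⁻¹ * x * m ∈ N'
    rw [e]
    exact mul_mem hx (hNN' ((hN'Z hx).2 m hm))
  have hnot : N' ∉ 𝒩 := by
    intro hin
    exact hzN (hN.le_of_ge hin hNN' (Subgroup.subset_closure (Set.mem_insert _ _)))
  have hex : ∃ j ∈ J, ∃ n ∈ N', j * n ∈ Y ∧ j * n ∉ J := by
    by_contra hno
    push Not at hno
    exact hnot ⟨fun x hx => (hN'Z hx).1, hN'n, hno⟩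
  obtain ⟨j, hj, n, hn, hyY, hyJ⟩ := hex
  have hjM : j ∈ M := hJM hj
  have hnZ := hN'Z hn
  have hyM : j * n ∈ M := mul_mem hjM hnZ.1
  refine ⟨j * n, hyY, hyM, hyJ, ?_⟩
  set R : Subgroup G := prodSub J N (hNn.mono hJM) with hR
  have hRM : R ≤ M := by
    rintro _ ⟨j, hj, n, hn, rfl⟩
    exact mul_mem (hJM hj) (hNM hn)
  have hJR : J ≤ R := fun j hj => ⟨j, hj, 1, one_mem _, by simp⟩
  have hNR : N ≤ R := fun n hn => ⟨1, one_mem _, n, hn, by simp⟩
  have hZR : ∀ x ∈ Z, ∀ r ∈ R, x⁻¹ * r * x ∈ R := by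
    intro x hx r hr
    have e : x⁻¹ * r * x = r * (cm x r)⁻¹ := by simp only [cm]; group
    rw [e]
    exact mul_mem hr (hNR (inv_mem (hx.2 r (hRM hr))))
  have hYR : ∀ x ∈ Y, x ∈ R → x ∈ J := by
    rintro x hxY ⟨j, hj, n, hn, rfl⟩
    exact hNY j hj n hn hxY
  have hyc : j * n ∈ Subgroup.closure Y := Subgroup.subset_closure hyY
  have conj1 : ∀ x ∈ J, (j * n)⁻¹ * x * (j * n) ∈ J := by
    have : ∀ x ∈ Subgroup.closure (Y ∩ J), (j * n)⁻¹ * x * (j * n) ∈ J := by
      intro x hx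
      induction hx using Subgroup.closure_induction with
      | mem x hx =>
        apply hYR _ (h.inv x hx.1 _ hyc)
        have e : (j * n)⁻¹ * x * (j * n) = n⁻¹ * (j⁻¹ * x * j) * n := by group
        rw [e]
        exact hZR n hnZ _ (hJR (mul_mem (mul_mem (inv_mem hj) hx.2) hj))
      | one => simp
      | mul a b _ _ iha ihb =>
        have e : (j * n)⁻¹ * (a * b) * (j * n) =
            ((j * n)⁻¹ * a * (j * n)) * ((j * n)⁻¹ * b * (j * n)) := by group
        rw [e]; exact mul_mem iha ihb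
      | inv a _ ih =>
        have e : (j * n)⁻¹ * a⁻¹ * (j * n) = ((j * n)⁻¹ * a * (j * n))⁻¹ := by group
        rw [e]; exact inv_mem ih
    exact fun x hx => this x (hJ.2 hx)
  have conj2 : ∀ x ∈ J, (j * n) * x * (j * n)⁻¹ ∈ J := by
    have : ∀ x ∈ Subgroup.closure (Y ∩ J), (j * n) * x * (j * n)⁻¹ ∈ J := by
      intro x hx
      induction hx using Subgroup.closure_induction with
      | mem x hx =>
        apply hYR _ (h.inv' hx.1 hyc)
        have e : (j * n) * x * (j * n)⁻¹ = j * (n⁻¹⁻¹ * x * n⁻¹) * j⁻¹ := by group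
        rw [e]
        exact mul_mem (mul_mem (hJR hj) (hZR n⁻¹ (inv_mem hnZ) _ (hJR hx.2)))
          (inv_mem (hJR hj))
      | one => simp
      | mul a b _ _ iha ihb =>
        have e : (j * n) * (a * b) * (j * n)⁻¹ =
            ((j * n) * a * (j * n)⁻¹) * ((j * n) * b * (j * n)⁻¹) := by group
        rw [e]; exact mul_mem iha ihb
      | inv a _ ih =>
        have e : (j * n) * a⁻¹ * (j * n)⁻¹ = ((j * n) * a * (j * n)⁻¹)⁻¹ := by group
        rw [e]; exact inv_mem ih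
    exact fun x hx => this x (hJ.2 hx)
  rw [Subgroup.mem_normalizer_iff]
  intro x
  constructor
  · intro hx; exact conj2 x hx
  · intro hx
    have := conj1 _ hx
    have e : (j * n)⁻¹ * ((j * n) * x * (j * n)⁻¹) * (j * n) = x := by group
    rwa [e] at this

/-- Lemma F. -/
theorem Ctx.lemF {Y : Set G} (h : Ctx Y) {J Ms : Subgroup G} (hJ : NU Y J) (hMs : InL Y Ms)
    (hall : ∀ J', NU Y J' → J ≤ J' → J' ≤ Ms) : False := by
  obtain ⟨M2, hM2, hMsM2⟩ := exists_syl hMs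
  have hJM2 : J ≤ M2 := (hall J hJ (le_refl J)).trans hMsM2
  obtain ⟨M1, hM1, hJM1, hne⟩ : ∃ M1, Syl Y M1 ∧ J ≤ M1 ∧ M1 ≠ M2 := by
    obtain ⟨_, A, B, hA, hB, hJA, hJB, hAB⟩ := hJ
    by_cases hAM : A = M2
    · exact ⟨B, hB, hJB, fun hBM => hAB (hAM.trans hBM.symm)⟩
    · exact ⟨A, hA, hJA, hAM⟩
  set J' : Subgroup G := Subgroup.closure (Y ∩ (M1 ⊓ M2 : Subgroup G)) with hJ'
  have hJ'M1 : J' ≤ M1 := (Subgroup.closure_le _).mpr fun x hx => hx.2.1
  have hJ'M2 : J' ≤ M2 := (Subgroup.closure_le _).mpr fun x hx => hx.2.2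
  have hsub : ∀ x ∈ Y, x ∈ M1 → x ∈ M2 → x ∈ J' :=
    fun x h1 h2 h3 => Subgroup.subset_closure ⟨h1, h2, h3⟩
  have hJ'L : InL Y J' := by
    refine ⟨hM1.1.1.mono hJ'M1, Subgroup.closure_mono ?_⟩
    intro x hx
    exact ⟨hx.1, Subgroup.subset_closure hx⟩
  have hJJ' : J ≤ J' := by
    refine hJ.1.2.trans ((Subgroup.closure_le _).mpr ?_)
    intro x hx
    exact hsub x hx.1 (hJM1 hx.2) (hJM2 hx.2)
  have hn1 : ¬ M1 ≤ J' := by
    intro h1
    have h12 : M1 ≤ M2 := h1.trans hJ'M2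
    exact hne (le_antisymm h12 (hM1.2 _ hM2.1 h12))
  have hn2 : ¬ M2 ≤ J' := by
    intro h1
    have h21 : M2 ≤ M1 := h1.trans hJ'M1
    exact hne (le_antisymm (hM2.2 _ hM1.1 h21) h21)
  obtain ⟨y, hyY, hyM, hyJ, hyn⟩ := h.lemN hM1.1 hJ'M1 hJ'L hn1
  obtain ⟨w, hwY, hwM, hwJ, hwn⟩ := h.lemN hM2.1 hJ'M2 hJ'L hn2
  apply hwJ
  apply hsub w hwY _ hwM
  apply h.lemB hM1 hyY hwY hJ'M1 hyM hyn hwn
  intro M' hM' hJM' hyM'
  by_contra hne'
  -- then `closure (insert y (Y ∩ J'))` would be NU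
  apply hyJ
  apply hsub y hyY hyM
  apply hMsM2
  set T : Subgroup G := Subgroup.closure (insert y (Y ∩ J')) with hT
  have hTM1 : T ≤ M1 := by
    rw [hT, Subgroup.closure_le]
    rintro x (rfl | hx)
    · exact hyM
    · exact hJ'M1 hx.2
  have hTM' : T ≤ M' := by
    rw [hT, Subgroup.closure_le]
    rintro x (rfl | hx)
    · exact hyM'
    · exact hJM' hx.2
  have hTNU : NU Y T := by
    refine ⟨⟨hM1.1.1.mono hTM1, Subgroup.closure_mono ?_⟩, M1, M', hM1, hM', hTM1, hTM',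
      fun h => hne' h.symm⟩
    rintro x (rfl | hx)
    · exact ⟨hyY, Subgroup.subset_closure (Set.mem_insert _ _)⟩
    · exact ⟨hx.1, Subgroup.subset_closure (Or.inr hx)⟩
  apply hall T hTNU
  · refine hJJ'.trans (hJ'L.2.trans (Subgroup.closure_mono (Set.subset_insert _ _)))
  · exact Subgroup.subset_closure (Set.mem_insert _ _)

end Pool.Agent.Lib.H73
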